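import Mathlib

/-!
# Points on a linear space and its annihilator

`IsPt L e t v`: the vector `t` is in `L` (after extension of scalars) with `t e = 1`, the vector
`v` is in the annihilator of `L`.
-/

set_option autoImplicit false

namespace Pool.Agent.N140.Rec

open MvPolynomial

variable {k : Type} [Field k] {ι : Type} [Fintype ι]

/-- the annihilator of `L` -/
def ann (L : Submodule k (ι → k)) : Submodule k (ι → k) where
  carrier := {c | ∀ ω ∈ L, ∑ i, c i * ω i = 0}
  zero_mem' := by intro ω _; simp
  add_mem' := by
    intro a b ha hb ω hω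
    simp only [Pi.add_apply, add_mul, Finset.sum_add_distrib, ha ω hω, hb ω hω, add_zero]
  smul_mem' := by
    intro r a ha ω hω
    simp only [Pi.smul_apply, smul_eq_mul, mul_assoc, ← Finset.mul_sum, ha ω hω, mul_zero]

theorem mem_ann {L : Submodule k (ι → k)} {c : ι → k} :
    c ∈ ann L ↔ ∀ ω ∈ L, ∑ i, c i * ω i = 0 := Iff.rfl

structure IsPt (L : Submodule k (ι → k)) (e : ι) {R : Type} [CommRing R] [Algebra k R]
    (t v : ι → R) : Prop where
  ht : ∀ c ∈ ann L, ∑ i, c i • t i = 0
  he : t e = 1
  hv : ∀ ω ∈ L, ∑ i, ω i • v i = 0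

theorem IsPt.map {L : Submodule k (ι → k)} {e : ι} {R R' : Type} [CommRing R] [Algebra k R]
    [CommRing R'] [Algebra k R'] {t v : ι → R} (h : IsPt L e t v) (f : R →ₐ[k] R') :
    IsPt L e (fun i => f (t i)) (fun i => f (v i)) where
  ht c hc := by
    have := congrArg f (h.ht c hc)
    simpa using this
  he := by simp [h.he]
  hv c hc := by
    have := congrArg f (h.hv c hc)
    simpa using this

/-- duality -/
theorem dual_H (L : Submodule k (ι → k)) (H : Set ι) (φ : ι → k)
    (hφ : ∀ ω ∈ L, (∀ i ∈ H, ω i = 0) → ∑ i, φ i * ω i = 0) :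
    ∃ h : ι → k, (∀ i ∉ H, h i = 0) ∧ φ - h ∈ ann L := by
  classical
  let ev : ι → (L →ₗ[k] k) := fun i => if i ∈ H then (LinearMap.proj i).comp L.subtype else 0
  let K : L →ₗ[k] k := (∑ i, φ i • LinearMap.proj (R := k) (φ := fun _ : ι => k) i).comp L.subtype
  have hK : K ∈ Submodule.span k (Set.range ev) := by
    apply mem_span_of_iInf_ker_le_ker
    intro ω hω
    rw [Submodule.mem_iInf] at hω
    rw [LinearMap.mem_ker]
    have := hφ ω.1 ω.2 (fun i hi => by
      have := hω i
      rw [LinearMap.mem_ker] at this
      simpa [ev, hi] using this)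
    simpa [K, LinearMap.sum_apply] using this
  rw [Submodule.mem_span_range_iff_exists_fun] at hK
  obtain ⟨c, hc⟩ := hK
  refine ⟨fun i => if i ∈ H then c i else 0, fun i hi => by simp [hi], ?_⟩
  rw [mem_ann]
  intro ω hω
  have h1 := LinearMap.congr_fun hc ⟨ω, hω⟩
  simp only [K, LinearMap.sum_apply, LinearMap.smul_apply, LinearMap.comp_apply,
    Submodule.subtype_apply, LinearMap.proj_apply, smul_eq_mul] at h1
  simp only [Pi.sub_apply, sub_mul, Finset.sum_sub_distrib, ← h1]
  rw [← Finset.sum_sub_distrib]
  apply Finset.sum_eq_zero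
  intro i _
  by_cases hi : i ∈ H
  · simp [ev, hi]
  · simp [ev, hi]

theorem ann_ann (L : Submodule k (ι → k)) : ann (ann L) = L := by
  classical
  apply le_antisymm
  · intro φ hφ
    by_contra hne
    obtain ⟨f, hf, hL⟩ := Submodule.exists_le_ker_of_notMem hne
    have hfc : ∀ x : ι → k, f x = ∑ i, f (Pi.single i 1) * x i := by
      intro x
      rw [LinearMap.pi_apply_eq_sum_univ f x]
      apply Finset.sum_congr rfl
      intro i _
      rw [smul_eq_mul, mul_comm]
      congr 2
      ext j
      simp [Pi.single_apply, eq_comm]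
    apply hf
    rw [hfc]
    have h1 : (fun i => f (Pi.single i 1)) ∈ ann L := by
      rw [mem_ann]
      intro ω hω
      rw [← hfc]
      exact hL hω
    have h2 := hφ _ h1
    rw [← h2]
    exact Finset.sum_congr rfl fun i _ => mul_comm _ _
  · intro ω hω
    rw [mem_ann]
    intro c hc
    rw [← hc ω hω]
    exact Finset.sum_congr rfl fun i _ => mul_comm _ _

theorem card_le_finrank (L : Submodule k (ι → k)) :
    Fintype.card ι ≤ Module.finrank k L + Module.finrank k (ann L) := by
  classical
  let f : (ι → k) →ₗ[k] (Module.Dual k L) :=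
    { toFun := fun c => (∑ i, c i • LinearMap.proj (R := k) (φ := fun _ : ι => k) i).comp L.subtype
      map_add' := by
        intro a b
        ext ω
        simp [add_mul, Finset.sum_add_distrib]
      map_smul' := by
        intro r a
        ext ω
        simp [mul_assoc, Finset.mul_sum] }
  have h1 := LinearMap.finrank_range_add_finrank_ker f
  have h2 : LinearMap.ker f = ann L := by
    ext c
    rw [LinearMap.mem_ker, mem_ann]
    constructor
    · intro h ω hω
      have := LinearMap.congr_fun h ⟨ω, hω⟩
      simpa [f, LinearMap.sum_apply] using this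
    · intro h
      ext ω
      have := h ω.1 ω.2
      simpa [f, LinearMap.sum_apply] using this
  rw [h2, Module.finrank_pi] at h1
  have h3 : Module.finrank k (LinearMap.range f) ≤ Module.finrank k L := by
    rw [← Subspace.dual_finrank_eq (K := k) (V := L)]
    exact Submodule.finrank_le _
  omega

/-- A point of a linear space and its annihilator satisfies a polynomial relation. -/
theorem lemX {S : Type} [Fintype S] {κ : Type} [Field κ] [Algebra k κ]
    (W : Submodule k (S → k)) (j : S) (c y : S → κ) (hp : IsPt W j c y) :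
    ∃ G : MvPolynomial S k, G ≠ 0 ∧ aeval (fun i => y i * c i ^ 2) G = 0 := by
  classical
  by_contra hcon
  push Not at hcon
  have hind : AlgebraicIndependent k (fun i => y i * c i ^ 2) := by
    rw [AlgebraicIndependent, injective_iff_map_eq_zero]
    intro G hG
    by_contra hne
    exact hcon G hne hG
  let fc : (S → k) →ₗ[k] κ :=
    { toFun := fun a => ∑ i, a i • c i
      map_add' := by intro a b; simp [add_smul, Finset.sum_add_distrib]
      map_smul' := by intro r a; simp [mul_smul, Finset.smul_sum] }
  let fy : (S → k) →ₗ[k] κ :=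
    { toFun := fun a => ∑ i, a i • y i
      map_add' := by intro a b; simp [add_smul, Finset.sum_add_distrib]
      map_smul' := by intro r a; simp [mul_smul, Finset.smul_sum] }
  have hcT : ∀ i, c i ∈ LinearMap.range fc :=
    fun i => ⟨Pi.single i 1, by simp [fc, Pi.single_apply, ite_smul]⟩
  have hyY : ∀ i, y i ∈ LinearMap.range fy :=
    fun i => ⟨Pi.single i 1, by simp [fy, Pi.single_apply, ite_smul]⟩
  have h1 := LinearMap.finrank_range_add_finrank_ker fc
  have h2 := LinearMap.finrank_range_add_finrank_ker fy
  rw [Module.finrank_pi] at h1 h2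
  have h3 : Module.finrank k (ann W) ≤ Module.finrank k (LinearMap.ker fc) :=
    Submodule.finrank_mono (fun a ha => hp.ht a ha)
  have h4 : Module.finrank k W ≤ Module.finrank k (LinearMap.ker fy) :=
    Submodule.finrank_mono (fun a ha => hp.hv a ha)
  have h5 := card_le_finrank W
  have h6 : Module.finrank k (LinearMap.range fc) + Module.finrank k (LinearMap.range fy) ≤
    Fintype.card S := by omega
  -- the element one
  have hone : (1 : κ) ∈ LinearMap.range fc := hp.he ▸ hcT j
  have hone0 : (⟨1, hone⟩ : LinearMap.range fc) ≠ 0 := by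
    intro h
    have := congrArg Subtype.val h
    simp at this
  obtain ⟨T', hT'⟩ := Submodule.exists_isCompl
    (Submodule.span k {(⟨1, hone⟩ : LinearMap.range fc)})
  have h7 := Submodule.finrank_add_eq_of_isCompl hT'
  rw [finrank_span_singleton hone0] at h7
  have : Module.Free k T' := Module.Free.of_divisionRing k T'
  let b1 := Module.finBasis k T'
  let b2 := Module.finBasis k (LinearMap.range fy)
  let p := Module.finrank k T'
  let q := Module.finrank k (LinearMap.range fy)
  let g : Fin p ⊕ Fin q → κ :=
    Sum.elim (fun a => ((b1 a : T') : LinearMap.range fc)) (fun a => (b2 a : LinearMap.range fy))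
  let f : MvPolynomial (Fin p ⊕ Fin q) k →ₐ[k] κ := aeval g
  have hT'f : ∀ x : T', ((x : LinearMap.range fc) : κ) ∈ f.range := by
    intro x
    rw [← b1.sum_repr x]
    simp only [Submodule.coe_sum, Submodule.coe_smul]
    apply Subalgebra.sum_mem
    intro a _
    apply Subalgebra.smul_mem
    exact ⟨X (Sum.inl a), by simp [f, g]⟩
  have hYf : ∀ x : LinearMap.range fy, (x : κ) ∈ f.range := by
    intro x
    rw [← b2.sum_repr x]
    simp only [Submodule.coe_sum, Submodule.coe_smul]
    apply Subalgebra.sum_mem
    intro a _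
    apply Subalgebra.smul_mem
    exact ⟨X (Sum.inr a), by simp [f, g]⟩
  have hTf : ∀ x : LinearMap.range fc, (x : κ) ∈ f.range := by
    intro x
    have : x ∈ Submodule.span k {(⟨1, hone⟩ : LinearMap.range fc)} ⊔ T' := by
      rw [hT'.sup_eq_top]; trivial
    rw [Submodule.mem_sup] at this
    obtain ⟨a, ha, b, hb, hab⟩ := this
    rw [Submodule.mem_span_singleton] at ha
    obtain ⟨r, rfl⟩ := ha
    rw [← hab]
    simp only [Submodule.coe_add, Submodule.coe_smul]
    apply Subalgebra.add_mem
    · apply Subalgebra.smul_mem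
      exact Subalgebra.one_mem _
    · exact hT'f ⟨b, hb⟩
  have hu : ∀ i, y i * c i ^ 2 ∈ f.range := fun i =>
    Subalgebra.mul_mem _ (hYf ⟨_, hyY i⟩) (Subalgebra.pow_mem _ (hTf ⟨_, hcT i⟩) 2)
  have hind' : AlgebraicIndependent k (fun i : S => (⟨y i * c i ^ 2, hu i⟩ : f.range)) := by
    rw [← f.range.val.algebraicIndependent_iff Subtype.val_injective]
    exact hind
  have h8 := hind'.lift_cardinalMk_le_trdeg
  have h9 := lift_trdeg_le_of_surjective f.rangeRestrict f.rangeRestrict_surjective
  rw [Cardinal.lift_id, Cardinal.lift_id] at h8 h9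
  rw [MvPolynomial.trdeg_of_isDomain] at h9
  have h10 := h8.trans h9
  simp only [Cardinal.mk_fintype, Fintype.card_sum, Fintype.card_fin, Cardinal.lift_natCast,
    Nat.cast_le] at h10
  omega

end Pool.Agent.N140.Rec
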