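import Pool.Agent.N140.Rec.Step3

/-!
# The beta invariant
-/

set_option autoImplicit false

namespace Pool.Agent.N140.Rec

open Module

variable {k : Type} [Field k] {n : ℕ}

/-- the part of `L` vanishing on `S` -/
def van {ι : Type} (L : Submodule k (ι → k)) (S : Finset ι) : Submodule k (ι → k) where
  carrier := {ω | ω ∈ L ∧ ∀ i ∈ S, ω i = 0}
  zero_mem' := ⟨L.zero_mem, fun _ _ => rfl⟩
  add_mem' := by
    rintro a b ⟨ha, ha'⟩ ⟨hb, hb'⟩
    refine ⟨L.add_mem ha hb, fun i hi => ?_⟩
    rw [Pi.add_apply, ha' i hi, hb' i hi, add_zero]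
  smul_mem' := by
    rintro r a ⟨ha, ha'⟩
    refine ⟨L.smul_mem r ha, fun i hi => ?_⟩
    rw [Pi.smul_apply, ha' i hi, smul_zero]

theorem mem_van {ι : Type} {L : Submodule k (ι → k)} {S : Finset ι} {ω : ι → k} :
    ω ∈ van L S ↔ ω ∈ L ∧ ∀ i ∈ S, ω i = 0 := Iff.rfl

theorem van_le {ι : Type} (L : Submodule k (ι → k)) (S : Finset ι) : van L S ≤ L :=
  fun _ h => h.1

/-- the rank function -/
noncomputable def rk {ι : Type} [Fintype ι] (L : Submodule k (ι → k)) (S : Finset ι) : ℕ :=
  finrank k L - finrank k (van L S)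

theorem rk_add {ι : Type} [Fintype ι] (L : Submodule k (ι → k)) (S : Finset ι) :
    rk L S + finrank k (van L S) = finrank k L :=
  Nat.sub_add_cancel (Submodule.finrank_mono (van_le L S))

theorem rk_univ {ι : Type} [Fintype ι] (L : Submodule k (ι → k)) :
    rk L Finset.univ = finrank k L := by
  have h : van L Finset.univ = ⊥ := by
    rw [eq_bot_iff]
    intro ω hω
    rw [Submodule.mem_bot]
    exact funext fun i => hω.2 i (Finset.mem_univ i)
  rw [rk, h, finrank_bot, Nat.sub_zero]

theorem rk_empty {ι : Type} [Fintype ι] (L : Submodule k (ι → k)) : rk L ∅ = 0 := by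
  have h : van L ∅ = L := by
    ext ω
    simp [mem_van]
  rw [rk, h, Nat.sub_self]

theorem rk_submod {ι : Type} [Fintype ι] [DecidableEq ι] (L : Submodule k (ι → k))
    (S T : Finset ι) : rk L (S ∪ T) + rk L (S ∩ T) ≤ rk L S + rk L T := by
  have h1 : van L S ⊓ van L T = van L (S ∪ T) := by
    ext ω
    simp only [Submodule.mem_inf, mem_van, Finset.mem_union]
    constructor
    · rintro ⟨⟨h, h1⟩, -, h2⟩
      exact ⟨h, fun i hi => hi.elim (h1 i) (h2 i)⟩
    · rintro ⟨h, h1⟩
      exact ⟨⟨h, fun i hi => h1 i (Or.inl hi)⟩, h, fun i hi => h1 i (Or.inr hi)⟩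
  have h2 : van L S ⊔ van L T ≤ van L (S ∩ T) := by
    apply sup_le
    · exact fun ω h => ⟨h.1, fun i hi => h.2 i (Finset.mem_inter.1 hi).1⟩
    · exact fun ω h => ⟨h.1, fun i hi => h.2 i (Finset.mem_inter.1 hi).2⟩
  have h3 := Submodule.finrank_sup_add_finrank_inf_eq (van L S) (van L T)
  rw [h1] at h3
  have h4 := Submodule.finrank_mono h2
  have h5 := rk_add L S
  have h6 := rk_add L T
  have h7 := rk_add L (S ∪ T)
  have h8 := rk_add L (S ∩ T)
  omega

/-- the beta invariant -/
noncomputable def beta {ι : Type} [Fintype ι] (L : Submodule k (ι → k)) : ℤ :=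
  (-1) ^ finrank k L * ∑ S : Finset ι, (-1) ^ S.card * (rk L S : ℤ)

/-- connectedness -/
def Conn {ι : Type} [Fintype ι] [DecidableEq ι] (L : Submodule k (ι → k)) : Prop :=
  ∀ S : Finset ι, S.Nonempty → Sᶜ.Nonempty → rk L Finset.univ < rk L S + rk L Sᶜ

theorem sum_split {ι : Type} [Fintype ι] [DecidableEq ι] (g : ι) (f : Finset ι → ℤ) :
    ∑ S : Finset ι, f S =
      ∑ S ∈ (Finset.univ.erase g).powerset, (f S + f (insert g S)) := by
  rw [Finset.sum_add_distrib, ← Finset.sum_powerset_insert (Finset.notMem_erase g _),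
    Finset.insert_erase (Finset.mem_univ g), Finset.powerset_univ]

theorem rk_insert_of_loop {ι : Type} [Fintype ι] [DecidableEq ι] {L : Submodule k (ι → k)} {g : ι}
    (h : ∀ ω ∈ L, ω g = 0) (S : Finset ι) : rk L (insert g S) = rk L S := by
  have : van L (insert g S) = van L S := by
    ext ω
    simp only [mem_van, Finset.mem_insert]
    constructor
    · rintro ⟨h1, h2⟩
      exact ⟨h1, fun i hi => h2 i (Or.inr hi)⟩
    · rintro ⟨h1, h2⟩
      refine ⟨h1, fun i hi => ?_⟩
      rcases hi with rfl | hi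
      · exact h ω h1
      · exact h2 i hi
  rw [rk, this, rk]

theorem beta_loop {ι : Type} [Fintype ι] [DecidableEq ι] {L : Submodule k (ι → k)} {g : ι}
    (h : ∀ ω ∈ L, ω g = 0) : beta L = 0 := by
  rw [beta, sum_split g, Finset.sum_eq_zero, mul_zero]
  intro S hS
  have hg : g ∉ S := fun h => Finset.notMem_erase g _ (Finset.mem_powerset.1 hS h)
  rw [rk_insert_of_loop h, Finset.card_insert_of_notMem hg, pow_succ]
  ring

theorem rk_insert_of_coloop {ι : Type} [Fintype ι] [DecidableEq ι] {L : Submodule k (ι → k)}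
    {g : ι} (h : (Pi.single g (1 : k) : ι → k) ∈ L) {S : Finset ι} (hS : g ∉ S) :
    rk L (insert g S) = rk L S + 1 := by
  have hv : (Pi.single g (1 : k) : ι → k) ∈ van L S := by
    refine ⟨h, fun i hi => ?_⟩
    rw [Pi.single_eq_of_ne]
    rintro rfl
    exact hS hi
  have h1 : finrank k (van L (insert g S)) + 1 = finrank k (van L S) := by
    let f : van L S →ₗ[k] k := (LinearMap.proj g).comp (van L S).subtype
    have hf : LinearMap.range f = ⊤ := by
      rw [LinearMap.range_eq_top]
      intro c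
      refine ⟨c • ⟨_, hv⟩, ?_⟩
      simp [f]
    have h2 := LinearMap.finrank_range_add_finrank_ker f
    rw [hf, finrank_top, finrank_self] at h2
    have h3 : finrank k (LinearMap.ker f) = finrank k (van L (insert g S)) := by
      have h4 : (LinearMap.ker f).map (van L S).subtype = van L (insert g S) := by
        ext ω
        simp only [Submodule.mem_map, LinearMap.mem_ker, mem_van, Finset.mem_insert]
        constructor
        · rintro ⟨⟨ω', h1, h2⟩, h3, rfl⟩
          refine ⟨h1, fun i hi => ?_⟩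
          rcases hi with rfl | hi
          · exact h3
          · exact h2 i hi
        · rintro ⟨h1, h2⟩
          exact ⟨⟨ω, h1, fun i hi => h2 i (Or.inr hi)⟩, h2 g (Or.inl rfl), rfl⟩
      rw [← h4, LinearEquiv.finrank_eq
        (Submodule.equivMapOfInjective _ (Submodule.subtype_injective _) _)]
    rw [h3] at h2
    omega
  have h5 := rk_add L S
  have h6 := rk_add L (insert g S)
  omega

theorem beta_coloop {ι : Type} [Fintype ι] [DecidableEq ι] {L : Submodule k (ι → k)} {g : ι}
    (h : (Pi.single g (1 : k) : ι → k) ∈ L) (hne : (Finset.univ.erase g).Nonempty) :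
    beta L = 0 := by
  have h1 : ∑ S ∈ (Finset.univ.erase g).powerset, ((-1 : ℤ) ^ S.card * (rk L S : ℤ) +
      (-1) ^ (insert g S).card * (rk L (insert g S) : ℤ)) =
      ∑ S ∈ (Finset.univ.erase g).powerset, -(-1 : ℤ) ^ S.card := by
    apply Finset.sum_congr rfl
    intro S hS
    have hg : g ∉ S := fun h => Finset.notMem_erase g _ (Finset.mem_powerset.1 hS h)
    rw [rk_insert_of_coloop h hg, Finset.card_insert_of_notMem hg, pow_succ]
    push_cast
    ring
  rw [beta, sum_split g, h1, Finset.sum_neg_distrib,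
    Finset.sum_powerset_neg_one_pow_card_of_nonempty hne, neg_zero, mul_zero]

theorem sum_powerset_last (f : Finset (Fin (n + 1)) → ℤ) :
    ∑ S ∈ (Finset.univ.erase (Fin.last n)).powerset, f S =
      ∑ S : Finset (Fin n), f (S.map Fin.castSuccEmb) := by
  symm
  apply Finset.sum_nbij (fun S : Finset (Fin n) => S.map Fin.castSuccEmb)
  · intro S _
    rw [Finset.mem_powerset]
    intro i hi
    rw [Finset.mem_map] at hi
    obtain ⟨j, -, rfl⟩ := hi
    rw [Finset.mem_erase]
    exact ⟨(Fin.castSucc_lt_last j).ne, Finset.mem_univ _⟩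
  · intro S _ T _ h
    exact Finset.map_injective _ h
  · intro S hS
    rw [Finset.mem_coe, Finset.mem_powerset] at hS
    refine ⟨Finset.univ.filter (fun j : Fin n => j.castSucc ∈ S), by simp, ?_⟩
    ext i
    simp only [Finset.mem_map, Finset.mem_filter, Finset.mem_univ, true_and]
    constructor
    · rintro ⟨j, hj, rfl⟩
      exact hj
    · intro hi
      have h1 : i ≠ Fin.last n := (Finset.mem_erase.1 (hS hi)).1
      refine ⟨i.castPred h1, ?_, ?_⟩
      · rwa [Fin.castSucc_castPred]
      · simp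
  · intro S _
    rfl

theorem finrank_van_del {L : Submodule k (Fin (n + 1) → k)}
    (hc : ∃ c ∈ ann L, c (Fin.last n) ≠ 0) (S : Finset (Fin n)) :
    finrank k (van (del L) S) = finrank k (van L (S.map Fin.castSuccEmb)) := by
  have h1 : van (del L) S = (van L (S.map Fin.castSuccEmb)).map (restr k n) := by
    ext x
    simp only [Submodule.mem_map, mem_van, mem_del]
    constructor
    · rintro ⟨⟨ω, hω, h⟩, h'⟩
      refine ⟨ω, ⟨hω, fun i hi => ?_⟩, funext h⟩
      rw [Finset.mem_map] at hi
      obtain ⟨j, hj, rfl⟩ := hi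
      exact (h j).trans (h' j hj)
    · rintro ⟨ω, ⟨hω, h⟩, rfl⟩
      exact ⟨⟨ω, hω, fun i => rfl⟩, fun j hj => h _ (Finset.mem_map_of_mem _ hj)⟩
  rw [h1]
  symm
  obtain ⟨c, hc, hcl⟩ := hc
  have hinj : Function.Injective ((restr k n).comp (van L (S.map Fin.castSuccEmb)).subtype) := by
    rw [injective_iff_map_eq_zero]
    rintro ⟨ω, hω⟩ h
    have h2 : ∀ i : Fin n, ω i.castSucc = 0 := fun i => congrFun h i
    have h3 := hc ω hω.1
    rw [Fin.sum_univ_castSucc, Finset.sum_eq_zero (fun i _ => by rw [h2, mul_zero]), zero_add,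
      mul_eq_zero, or_iff_right hcl] at h3
    apply Subtype.ext
    apply funext
    intro i
    refine Fin.lastCases ?_ (fun i => ?_) i
    · exact h3
    · exact h2 i
  rw [← LinearMap.finrank_range_of_inj hinj, LinearMap.range_comp, Submodule.range_subtype]

theorem finrank_del {L : Submodule k (Fin (n + 1) → k)}
    (hc : ∃ c ∈ ann L, c (Fin.last n) ≠ 0) : finrank k (del L) = finrank k L := by
  have h := finrank_van_del hc ∅
  have h1 : van (del L) ∅ = del L := by ext; simp [mem_van]
  have h2 : van L (Finset.map Fin.castSuccEmb (∅ : Finset (Fin n))) = L := by ext; simp [mem_van]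
  rwa [h1, h2] at h

theorem rk_del {L : Submodule k (Fin (n + 1) → k)}
    (hc : ∃ c ∈ ann L, c (Fin.last n) ≠ 0) (S : Finset (Fin n)) :
    rk (del L) S = rk L (S.map Fin.castSuccEmb) := by
  rw [rk, rk, finrank_van_del hc, finrank_del hc]

theorem finrank_van_con (L : Submodule k (Fin (n + 1) → k)) (S : Finset (Fin n)) :
    finrank k (van (con L) S) =
      finrank k (van L (insert (Fin.last n) (S.map Fin.castSuccEmb))) := by
  have h1 : van (con L) S =
      (van L (insert (Fin.last n) (S.map Fin.castSuccEmb))).map (restr k n) := by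
    ext x
    simp only [Submodule.mem_map, mem_van, mem_con]
    constructor
    · rintro ⟨⟨ω, hω, h0, h⟩, h'⟩
      refine ⟨ω, ⟨hω, fun i hi => ?_⟩, funext h⟩
      rw [Finset.mem_insert, Finset.mem_map] at hi
      rcases hi with rfl | ⟨j, hj, rfl⟩
      · exact h0
      · exact (h j).trans (h' j hj)
    · rintro ⟨ω, ⟨hω, h⟩, rfl⟩
      exact ⟨⟨ω, hω, h _ (Finset.mem_insert_self _ _), fun i => rfl⟩,
        fun j hj => h _ (Finset.mem_insert_of_mem (Finset.mem_map_of_mem _ hj))⟩
  rw [h1]
  symm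
  have hinj : Function.Injective ((restr k n).comp
      (van L (insert (Fin.last n) (S.map Fin.castSuccEmb))).subtype) := by
    rw [injective_iff_map_eq_zero]
    rintro ⟨ω, hω⟩ h
    have h2 : ∀ i : Fin n, ω i.castSucc = 0 := fun i => congrFun h i
    apply Subtype.ext
    apply funext
    intro i
    refine Fin.lastCases ?_ (fun i => ?_) i
    · exact hω.2 _ (Finset.mem_insert_self _ _)
    · exact h2 i
  rw [← LinearMap.finrank_range_of_inj hinj, LinearMap.range_comp, Submodule.range_subtype]

theorem finrank_van_single {ι : Type} [Fintype ι] [DecidableEq ι] {L : Submodule k (ι → k)}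
    {g : ι} (h : ∃ ω ∈ L, ω g ≠ 0) : finrank k (van L {g}) + 1 = finrank k L := by
  let f : L →ₗ[k] k := (LinearMap.proj g).comp L.subtype
  obtain ⟨ω, hω, hg⟩ := h
  have hf : LinearMap.range f = ⊤ := by
    rw [LinearMap.range_eq_top]
    intro c
    refine ⟨(c * (ω g)⁻¹) • ⟨ω, hω⟩, ?_⟩
    simp [f, mul_assoc, inv_mul_cancel₀ hg]
  have h2 := LinearMap.finrank_range_add_finrank_ker f
  rw [hf, finrank_top, finrank_self] at h2
  have h3 : finrank k (LinearMap.ker f) = finrank k (van L {g}) := by
    have h4 : (LinearMap.ker f).map L.subtype = van L {g} := by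
      ext ω
      simp only [Submodule.mem_map, LinearMap.mem_ker, mem_van, Finset.mem_singleton]
      constructor
      · rintro ⟨⟨ω', h1⟩, h3, rfl⟩
        refine ⟨h1, fun i hi => ?_⟩
        subst hi
        exact h3
      · rintro ⟨h1, h2⟩
        exact ⟨⟨ω, h1⟩, h2 g rfl, rfl⟩
    rw [← h4, LinearEquiv.finrank_eq
      (Submodule.equivMapOfInjective _ (Submodule.subtype_injective _) _)]
  rw [h3] at h2
  omega

theorem finrank_con {L : Submodule k (Fin (n + 1) → k)}
    (hω : ∃ ω ∈ L, ω (Fin.last n) ≠ 0) : finrank k (con L) + 1 = finrank k L := by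
  have h := finrank_van_con L ∅
  have h1 : van (con L) ∅ = con L := by ext; simp [mem_van]
  rw [h1, Finset.map_empty, insert_empty_eq] at h
  rw [h, finrank_van_single hω]

theorem rk_con {L : Submodule k (Fin (n + 1) → k)}
    (hω : ∃ ω ∈ L, ω (Fin.last n) ≠ 0) (S : Finset (Fin n)) :
    rk (con L) S + 1 = rk L (insert (Fin.last n) (S.map Fin.castSuccEmb)) := by
  have h1 := rk_add (con L) S
  have h2 := rk_add L (insert (Fin.last n) (S.map Fin.castSuccEmb))
  rw [finrank_van_con] at h1
  have h3 := finrank_con hω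
  omega

theorem beta_step {L : Submodule k (Fin (n + 2) → k)}
    (hω : ∃ ω ∈ L, ω (Fin.last (n + 1)) ≠ 0) (hc : ∃ c ∈ ann L, c (Fin.last (n + 1)) ≠ 0) :
    beta L = beta (del L) + beta (con L) := by
  rw [beta, beta, beta, finrank_del hc, sum_split (Fin.last (n + 1)), sum_powerset_last]
  have h1 : ∑ S : Finset (Fin (n + 1)), ((-1 : ℤ) ^ (S.map Fin.castSuccEmb).card *
      (rk L (S.map Fin.castSuccEmb) : ℤ) +
      (-1) ^ (insert (Fin.last (n + 1)) (S.map Fin.castSuccEmb)).card *
        (rk L (insert (Fin.last (n + 1)) (S.map Fin.castSuccEmb)) : ℤ)) =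
      ∑ S : Finset (Fin (n + 1)), (-1 : ℤ) ^ S.card * (rk (del L) S : ℤ) -
      ∑ S : Finset (Fin (n + 1)), (-1 : ℤ) ^ S.card * (rk (con L) S : ℤ) -
      ∑ S : Finset (Fin (n + 1)), (-1 : ℤ) ^ S.card := by
    rw [← Finset.sum_sub_distrib, ← Finset.sum_sub_distrib]
    apply Finset.sum_congr rfl
    intro S _
    have hg : Fin.last (n + 1) ∉ S.map Fin.castSuccEmb := by
      rw [Finset.mem_map]
      rintro ⟨j, -, hj⟩
      exact (Fin.castSucc_lt_last j).ne hj
    rw [← rk_con hω, ← rk_del hc, Finset.card_insert_of_notMem hg, Finset.card_map, pow_succ]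
    push_cast
    ring
  have h2 : ∑ S : Finset (Fin (n + 1)), (-1 : ℤ) ^ S.card = 0 := by
    rw [← Finset.powerset_univ]
    exact Finset.sum_powerset_neg_one_pow_card_of_nonempty Finset.univ_nonempty
  rw [h1, h2, sub_zero, mul_sub, ← finrank_con hω, pow_succ]
  ring

end Pool.Agent.N140.Rec
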