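import Pool.Agent.N140.Rec.Beta

/-!
# The rank is given by the beta invariant
-/

set_option autoImplicit false

namespace Pool.Agent.N140.Rec

open Module MvPolynomial

variable {k : Type} [Field k] {n : ℕ}

theorem rank_eq_zero_of_loop {L : Submodule k (Fin (n + 1) → k)} (h : ∀ ω ∈ L, ω 0 = 0) :
    Module.rank (MvPolynomial (Fin n) k) (A L 0) = 0 := by
  apply rank_eq_zero_of_torsion
  intro x
  refine ⟨1, one_ne_zero, ?_⟩
  have h1 : (1 : A L 0) = 0 := by rw [← (isPtA L 0).he, tA_eq_zero h]
  rw [← mul_one ((1 : MvPolynomial (Fin n) k) • x), h1, mul_zero]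

theorem rank_eq_zero_of_last {L : Submodule k (Fin (n + 2) → k)}
    (h : uA L 0 (Fin.last (n + 1)) = 0) :
    Module.rank (MvPolynomial (Fin (n + 1)) k) (A L 0) = 0 := by
  apply rank_eq_zero_of_not_inj
  intro hinj
  exact uA_ne_zero hinj (Fin.last n) (by rw [Fin.succ_last]; exact h)

theorem single_mem {ι : Type} [Fintype ι] [DecidableEq ι] {L : Submodule k (ι → k)} {g : ι}
    (h : ∀ c ∈ ann L, c g = 0) : (Pi.single g (1 : k) : ι → k) ∈ L := by
  rw [← ann_ann L]
  intro c hc
  have := sum_single_smul (k := k) c g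
  simp only [smul_eq_mul] at this
  rw [this]
  exact h c hc

theorem beta_one {L : Submodule k (Fin 1 → k)} (h : ∃ ω ∈ L, ω 0 ≠ 0) :
    finrank k L = 1 ∧ beta L = 1 := by
  have h1 : finrank k L = 1 := by
    have h2 := finrank_van_single h
    have h3 : van L {0} = ⊥ := by
      rw [eq_bot_iff]
      intro ω hω
      rw [Submodule.mem_bot]
      funext i
      rw [Subsingleton.elim i 0]
      exact hω.2 0 (Finset.mem_singleton_self 0)
    rw [h3, finrank_bot] at h2
    omega
  refine ⟨h1, ?_⟩
  have h2 : (Finset.univ.erase (0 : Fin 1)).powerset = {∅} := by decide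
  have h3 : (insert (0 : Fin 1) ∅ : Finset (Fin 1)) = Finset.univ := by decide
  rw [beta, sum_split 0, h2, Finset.sum_singleton, h3, rk_univ, rk_empty, h1]
  simp

theorem rank_zero_case {L : Submodule k (Fin 1 → k)} (h : ∃ ω ∈ L, ω 0 ≠ 0) :
    Module.rank (MvPolynomial (Fin 0) k) (A L 0) = 1 := by
  classical
  have hdom : IsDomain (A L 0) := isDomainA L 0 h
  have hinj : Function.Injective (phi L) := by
    rw [injective_iff_map_eq_zero]
    intro p hp
    rw [eq_C_of_isEmpty p] at hp ⊢
    rw [phi, aeval_C] at hp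
    rw [(map_eq_zero_iff _ (algebraMap k (A L 0)).injective).1 hp, C_0]
  have hsurj : Function.Surjective (phi L) := by
    have h1 : (phi L).range = ⊤ := by
      rw [eq_top_iff, ← adjoin_A, Algebra.adjoin_le_iff]
      rintro x (⟨i, rfl⟩ | ⟨i, rfl⟩)
      · rw [Fin.fin_one_eq_zero i]
        have := (isPtA L 0).he
        rw [this]
        exact one_mem _
      · rw [Fin.fin_one_eq_zero i]
        have : vA L 0 (0 : Fin 1) = 0 := by
          apply vA_eq_zero
          intro c hc
          obtain ⟨ω, hω, h0⟩ := h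
          have := hc ω hω
          rw [Fin.sum_univ_one, mul_eq_zero] at this
          exact this.resolve_right h0
        rw [this]
        exact zero_mem _
    intro x
    have : x ∈ (phi L).range := by rw [h1]; trivial
    exact this
  have e : MvPolynomial (Fin 0) k ≃ₗ[MvPolynomial (Fin 0) k] A L 0 :=
    LinearEquiv.ofBijective (Algebra.linearMap (MvPolynomial (Fin 0) k) (A L 0)) ⟨hinj, hsurj⟩
  rw [← e.rank_eq, rank_self]

/-- The rank of the ring `A L 0` is `2 ^ (r - 1) * beta`. -/
theorem rank_beta : ∀ (n : ℕ) (L : Submodule k (Fin (n + 1) → k)),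
    ∃ N : ℕ, Module.rank (MvPolynomial (Fin n) k) (A L 0) = N ∧
      (2 : ℤ) * N = 2 ^ finrank k L * beta L := by
  intro n
  induction n with
  | zero =>
    intro L
    by_cases h : ∃ ω ∈ L, ω 0 ≠ 0
    · obtain ⟨h1, h2⟩ := beta_one h
      refine ⟨1, ?_, ?_⟩
      · rw [rank_zero_case h, Nat.cast_one]
      · rw [h1, h2]
        norm_num
    · push Not at h
      refine ⟨0, ?_, ?_⟩
      · rw [rank_eq_zero_of_loop h, Nat.cast_zero]
      · rw [beta_loop h]
        simp
  | succ n ih =>
    intro L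
    by_cases h : ∃ ω ∈ L, ω 0 ≠ 0
    swap
    · push Not at h
      refine ⟨0, ?_, ?_⟩
      · rw [rank_eq_zero_of_loop h, Nat.cast_zero]
      · rw [beta_loop h]
        simp
    by_cases hω : ∃ ω ∈ L, ω (Fin.last (n + 1)) ≠ 0
    swap
    · push Not at hω
      refine ⟨0, ?_, ?_⟩
      · rw [rank_eq_zero_of_last, Nat.cast_zero]
        rw [uA, tA_eq_zero hω]
        ring
      · rw [beta_loop hω]
        simp
    by_cases hc : ∃ c ∈ ann L, c (Fin.last (n + 1)) ≠ 0
    swap
    · push Not at hc
      refine ⟨0, ?_, ?_⟩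
      · rw [rank_eq_zero_of_last, Nat.cast_zero]
        rw [uA, vA_eq_zero hc]
        ring
      · rw [beta_coloop (single_mem hc)]
        · simp
        · exact ⟨0, Finset.mem_erase.2 ⟨(Fin.last_pos).ne, Finset.mem_univ _⟩⟩
    obtain ⟨N, hN1, hN2⟩ := rank_step h hω hc
    obtain ⟨a, ha1, ha2⟩ := ih (del L)
    obtain ⟨b, hb1, hb2⟩ := ih (con L)
    rw [ha1, hb1] at hN2
    have hN3 : a + 2 * b = N := by exact_mod_cast hN2
    refine ⟨N, hN1, ?_⟩
    rw [beta_step hω hc, mul_add]
    rw [finrank_del hc] at ha2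
    rw [← ha2, ← hN3, ← finrank_con hω, pow_succ]
    push_cast
    have : (2 : ℤ) ^ finrank k (con L) * 2 * beta (con L) = 2 * (2 * b) := by rw [hb2]; ring
    rw [this]
    ring

theorem beta_nonneg (L : Submodule k (Fin (n + 1) → k)) : 0 ≤ beta L := by
  obtain ⟨N, -, hN⟩ := rank_beta n L
  have h1 : (0 : ℤ) ≤ 2 ^ finrank k L * beta L := by rw [← hN]; positivity
  exact nonneg_of_mul_nonneg_right h1 (by positivity)

theorem rk_single_of_loop {ι : Type} [Fintype ι] [DecidableEq ι] {L : Submodule k (ι → k)} {g : ι}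
    (h : ∀ ω ∈ L, ω g = 0) : rk L {g} = 0 := by
  rw [← insert_empty_eq, rk_insert_of_loop h, rk_empty]

theorem rk_single_le {ι : Type} [Fintype ι] [DecidableEq ι] (L : Submodule k (ι → k)) (g : ι) :
    rk L {g} ≤ 1 := by
  by_cases h : ∃ ω ∈ L, ω g ≠ 0
  · have h1 := finrank_van_single h
    have h2 := rk_add L {g}
    omega
  · push Not at h
    rw [rk_single_of_loop h]
    exact zero_le_one

theorem rk_mono {ι : Type} [Fintype ι] (L : Submodule k (ι → k)) {S T : Finset ι}
    (h : S ⊆ T) : rk L S ≤ rk L T := by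
  have h1 : van L T ≤ van L S := fun ω hω => ⟨hω.1, fun i hi => hω.2 i (h hi)⟩
  have h2 := Submodule.finrank_mono h1
  have h3 := rk_add L S
  have h4 := rk_add L T
  omega

theorem nonloop_of_conn {ι : Type} [Fintype ι] [DecidableEq ι] {L : Submodule k (ι → k)}
    (h : Conn L) {g : ι} (hne : ({g}ᶜ : Finset ι).Nonempty) : ∃ ω ∈ L, ω g ≠ 0 := by
  by_contra hcon
  push Not at hcon
  have h1 := h {g} (Finset.singleton_nonempty g) hne
  rw [rk_single_of_loop hcon, zero_add] at h1
  exact absurd h1 (not_lt.2 (rk_mono L (Finset.subset_univ _)))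

theorem noncoloop_of_conn {ι : Type} [Fintype ι] [DecidableEq ι] {L : Submodule k (ι → k)}
    (h : Conn L) {g : ι} (hne : ({g}ᶜ : Finset ι).Nonempty) : ∃ c ∈ ann L, c g ≠ 0 := by
  by_contra hcon
  push Not at hcon
  have h1 := h {g} (Finset.singleton_nonempty g) hne
  have h2 := rk_insert_of_coloop (single_mem hcon) (S := {g}ᶜ) (by simp)
  have h3 : insert g ({g}ᶜ : Finset ι) = Finset.univ := by
    ext i; by_cases hi : i = g <;> simp [hi]
  rw [h3] at h2
  have h4 := rk_single_le L g
  omega

theorem map_compl_last (S : Finset (Fin n)) :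
    ((insert (Fin.last n) (S.map Fin.castSuccEmb))ᶜ : Finset (Fin (n + 1))) =
      Sᶜ.map Fin.castSuccEmb := by
  ext i
  refine Fin.lastCases ?_ (fun i => ?_) i
  · simp only [Finset.mem_compl, Finset.mem_insert, true_or, not_true, Finset.mem_map,
      false_iff, not_exists, not_and]
    intro j _ hj
    exact (Fin.castSucc_lt_last j).ne hj
  · have h1 : ∀ S : Finset (Fin n), i.castSucc ∈ S.map Fin.castSuccEmb ↔ i ∈ S := by
      intro S
      rw [Finset.mem_map]
      constructor
      · rintro ⟨j, hj, hj'⟩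
        rwa [← Fin.castSucc_injective _ hj']
      · exact fun h => ⟨i, h, rfl⟩
    rw [Finset.mem_compl, Finset.mem_insert, h1, h1, Finset.mem_compl]
    constructor
    · exact fun h h' => h (Or.inr h')
    · rintro h (h' | h')
      · exact (Fin.castSucc_lt_last i).ne h'
      · exact h h'

/-- Tutte: deletion or contraction keeps connectedness -/
theorem conn_del_or_con {L : Submodule k (Fin (n + 2) → k)} (h : Conn L) :
    Conn (del L) ∨ Conn (con L) := by
  classical
  by_contra hcon
  rw [not_or] at hcon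
  obtain ⟨h1, h2⟩ := hcon
  have hne : ({Fin.last (n + 1)}ᶜ : Finset (Fin (n + 2))).Nonempty := by
    refine ⟨0, ?_⟩
    rw [Finset.mem_compl, Finset.mem_singleton]
    exact (Fin.last_pos).ne
  have hω := nonloop_of_conn h hne
  have hc := noncoloop_of_conn h hne
  unfold Conn at h1 h2
  push Not at h1 h2
  obtain ⟨A1, hA1, hA2, hA⟩ := h1
  obtain ⟨B1, hB1, hB2, hB⟩ := h2
  let up : Finset (Fin (n + 1)) → Finset (Fin (n + 2)) := fun S => S.map Fin.castSuccEmb
  let upg : Finset (Fin (n + 1)) → Finset (Fin (n + 2)) := fun S =>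
    insert (Fin.last (n + 1)) (S.map Fin.castSuccEmb)
  have hu : rk (del L) Finset.univ = finrank k L := by rw [rk_univ, finrank_del hc]
  have hv : rk (con L) Finset.univ + 1 = finrank k L := by rw [rk_univ, finrank_con hω]
  rw [hu, rk_del hc, rk_del hc] at hA
  have hB' : rk L (upg B1) + rk L (upg B1ᶜ) ≤ finrank k L + 1 := by
    have e1 := rk_con hω B1
    have e2 := rk_con hω B1ᶜ
    change rk (con L) B1 + 1 = rk L (upg B1) at e1
    change rk (con L) B1ᶜ + 1 = rk L (upg B1ᶜ) at e2
    omega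
  -- the main inequality
  have key : ∀ S T : Finset (Fin (n + 1)), rk L (up S) + rk L (up Sᶜ) ≤ finrank k L →
      rk L (upg T) + rk L (upg Tᶜ) ≤ finrank k L + 1 → S ∩ T = ∅ ∨ Sᶜ ∩ Tᶜ = ∅ := by
    intro S T hS hT
    by_contra hcon
    rw [not_or, ← ne_eq, ← ne_eq, ← Finset.nonempty_iff_ne_empty,
      ← Finset.nonempty_iff_ne_empty] at hcon
    obtain ⟨hn1, hn2⟩ := hcon
    have s1 := rk_submod L (up S) (upg T)
    have s2 := rk_submod L (up Sᶜ) (upg Tᶜ)
    have e1 : ∀ X Y : Finset (Fin (n + 1)), up X ∪ upg Y = upg (X ∪ Y) := by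
      intro X Y
      simp only [up, upg, Finset.map_union, Finset.union_insert]
    have e2 : ∀ X Y : Finset (Fin (n + 1)), up X ∩ upg Y = up (X ∩ Y) := by
      intro X Y
      simp only [up, upg, Finset.map_inter]
      rw [Finset.inter_insert_of_notMem]
      rw [Finset.mem_map]
      rintro ⟨j, -, hj⟩
      exact (Fin.castSucc_lt_last j).ne hj
    rw [e1, e2] at s1 s2
    have c1 : ∀ X : Finset (Fin (n + 1)), (upg X)ᶜ = up Xᶜ := fun X => map_compl_last X
    have q1 := h (upg (S ∪ T)) (Finset.insert_nonempty _ _) (by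
      rw [c1, Finset.compl_union]
      exact hn2.map)
    have q2 := h (upg (Sᶜ ∪ Tᶜ)) (Finset.insert_nonempty _ _) (by
      rw [c1, Finset.compl_union, compl_compl, compl_compl]
      exact hn1.map)
    rw [c1, Finset.compl_union, rk_univ] at q1
    rw [c1, Finset.compl_union, compl_compl, compl_compl, rk_univ] at q2
    omega
  have k1 := key A1 B1 hA hB'
  have k2 := key A1 B1ᶜ hA (by rw [compl_compl, add_comm]; exact hB')
  rw [compl_compl] at k2
  obtain ⟨a1, ha1⟩ := hA1
  obtain ⟨a2, ha2⟩ := hA2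
  obtain ⟨b1, hb1⟩ := hB1
  obtain ⟨b2, hb2⟩ := hB2
  rw [Finset.mem_compl] at ha2 hb2
  simp only [Finset.eq_empty_iff_forall_notMem, Finset.mem_inter, Finset.mem_compl,
    not_and, not_not] at k1 k2
  rcases k1 with k1 | k1 <;> rcases k2 with k2 | k2
  · exact k1 a1 ha1 (k2 a1 ha1)
  · exact k2 b1 (fun h => k1 b1 h hb1) hb1
  · exact hb2 (k1 b2 (fun h => hb2 (k2 b2 h)))
  · exact k2 a2 ha2 (k1 a2 ha2)

/-- the beta invariant of a connected matroid is positive -/
theorem beta_pos : ∀ (n : ℕ) (L : Submodule k (Fin (n + 1) → k)), Conn L →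
    (∃ ω ∈ L, ω 0 ≠ 0) → 0 < beta L := by
  intro n
  induction n with
  | zero =>
    intro L _ h0
    rw [(beta_one h0).2]
    exact one_pos
  | succ n ih =>
    intro L h h0
    have hne : ({Fin.last (n + 1)}ᶜ : Finset (Fin (n + 2))).Nonempty := by
      refine ⟨0, ?_⟩
      rw [Finset.mem_compl, Finset.mem_singleton]
      exact (Fin.last_pos).ne
    have hω := nonloop_of_conn h hne
    have hc := noncoloop_of_conn h hne
    rw [beta_step hω hc]
    have h1 := beta_nonneg (del L)
    have h2 := beta_nonneg (con L)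
    have h3 : ∃ ω ∈ del L, ω 0 ≠ 0 := by
      obtain ⟨ω, hω, h0⟩ := h0
      exact ⟨_, mem_del.2 ⟨ω, hω, fun i => rfl⟩, h0⟩
    rcases Nat.eq_zero_or_pos n with rfl | hn
    · have h4 : 0 < beta (del L) := by rw [(beta_one h3).2]; exact one_pos
      omega
    · rcases conn_del_or_con h with h4 | h4
      · have := ih (del L) h4 h3
        omega
      · have h5 : ({0}ᶜ : Finset (Fin (n + 1))).Nonempty := by
          refine ⟨Fin.last n, ?_⟩
          rw [Finset.mem_compl, Finset.mem_singleton]
          intro h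
          have := congrArg Fin.val h
          simp at this
          omega
        have := ih (con L) h4 (nonloop_of_conn h4 h5)
        omega

/-- For connected matroids the polynomial ring injects. -/
theorem inj_of_conn {L : Submodule k (Fin (n + 1) → k)} (h : Conn L)
    (h0 : ∃ ω ∈ L, ω 0 ≠ 0) : Function.Injective (phi L) := by
  by_contra hcon
  obtain ⟨N, hN, hN'⟩ := rank_beta n L
  rw [rank_eq_zero_of_not_inj hcon] at hN
  have : N = 0 := by exact_mod_cast hN.symm
  rw [this] at hN'
  have h1 := beta_pos n L h h0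
  have h2 : (0 : ℤ) < 2 ^ finrank k L * beta L := by positivity
  rw [← hN'] at h2
  simp at h2

end Pool.Agent.N140.Rec
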