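import Mathlib

/-!
# Derivations and primitive elements
-/

set_option autoImplicit false

namespace Pool.Agent.N140.Rec

open Algebra Polynomial TensorProduct

/-- extension of derivations to algebraic extensions in characteristic zero -/
theorem exists_deriv {k P F : Type} [Field k] [CommRing P] [IsDomain P] [Algebra k P] [Field F]
    [CharZero F] [Algebra k F] [Algebra P F] [IsScalarTower k P F] [FaithfulSMul P F]
    [Algebra.IsAlgebraic P F] (δ : Derivation k P P) :
    ∃ D : Derivation k F F, ∀ p, D (algebraMap P F p) = algebraMap P F (δ p) := by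
  let K := FractionRing P
  let : Algebra K F := FractionRing.liftAlgebra P F
  have : IsScalarTower P K F := FractionRing.isScalarTower_liftAlgebra P F
  have : CharZero K := by
    refine ⟨fun a b hab => ?_⟩
    have := congrArg (algebraMap K F) hab
    rw [map_natCast, map_natCast] at this
    exact_mod_cast this
  have : Algebra.IsAlgebraic K F := Algebra.IsAlgebraic.extendScalars (IsFractionRing.injective P K)
  have : Algebra.IsSeparable K F := inferInstance
  have : FormallyEtale K F := Algebra.FormallyEtale.of_isSeparable K F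
  have : FormallyEtale P K := Algebra.FormallyEtale.of_isLocalization (nonZeroDivisors P)
  have : FormallyEtale P F := Algebra.FormallyEtale.comp P K F
  let f : Ω[P⁄k] →ₗ[P] F := (Algebra.linearMap P F) ∘ₗ δ.liftKaehlerDifferential
  let g : F ⊗[P] Ω[P⁄k] →ₗ[F] F := LinearMap.liftBaseChange F f
  let h : Ω[F⁄k] →ₗ[F] F := g ∘ₗ
    (KaehlerDifferential.tensorKaehlerEquivOfFormallyEtale k P F).symm.toLinearMap
  refine ⟨h.compDer (KaehlerDifferential.D k F), fun p => ?_⟩
  change h (KaehlerDifferential.D k F (algebraMap P F p)) = _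
  simp only [h, g, LinearMap.comp_apply, LinearEquiv.coe_coe]
  rw [KaehlerDifferential.tensorKaehlerEquivOfFormallyEtale_symm_D_algebraMap,
    LinearMap.liftBaseChange_tmul, one_smul]
  simp [f]

theorem deriv_aeval {k P F : Type} [Field k] [CommRing P] [Algebra k P] [Field F]
    [Algebra k F] [Algebra P F] [IsScalarTower k P F] (δ : Derivation k P P)
    (D : Derivation k F F) (hD : ∀ p, D (algebraMap P F p) = algebraMap P F (δ p)) (x : F)
    (m : P[X]) : ∃ q : P[X], D (aeval x m) = aeval x q + aeval x (derivative m) * D x := by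
  induction m using Polynomial.induction_on' with
  | add p q hp hq =>
    obtain ⟨a, ha⟩ := hp
    obtain ⟨b, hb⟩ := hq
    refine ⟨a + b, ?_⟩
    rw [map_add, map_add, ha, hb, map_add, map_add, map_add]
    ring
  | monomial n a =>
    refine ⟨monomial n (δ a), ?_⟩
    rw [aeval_monomial, aeval_monomial, derivative_monomial, aeval_monomial, Derivation.leibniz,
      Derivation.leibniz_pow, hD, map_mul, map_natCast]
    simp only [smul_eq_mul, nsmul_eq_mul]
    ring

theorem deriv_mem {k P F : Type} [Field k] [CommRing P] [IsDomain P] [IsIntegrallyClosed P]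
    [Algebra k P] [Field F]
    [CharZero F] [Algebra k F] [Algebra P F] [IsScalarTower k P F] [FaithfulSMul P F]
    (δ : Derivation k P P)
    (D : Derivation k F F) (hD : ∀ p, D (algebraMap P F p) = algebraMap P F (δ p)) (x : F)
    (hx : IsIntegral P x) (S : Subfield F) (hS : ∀ p, algebraMap P F p ∈ S) (hxS : x ∈ S) :
    D x ∈ S := by
  have hmem : ∀ q : P[X], aeval x q ∈ S := by
    intro q
    rw [aeval_eq_sum_range]
    refine S.sum_mem fun i _ => ?_
    rw [Algebra.smul_def]
    exact S.mul_mem (hS _) (S.pow_mem hxS _)
  have : CharZero P := by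
    refine ⟨fun a b hab => ?_⟩
    have := congrArg (algebraMap P F) hab
    rw [map_natCast, map_natCast] at this
    exact_mod_cast this
  obtain ⟨q, hq⟩ := deriv_aeval δ D hD x (minpoly P x)
  rw [minpoly.aeval, map_zero] at hq
  have hne : aeval x (derivative (minpoly P x)) ≠ 0 := by
    intro h0
    rw [minpoly.isIntegrallyClosed_dvd_iff hx] at h0
    have hpos := minpoly.natDegree_pos hx
    have hd : derivative (minpoly P x) ≠ 0 := by
      intro h1
      rw [Polynomial.derivative_eq_zero] at h1
      omega
    have h2 := natDegree_le_of_dvd h0 hd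
    have h3 := natDegree_derivative_lt hpos.ne'
    omega
  have h4 : D x = -aeval x q * (aeval x (derivative (minpoly P x)))⁻¹ := by
    rw [eq_mul_inv_iff_mul_eq₀ hne]
    linear_combination -hq
  rw [h4]
  exact S.mul_mem (S.neg_mem (hmem _)) (S.inv_mem (hmem _))

/-- finite rank implies algebraic -/
theorem isAlgebraic_of_rank {P R : Type} [CommRing P] [IsDomain P] [CommRing R] [Algebra P R]
    {N : ℕ} (h : Module.rank P R = N) : Algebra.IsAlgebraic P R := by
  refine ⟨fun a => ?_⟩
  have hli : ¬ LinearIndependent P (fun i : Fin (N + 1) => a ^ (i : ℕ)) := by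
    intro hli
    have := hli.cardinal_le_rank
    rw [h, Cardinal.mk_fin] at this
    have : N + 1 ≤ N := by exact_mod_cast this
    omega
  rw [Fintype.not_linearIndependent_iff] at hli
  obtain ⟨g, hg, i, hi⟩ := hli
  refine ⟨∑ i : Fin (N + 1), monomial (i : ℕ) (g i), ?_, ?_⟩
  · intro h0
    have h1 := congrArg (fun p => coeff p i) h0
    simp only [finsetSum_coeff, coeff_monomial, coeff_zero] at h1
    rw [Finset.sum_eq_single i] at h1
    · rw [if_pos rfl] at h1
      exact hi h1
    · intro b _ hb
      rw [if_neg]
      exact fun h => hb (Fin.ext h)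
    · simp
  · rw [map_sum, ← hg]
    refine Finset.sum_congr rfl fun j _ => ?_
    rw [aeval_monomial, Algebra.smul_def]

end Pool.Agent.N140.Rec
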