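import Pool.Agent.N140.Rec.Beta2
import Pool.Agent.N140.Rec.Deriv

/-!
# The degree of the minimal polynomial
-/

set_option autoImplicit false

namespace Pool.Agent.N140.Rec

open MvPolynomial

variable {k : Type} [Field k] {n : ℕ}

theorem pair_zero {ι F : Type} [Fintype ι] [CommRing F] [Algebra k F] {L : Submodule k (ι → k)}
    {t v : ι → F} (ht : ∀ c ∈ ann L, ∑ i, c i • t i = 0) (hv : ∀ ω ∈ L, ∑ i, ω i • v i = 0) :
    ∑ i, t i * v i = 0 := by
  classical
  let b := Module.Basis.ofVectorSpace k F
  have h1 : ∀ j, (fun i => b.repr (t i) j) ∈ L := by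
    intro j
    rw [← ann_ann L]
    intro c hc
    have h2 := congrArg (fun y => b.repr y j) (ht c hc)
    simp only [map_sum, map_smul, Finsupp.coe_finsetSum, Finset.sum_apply, Finsupp.smul_apply,
      smul_eq_mul, map_zero, Finsupp.coe_zero, Pi.zero_apply] at h2
    rw [← h2]
    exact Finset.sum_congr rfl fun i _ => mul_comm _ _
  let s := Finset.univ.biUnion (fun i => (b.repr (t i)).support)
  have h3 : ∀ i, t i = ∑ j ∈ s, b.repr (t i) j • b j := by
    intro i
    conv_lhs => rw [← b.linearCombination_repr (t i), Finsupp.linearCombination_apply]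
    apply Finsupp.sum_of_support_subset
    · exact Finset.subset_biUnion_of_mem (fun i => (b.repr (t i)).support) (Finset.mem_univ i)
    · intro j _
      rw [zero_smul]
  calc ∑ i, t i * v i = ∑ i, (∑ j ∈ s, b.repr (t i) j • b j) * v i :=
        Finset.sum_congr rfl fun i _ => by rw [← h3 i]
    _ = ∑ j ∈ s, b j * ∑ i, b.repr (t i) j • v i := by
        simp only [Finset.sum_mul, Finset.mul_sum]
        rw [Finset.sum_comm]
        refine Finset.sum_congr rfl fun j _ => Finset.sum_congr rfl fun i _ => ?_
        rw [smul_mul_assoc, mul_smul_comm]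
    _ = 0 := Finset.sum_eq_zero fun j _ => by rw [hv _ (h1 j), mul_zero]

theorem main_rel {ι F : Type} [Fintype ι] [Field F] [Algebra k F] {L : Submodule k (ι → k)}
    {e : ι} {t v : ι → F} (hp : IsPt L e t v) (ht0 : ∀ i, t i ≠ 0) (D : Derivation k F F) :
    ∑ i, (t i)⁻¹ * D (v i * t i ^ 2) = 0 := by
  have h1 : ∑ i, D (t i) * v i = 0 := by
    apply pair_zero (L := L) _ hp.hv
    intro c hc
    rw [← map_zero D, ← hp.ht c hc, map_sum]
    exact Finset.sum_congr rfl fun i _ => (D.map_smul _ _).symm
  have h2 : ∑ i, t i * D (v i) = 0 := by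
    apply pair_zero (L := L) hp.ht
    intro c hc
    rw [← map_zero D, ← hp.hv c hc, map_sum]
    exact Finset.sum_congr rfl fun i _ => (D.map_smul _ _).symm
  have h3 : ∀ i, (t i)⁻¹ * D (v i * t i ^ 2) = 2 * (D (t i) * v i) + t i * D (v i) := by
    intro i
    rw [Derivation.leibniz, Derivation.leibniz_pow]
    simp only [smul_eq_mul, nsmul_eq_mul]
    have := ht0 i
    field_simp
    norm_num
    ring
  rw [Finset.sum_congr rfl fun i _ => h3 i, Finset.sum_add_distrib, ← Finset.mul_sum, h1, h2]
  ring

theorem uA_zero (L : Submodule k (Fin (n + 1) → k)) : uA L 0 0 = vA L 0 0 := by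
  rw [uA, (isPtA L 0).he, one_pow, mul_one]

theorem isIntegral_u0 {L : Submodule k (Fin (n + 1) → k)} (hinj : Function.Injective (phi L)) :
    IsIntegral (MvPolynomial (Fin n) k) (uA L 0 0) := by
  have := nontrivial_of_inj hinj
  have : IsDomain (A L 0) := isDomainA L 0 exists_zero
  let F := FractionRing (A L 0)
  let f : A L 0 →ₐ[k] F := IsScalarTower.toAlgHom k (A L 0) F
  have hAF : Function.Injective (algebraMap (A L 0) F) := IsFractionRing.injective _ _
  rw [← isIntegral_algebraMap_iff hAF, uA_zero]
  apply isIntegral_of_forall_valuationSubring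
  intro V hV
  have hV' : ∀ p, f (phi L p) ∈ V := fun p => by
    have := hV p
    rwa [IsScalarTower.algebraMap_apply (MvPolynomial (Fin n) k) (A L 0) F] at this
  refine step0 ((isPtA L 0).map f) V ?_ ?_
  · intro a
    have := hV' (C a)
    rwa [phi, algHom_C, AlgHom.commutes] at this
  · intro i hi
    obtain ⟨j, rfl⟩ := Fin.exists_succ_eq.2 hi
    have := hV' (X j)
    rwa [phi_X, uA, map_mul, map_pow] at this

theorem tA_ne_zero_of_inj {L : Submodule k (Fin (n + 1) → k)} (hinj : Function.Injective (phi L))
    (i : Fin (n + 1)) : tA L 0 i ≠ 0 := by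
  have := nontrivial_of_inj hinj
  refine Fin.cases ?_ (fun j => ?_) i
  · rw [(isPtA L 0).he]
    exact one_ne_zero
  · intro h
    exact uA_ne_zero hinj j (by rw [uA, h]; ring)

theorem natDegree_minpoly [CharZero k] {L : Submodule k (Fin (n + 1) → k)}
    (hinj : Function.Injective (phi L)) {N : ℕ}
    (hN : Module.rank (MvPolynomial (Fin n) k) (A L 0) = N) :
    (minpoly (MvPolynomial (Fin n) k) (uA L 0 0)).natDegree = N := by
  have := nontrivial_of_inj hinj
  have : IsDomain (A L 0) := isDomainA L 0 exists_zero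
  let P := MvPolynomial (Fin n) k
  let F := FractionRing (A L 0)
  let K := FractionRing P
  have hAF : Function.Injective (algebraMap (A L 0) F) := IsFractionRing.injective _ _
  have : FaithfulSMul P (A L 0) := (faithfulSMul_iff_algebraMap_injective P (A L 0)).2 hinj
  have : IsScalarTower P (A L 0) F := inferInstance
  have hPF : Function.Injective (algebraMap P F) := by
    rw [IsScalarTower.algebraMap_eq P (A L 0) F]
    exact hAF.comp hinj
  have : FaithfulSMul P F := (faithfulSMul_iff_algebraMap_injective P F).2 hPF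
  have : Algebra.IsAlgebraic P (A L 0) := isAlgebraic_of_rank hN
  have : Algebra.IsAlgebraic (A L 0) F :=
    (IsFractionRing.comap_isAlgebraic_iff (K := F) (A := A L 0) (C := F)).2 inferInstance
  have : Algebra.IsAlgebraic P F := Algebra.IsAlgebraic.trans P (A L 0) F
  let : Algebra K F := FractionRing.liftAlgebra P F
  have : IsScalarTower P K F := FractionRing.isScalarTower_liftAlgebra P F
  have : IsScalarTower k P F := inferInstance
  have : CharZero F := charZero_of_injective_algebraMap (algebraMap k F).injective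
  let x : F := algebraMap (A L 0) F (uA L 0 0)
  have hx : IsIntegral P x := (isIntegral_u0 hinj).algebraMap
  let f : A L 0 →ₐ[k] F := IsScalarTower.toAlgHom k (A L 0) F
  let S : Subfield F := (IntermediateField.adjoin K {x}).toSubfield
  have hS : ∀ p, algebraMap P F p ∈ S := by
    intro p
    rw [IsScalarTower.algebraMap_apply P K F]
    exact (IntermediateField.adjoin K {x}).algebraMap_mem _
  have hxS : x ∈ S := IntermediateField.subset_adjoin K {x} (Set.mem_singleton x)
  have ht0 : ∀ i, f (tA L 0 i) ≠ 0 := fun i => by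
    rw [Ne, map_eq_zero_iff f hAF]
    exact tA_ne_zero_of_inj hinj i
  have hu : ∀ j : Fin n, f (vA L 0 j.succ) * f (tA L 0 j.succ) ^ 2 = algebraMap P F (X j) := by
    intro j
    rw [IsScalarTower.algebraMap_apply P (A L 0) F, algebraMap_P, phi_X, uA, map_mul, map_pow]
    rfl
  have hu0 : f (vA L 0 0) * f (tA L 0 0) ^ 2 = x := by
    rw [← map_pow, ← map_mul]
    rfl
  have htS : ∀ i, f (tA L 0 i) ∈ S := by
    intro i
    refine Fin.cases ?_ (fun j => ?_) i
    · rw [(isPtA L 0).he, map_one]
      exact S.one_mem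
    · obtain ⟨D, hD⟩ := exists_deriv (k := k) (F := F) (pderiv (R := k) j)
      have h1 : D x ∈ S := deriv_mem (pderiv (R := k) j) D hD x hx S hS hxS
      have h2 := main_rel ((isPtA L 0).map f) ht0 D
      rw [Fin.sum_univ_succ, hu0, (isPtA L 0).he, map_one, inv_one, one_mul] at h2
      rw [Finset.sum_eq_single j] at h2
      · rw [hu, hD, pderiv_X_self, map_one, mul_one] at h2
        have h3 : f (tA L 0 j.succ) = -(D x)⁻¹ := by
          rw [← inv_inv (f (tA L 0 j.succ)), eq_neg_of_add_eq_zero_right h2, inv_neg]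
        rw [h3]
        exact S.neg_mem (S.inv_mem h1)
      · intro i _ hi
        rw [hu, hD, pderiv_X_of_ne hi, map_zero, mul_zero]
      · simp
  have hvS : ∀ i, f (vA L 0 i) ∈ S := by
    intro i
    have h1 : f (vA L 0 i) * f (tA L 0 i) ^ 2 ∈ S := by
      refine Fin.cases ?_ (fun j => ?_) i
      · rw [hu0]
        exact hxS
      · rw [hu]
        exact hS _
    have h2 : f (vA L 0 i) = (f (vA L 0 i) * f (tA L 0 i) ^ 2) * (f (tA L 0 i) ^ 2)⁻¹ := by
      rw [mul_assoc, mul_inv_cancel₀ (pow_ne_zero 2 (ht0 i)), mul_one]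
    rw [h2]
    exact S.mul_mem h1 (S.inv_mem (S.pow_mem (htS i) 2))
  have hA : ∀ a : A L 0, f a ∈ S := by
    intro a
    obtain ⟨p, rfl⟩ := mkA_surjective L 0 a
    induction p using MvPolynomial.induction_on with
    | C a =>
      have h1 : mkA L 0 (C a) = phi L (C a) :=
        ((mkA L 0).commutes a).trans ((phi L).commutes a).symm
      rw [h1]
      have := hS (C a)
      rwa [IsScalarTower.algebraMap_apply P (A L 0) F] at this
    | add p q hp hq =>
      rw [map_add, map_add]
      exact S.add_mem hp hq
    | mul_X p i hp =>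
      rw [map_mul, map_mul]
      refine S.mul_mem hp ?_
      rcases i with i | i
      · exact htS i
      · exact hvS i
  have htop : IntermediateField.adjoin K {x} = ⊤ := by
    rw [eq_top_iff]
    intro y _
    obtain ⟨a, b, hb, rfl⟩ := IsFractionRing.div_surjective (A := A L 0) y
    exact S.div_mem (hA a) (hA b)
  have hxK : IsIntegral K x := hx.tower_top
  have e1 := IntermediateField.adjoin.finrank hxK
  have e2 : minpoly K x = (minpoly P (uA L 0 0)).map (algebraMap P K) :=
    minpoly.isIntegrallyClosed_eq_field_fractions K F (isIntegral_u0 hinj)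
  rw [htop, IntermediateField.finrank_top', e2,
    (minpoly.monic (isIntegral_u0 hinj)).natDegree_map] at e1
  rw [← e1, IsFractionRing.finrank_eq P K (A L 0) F, Module.finrank, hN, Cardinal.toNat_natCast]

end Pool.Agent.N140.Rec
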