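import Pool.Agent.N140.Rec.Hyper

/-!
# Geometry of the reciprocal linear space
-/

set_option autoImplicit false

namespace Pool.Agent.N140.Rec

open MvPolynomial Module

section Ann

variable {k : Type} [Field k] {ι : Type} [Fintype ι]

theorem finrank_ann (L : Submodule k (ι → k)) :
    finrank k (ann L) + finrank k L = Fintype.card ι := by
  classical
  let f : (ι → k) →ₗ[k] (Module.Dual k L) :=
    { toFun := fun c => (∑ i, c i • LinearMap.proj (R := k) (φ := fun _ : ι => k) i).comp L.subtype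
      map_add' := by
        intro a b
        ext ω
        simp [add_mul, Finset.sum_add_distrib]
      map_smul' := by
        intro r a
        ext ω
        simp [mul_assoc, Finset.mul_sum] }
  have h1 := LinearMap.finrank_range_add_finrank_ker f
  have h2 : LinearMap.ker f = ann L := by
    ext c
    rw [LinearMap.mem_ker, mem_ann]
    constructor
    · intro h ω hω
      have := LinearMap.congr_fun h ⟨ω, hω⟩
      simpa [f, LinearMap.sum_apply] using this
    · intro h
      ext ω
      have := h ω.1 ω.2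
      simpa [f, LinearMap.sum_apply] using this
  have h3 : LinearMap.range f = ⊤ := by
    rw [LinearMap.range_eq_top]
    intro φ
    obtain ⟨g, hg⟩ := LinearMap.exists_extend φ
    refine ⟨fun i => g (Pi.single i 1), ?_⟩
    ext ω
    have h4 := LinearMap.congr_fun hg ω
    rw [← h4]
    simp only [f, LinearMap.coe_mk, AddHom.coe_mk, LinearMap.comp_apply, LinearMap.sum_apply,
      LinearMap.smul_apply, LinearMap.proj_apply, Submodule.subtype_apply, smul_eq_mul]
    conv_rhs => rw [pi_eq_sum_univ (ω : ι → k), map_sum]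
    refine Finset.sum_congr rfl fun i _ => ?_
    rw [map_smul, smul_eq_mul, mul_comm]
    congr 2
    funext j
    simp [Pi.single_apply, eq_comm]
  rw [h2, h3, finrank_top, Subspace.dual_finrank_eq, finrank_pi] at h1
  omega

end Ann

variable {n : ℕ}

theorem eval_smul_hom {σ : Type} [Fintype σ] {m : ℕ} {F : MvPolynomial σ ℂ}
    (hF : F.IsHomogeneous m) (c : ℂ) (z : σ → ℂ) : eval (c • z) F = c ^ m * eval z F := by
  rw [eval_eq', eval_eq', Finset.mul_sum]
  refine Finset.sum_congr rfl fun s hs => ?_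
  have h2 : ∑ i, s i = m := by
    rw [← Finsupp.degree_eq_sum]
    by_contra hne
    exact (mem_support_iff.1 hs) (hF.coeff_eq_zero hne)
  simp only [Pi.smul_apply, smul_eq_mul, mul_pow]
  rw [Finset.prod_mul_distrib, Finset.prod_pow_eq_pow_sum, h2]
  ring

theorem hom_comp {σ : Type} [Fintype σ] (z : σ → ℂ) (G : MvPolynomial σ ℂ)
    (h : ∀ c : ℂ, c ≠ 0 → eval (c • z) G = 0) (m : ℕ) :
    eval z (homogeneousComponent m G) = 0 := by
  let q : Polynomial ℂ := ∑ i ∈ Finset.range (G.totalDegree + 1),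
    Polynomial.monomial i (eval z (homogeneousComponent i G))
  have hq : ∀ c, q.eval c = eval (c • z) G := by
    intro c
    conv_rhs => rw [← sum_homogeneousComponent G, map_sum]
    rw [Polynomial.eval_finsetSum]
    refine Finset.sum_congr rfl fun i _ => ?_
    rw [Polynomial.eval_monomial, eval_smul_hom (homogeneousComponent_isHomogeneous i G), mul_comm]
  have hq0 : Polynomial.X * q = 0 := by
    apply Polynomial.funext
    intro c
    rw [Polynomial.eval_mul, Polynomial.eval_X, hq, Polynomial.eval_zero]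
    by_cases hc : c = 0
    · rw [hc, zero_mul]
    · rw [h c hc, mul_zero]
  have hq1 : q = 0 := (mul_eq_zero.1 hq0).resolve_left Polynomial.X_ne_zero
  have h3 := congrArg (fun p => Polynomial.coeff p m) hq1
  simp only [q, Polynomial.finsetSum_coeff, Polynomial.coeff_zero, Polynomial.coeff_monomial] at h3
  rw [Finset.sum_ite_eq'] at h3
  split_ifs at h3 with h5
  · exact h3
  · rw [homogeneousComponent_eq_zero, map_zero]
    rw [Finset.mem_range] at h5
    omega

theorem hasDerivAt_eval {σ : Type} [Fintype σ] (F : MvPolynomial σ ℂ) (γ : ℂ → σ → ℂ)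
    (γ' : σ → ℂ) (x : ℂ) (h : ∀ i, HasDerivAt (fun ε => γ ε i) (γ' i) x) :
    HasDerivAt (fun ε => eval (γ ε) F) (∑ i, eval (γ x) (pderiv i F) * γ' i) x := by
  classical
  induction F using MvPolynomial.induction_on with
  | C a =>
    simp only [eval_C, pderiv_C, map_zero, zero_mul, Finset.sum_const_zero]
    exact hasDerivAt_const x a
  | add p q hp hq =>
    simp only [map_add, add_mul, Finset.sum_add_distrib]
    exact hp.add hq
  | mul_X p j hp =>
    have h1 := hp.mul (h j)
    have h2 : (∑ i, eval (γ x) (pderiv i (p * X j)) * γ' i) =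
        (∑ i, eval (γ x) (pderiv i p) * γ' i) * γ x j + eval (γ x) p * γ' j := by
      have h3 : ∀ i, eval (γ x) (pderiv i (p * X j)) * γ' i =
          (eval (γ x) (pderiv i p) * γ' i) * γ x j +
            (if i = j then eval (γ x) p * γ' i else 0) := by
        intro i
        rw [Derivation.leibniz, smul_eq_mul, smul_eq_mul, map_add, map_mul, map_mul, eval_X,
          pderiv_X]
        by_cases hij : i = j
        · subst hij
          simp
          ring
        · rw [Pi.single_eq_of_ne (Ne.symm hij), map_zero, if_neg hij]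
          ring
      rw [Finset.sum_congr rfl fun i _ => h3 i, Finset.sum_add_distrib, Finset.sum_ite_eq',
        if_pos (Finset.mem_univ j), Finset.sum_mul]
    rw [h2]
    have h4 : (fun ε => eval (γ ε) (p * X j)) = fun ε => eval (γ ε) p * γ ε j := by
      funext ε
      rw [map_mul, eval_X]
    rw [h4]
    exact h1

/-- the polynomials vanishing at the reciprocals -/
def van0 (L : Submodule ℂ (Fin (n + 1) → ℂ)) : Submodule ℂ (MvPolynomial (Fin (n + 1)) ℂ) where
  carrier := {F | ∀ ω ∈ L, (∀ i, ω i ≠ 0) → eval (fun i => (ω i)⁻¹) F = 0}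
  zero_mem' := by
    intro ω _ _
    exact map_zero _
  add_mem' := by
    intro a b ha hb ω hω h0
    rw [map_add, ha ω hω h0, hb ω hω h0, add_zero]
  smul_mem' := by
    intro r a ha ω hω h0
    rw [smul_eval, ha ω hω h0, mul_zero]

theorem mem_van0 {L : Submodule ℂ (Fin (n + 1) → ℂ)} {F : MvPolynomial (Fin (n + 1)) ℂ} :
    F ∈ van0 L ↔ ∀ ω ∈ L, (∀ i, ω i ≠ 0) → eval (fun i => (ω i)⁻¹) F = 0 := Iff.rfl

theorem smul_inv_pt {L : Submodule ℂ (Fin (n + 1) → ℂ)} {ω : Fin (n + 1) → ℂ} (hω : ω ∈ L)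
    (h0 : ∀ i, ω i ≠ 0) {c : ℂ} (hc : c ≠ 0) :
    ∃ ω' ∈ L, (∀ i, ω' i ≠ 0) ∧ c • (fun i => (ω i)⁻¹) = fun i => (ω' i)⁻¹ := by
  refine ⟨c⁻¹ • ω, L.smul_mem _ hω, fun i => ?_, ?_⟩
  · rw [Pi.smul_apply, smul_eq_mul]
    exact mul_ne_zero (inv_ne_zero hc) (h0 i)
  · funext i
    rw [Pi.smul_apply, Pi.smul_apply, smul_eq_mul, smul_eq_mul, mul_inv, inv_inv]

theorem van0_comp {L : Submodule ℂ (Fin (n + 1) → ℂ)} {F : MvPolynomial (Fin (n + 1)) ℂ}
    (hF : F ∈ van0 L) (m : ℕ) : homogeneousComponent m F ∈ van0 L := by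
  intro ω hω h0
  apply hom_comp
  intro c hc
  obtain ⟨ω', h1, h2, h3⟩ := smul_inv_pt hω h0 hc
  rw [h3]
  exact hF ω' h1 h2

/-- the gradients of the polynomials vanishing on the reciprocals -/
noncomputable def gradL (z : Fin (n + 1) → ℂ) :
    MvPolynomial (Fin (n + 1)) ℂ →ₗ[ℂ] (Fin (n + 1) → ℂ) where
  toFun F := fun i => eval z (pderiv i F)
  map_add' := by
    intro a b
    funext i
    simp
  map_smul' := by
    intro r a
    funext i
    simp [smul_eval]

theorem gradL_apply (z : Fin (n + 1) → ℂ) (F : MvPolynomial (Fin (n + 1)) ℂ) (i : Fin (n + 1)) :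
    gradL z F i = eval z (pderiv i F) := rfl

noncomputable def Nsp (L : Submodule ℂ (Fin (n + 1) → ℂ)) (z : Fin (n + 1) → ℂ) :
    Submodule ℂ (Fin (n + 1) → ℂ) := (van0 L).map (gradL z)

theorem grad_torus {L : Submodule ℂ (Fin (n + 1) → ℂ)} {F : MvPolynomial (Fin (n + 1)) ℂ}
    (hF : F ∈ van0 L) {ω : Fin (n + 1) → ℂ} (hω : ω ∈ L) (h0 : ∀ i, ω i ≠ 0) :
    (fun i => eval (fun i => (ω i)⁻¹) (pderiv i F) * (ω i ^ 2)⁻¹) ∈ ann L := by
  intro s hs
  let γ : ℂ → Fin (n + 1) → ℂ := fun ε i => (ω i + ε * s i)⁻¹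
  have hγ : ∀ i, HasDerivAt (fun ε => γ ε i) (-(s i) / (ω i + 0 * s i) ^ 2) 0 := by
    intro i
    have h1 : HasDerivAt (fun ε : ℂ => ω i + ε * s i) (s i) 0 := by
      have := ((hasDerivAt_id (0 : ℂ)).mul_const (s i)).const_add (ω i)
      simpa using this
    exact h1.fun_inv (by rw [zero_mul, add_zero]; exact h0 i)
  have h1 := hasDerivAt_eval F γ _ 0 hγ
  have h2 : (fun ε => eval (γ ε) F) =ᶠ[nhds 0] fun _ => (0 : ℂ) := by
    have h3 : ∀ᶠ ε in nhds (0 : ℂ), ∀ i, ω i + ε * s i ≠ 0 := by
      rw [Filter.eventually_all]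
      intro i
      have hc : ContinuousAt (fun ε : ℂ => ω i + ε * s i) 0 := by fun_prop
      apply hc.eventually_ne
      rw [zero_mul, add_zero]
      exact h0 i
    filter_upwards [h3] with ε hε
    exact hF (ω + ε • s) (L.add_mem hω (L.smul_mem _ hs)) hε
  have h3 : HasDerivAt (fun ε => eval (γ ε) F) 0 0 :=
    (hasDerivAt_const (0 : ℂ) (0 : ℂ)).congr_of_eventuallyEq h2
  have h4 := h1.unique h3
  have h5 : γ 0 = fun i => (ω i)⁻¹ := by
    funext i
    simp [γ]
  rw [h5] at h4
  rw [← neg_eq_zero, ← Finset.sum_neg_distrib, ← h4]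
  refine Finset.sum_congr rfl fun i _ => ?_
  rw [zero_mul, add_zero, div_eq_mul_inv]
  ring

theorem pderiv_prod_notMem {σ : Type} [DecidableEq σ] (S : Finset σ) (a : σ) (ha : a ∉ S) :
    pderiv a (∏ j ∈ S, (X j : MvPolynomial σ ℂ)) = 0 := by
  induction S using Finset.induction_on with
  | empty => simp
  | insert j S hj ih =>
    rw [Finset.prod_insert hj, Derivation.leibniz, ih (fun h => ha (Finset.mem_insert_of_mem h)),
      pderiv_X_of_ne, smul_zero, smul_zero, add_zero]
    rintro rfl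
    exact ha (Finset.mem_insert_self _ _)

theorem grad_exists {L : Submodule ℂ (Fin (n + 1) → ℂ)} {v : Fin (n + 1) → ℂ} (hv : v ∈ ann L)
    {ω : Fin (n + 1) → ℂ} (hω : ω ∈ L) (h0 : ∀ i, ω i ≠ 0) :
    ∃ F ∈ van0 L, ∀ i, eval (fun i => (ω i)⁻¹) (pderiv i F) = v i * ω i ^ 2 := by
  let R : MvPolynomial (Fin (n + 1)) ℂ := ∑ i, C (v i) * ∏ j ∈ Finset.univ.erase i, X j
  have hR : R ∈ van0 L := by
    intro ω' hω' h0'
    have h1 : ∀ i, ∏ j ∈ Finset.univ.erase i, (ω' j)⁻¹ = (∏ j, (ω' j)⁻¹) * ω' i := by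
      intro i
      rw [← Finset.prod_erase_mul _ _ (Finset.mem_univ i), mul_assoc, inv_mul_cancel₀ (h0' i),
        mul_one]
    simp only [R, map_sum, map_mul, eval_C, map_prod, eval_X, h1]
    have h2 := hv ω' hω'
    calc ∑ i, v i * ((∏ j, (ω' j)⁻¹) * ω' i) = (∏ j, (ω' j)⁻¹) * ∑ i, v i * ω' i := by
          rw [Finset.mul_sum]
          exact Finset.sum_congr rfl fun i _ => by ring
      _ = 0 := by rw [h2, mul_zero]
  let z : Fin (n + 1) → ℂ := fun i => (ω i)⁻¹
  let Q : ℂ := ∏ j, z j
  have hQ : Q ≠ 0 := Finset.prod_ne_zero_iff.2 fun i _ => inv_ne_zero (h0 i)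
  have hgrad : ∀ a, eval z (pderiv a R) = -(Q * (v a * ω a ^ 2)) := by
    intro a
    have h1 : ∀ i, eval z (pderiv a (C (v i) * ∏ j ∈ Finset.univ.erase i,
        (X j : MvPolynomial (Fin (n + 1)) ℂ))) =
        if i = a then 0 else v i * (Q * ω i * ω a) := by
      intro i
      rw [Derivation.leibniz, pderiv_C, smul_zero, add_zero, smul_eq_mul, map_mul, eval_C]
      split_ifs with hia
      · rw [pderiv_prod_notMem _ _ (by rw [hia]; exact Finset.notMem_erase _ _), map_zero, mul_zero]
      · have h2 : a ∈ Finset.univ.erase i :=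
          Finset.mem_erase.2 ⟨fun h => hia h.symm, Finset.mem_univ a⟩
        rw [← Finset.mul_prod_erase _ _ h2, Derivation.leibniz,
          pderiv_prod_notMem _ _ (Finset.notMem_erase _ _), smul_zero, zero_add, pderiv_X_self,
          smul_eq_mul, mul_one, map_prod]
        simp only [eval_X]
        have h3 : Q = (∏ j ∈ (Finset.univ.erase i).erase a, z j) * z a * z i := by
          rw [Finset.prod_erase_mul _ _ h2, Finset.prod_erase_mul _ _ (Finset.mem_univ i)]
        rw [h3]
        simp only [z]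
        have := h0 i
        have := h0 a
        field_simp
    have h2 : ∑ i, (if i = a then 0 else v i * (Q * ω i * ω a)) =
        ∑ i, v i * (Q * ω i * ω a) - v a * (Q * ω a * ω a) := by
      rw [eq_sub_iff_add_eq, ← Finset.add_sum_erase _ _ (Finset.mem_univ a), if_pos rfl, zero_add,
        ← Finset.sum_erase_add (f := fun i => v i * (Q * ω i * ω a)) _ (Finset.mem_univ a)]
      congr 1
      refine Finset.sum_congr rfl fun i hi => ?_
      rw [if_neg (Finset.ne_of_mem_erase hi)]
    have h3 : ∑ i, v i * (Q * ω i * ω a) = 0 := by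
      calc ∑ i, v i * (Q * ω i * ω a) = Q * ω a * ∑ i, v i * ω i := by
            rw [Finset.mul_sum]
            exact Finset.sum_congr rfl fun i _ => by ring
        _ = 0 := by rw [hv ω hω, mul_zero]
    simp only [R, map_sum, h1, h2, h3]
    ring
  refine ⟨(-Q⁻¹) • R, (van0 L).smul_mem _ hR, fun i => ?_⟩
  rw [Derivation.map_smul, smul_eval, hgrad]
  field_simp

end Pool.Agent.N140.Rec
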