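import Pool.Agent.N140.Rec.Geom

/-!
# The dual variety of the reciprocal linear space
-/

set_option autoImplicit false

namespace Pool.Agent.N140.Rec

open MvPolynomial Module
open scoped LinearAlgebra.Projectivization

variable {n : ℕ}

abbrev PP (n : ℕ) : Type := ℙ ℂ (Fin (n + 1) → ℂ)

def Vanishes (F : MvPolynomial (Fin (n + 1)) ℂ) (S : Set (PP n)) : Prop :=
  ∀ x ∈ S, eval x.rep F = 0

def zariskiClosure (S : Set (PP n)) : Set (PP n) :=
  {x | ∀ (m : ℕ) (F : MvPolynomial (Fin (n + 1)) ℂ), F.IsHomogeneous m → Vanishes F S →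
    eval x.rep F = 0}

def tangentSpace (X : Set (PP n)) (x : PP n) : Submodule ℂ (Fin (n + 1) → ℂ) where
  carrier := {y | ∀ (m : ℕ) (F : MvPolynomial (Fin (n + 1)) ℂ), F.IsHomogeneous m →
    Vanishes F X → ∑ i, eval x.rep (pderiv i F) * y i = 0}
  zero_mem' := by
    intro m F _ _
    simp
  add_mem' := by
    intro a b ha hb m F h1 h2
    simp only [Pi.add_apply, mul_add, Finset.sum_add_distrib, ha m F h1 h2, hb m F h1 h2, add_zero]
  smul_mem' := by
    intro c a ha m F h1 h2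
    simp only [Pi.smul_apply, smul_eq_mul, mul_left_comm _ c, ← Finset.mul_sum, ha m F h1 h2,
      mul_zero]

def IsSmoothPoint (X : Set (PP n)) (x : PP n) : Prop :=
  x ∈ X ∧ ∀ y ∈ X, finrank ℂ (tangentSpace X x) ≤ finrank ℂ (tangentSpace X y)

def dualVariety (X : Set (PP n)) : Set (PP n) :=
  zariskiClosure {u | ∃ x, IsSmoothPoint X x ∧ ∀ y ∈ tangentSpace X x, ∑ i, u.rep i * y i = 0}

def IsHypersurfaceOfDegree (Y : Set (PP n)) (D : ℕ) : Prop :=
  ∃ F : MvPolynomial (Fin (n + 1)) ℂ, Irreducible F ∧ F.IsHomogeneous D ∧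
    Y = {x | eval x.rep F = 0}

def tor (L : Submodule ℂ (Fin (n + 1) → ℂ)) : Set (PP n) :=
  {x | ∃ ω ∈ L, (∀ i, ω i ≠ 0) ∧ x.rep = fun i => (ω i)⁻¹}

def XL (L : Submodule ℂ (Fin (n + 1) → ℂ)) : Set (PP n) := zariskiClosure (tor L)

variable {L : Submodule ℂ (Fin (n + 1) → ℂ)}

theorem subset_closure (S : Set (PP n)) : S ⊆ zariskiClosure S := fun x hx _ _ _ h => h x hx

theorem exists_mk (w : Fin (n + 1) → ℂ) (hw : w ≠ 0) :
    ∃ (x : PP n) (a : ℂ), a ≠ 0 ∧ x.rep = a • w := by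
  obtain ⟨a, ha⟩ := Projectivization.exists_smul_eq_mk_rep ℂ w hw
  exact ⟨Projectivization.mk ℂ w hw, (a : ℂ), a.ne_zero, ha.symm⟩

theorem exists_tor {ω : Fin (n + 1) → ℂ} (hω : ω ∈ L) (h0 : ∀ i, ω i ≠ 0) :
    ∃ x ∈ tor L, ∃ a : ℂ, a ≠ 0 ∧ x.rep = a • fun i => (ω i)⁻¹ := by
  have hw : (fun i => (ω i)⁻¹) ≠ 0 := by
    intro h
    exact inv_ne_zero (h0 0) (congrFun h 0)
  obtain ⟨x, a, ha, hx⟩ := exists_mk _ hw
  refine ⟨x, ?_, a, ha, hx⟩
  obtain ⟨ω', h1, h2, h3⟩ := smul_inv_pt hω h0 ha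
  exact ⟨ω', h1, h2, hx.trans h3⟩

theorem vanishes_tor {m : ℕ} {F : MvPolynomial (Fin (n + 1)) ℂ} (hF : F.IsHomogeneous m) :
    Vanishes F (tor L) ↔ F ∈ van0 L := by
  constructor
  · intro h ω hω h0
    obtain ⟨x, hx, a, ha, hxa⟩ := exists_tor hω h0
    have h1 := h x hx
    rw [hxa, eval_smul_hom hF] at h1
    exact (mul_eq_zero.1 h1).resolve_left (pow_ne_zero _ ha)
  · rintro h x ⟨ω, hω, h0, hx⟩
    rw [hx]
    exact h ω hω h0

theorem vanishes_XL {m : ℕ} {F : MvPolynomial (Fin (n + 1)) ℂ} (hF : F.IsHomogeneous m) :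
    Vanishes F (XL L) ↔ F ∈ van0 L := by
  rw [← vanishes_tor hF]
  constructor
  · exact fun h x hx => h x (subset_closure _ hx)
  · exact fun h x hx => hx m F hF h

theorem eval_XL {x : PP n} (hx : x ∈ XL L) {F : MvPolynomial (Fin (n + 1)) ℂ} (hF : F ∈ van0 L) :
    eval x.rep F = 0 := by
  rw [← sum_homogeneousComponent F, map_sum]
  refine Finset.sum_eq_zero fun m _ => ?_
  exact hx m _ (homogeneousComponent_isHomogeneous m F)
    ((vanishes_tor (homogeneousComponent_isHomogeneous m F)).2 (van0_comp hF m))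

theorem tangentSpace_XL (x : PP n) : tangentSpace (XL L) x = ann (Nsp L x.rep) := by
  ext y
  rw [mem_ann]
  constructor
  · rintro h _ ⟨F, hF, rfl⟩
    have h1 : ∀ m, ∑ i, eval x.rep (pderiv i (homogeneousComponent m F)) * y i = 0 := fun m =>
      h m _ (homogeneousComponent_isHomogeneous m F)
        ((vanishes_XL (homogeneousComponent_isHomogeneous m F)).2 (van0_comp hF m))
    have h2 : ∀ i, eval x.rep (pderiv i F) = ∑ m ∈ Finset.range (F.totalDegree + 1),
        eval x.rep (pderiv i (homogeneousComponent m F)) := by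
      intro i
      conv_lhs => rw [← sum_homogeneousComponent F, map_sum, map_sum]
    simp only [gradL_apply, h2, Finset.mul_sum]
    rw [Finset.sum_comm]
    refine Finset.sum_eq_zero fun m _ => ?_
    rw [← h1 m]
    exact Finset.sum_congr rfl fun i _ => mul_comm _ _
  · intro h m F hF hv
    rw [vanishes_XL hF] at hv
    rw [← h _ ⟨F, hv, rfl⟩]
    exact Finset.sum_congr rfl fun i _ => mul_comm _ _

theorem conormal_iff (x : PP n) (u : Fin (n + 1) → ℂ) :
    (∀ y ∈ tangentSpace (XL L) x, ∑ i, u i * y i = 0) ↔ u ∈ Nsp L x.rep := by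
  rw [tangentSpace_XL]
  conv_rhs => rw [← ann_ann (Nsp L x.rep)]
  rw [mem_ann]

theorem mem_Nsp_torus {ω : Fin (n + 1) → ℂ} (hω : ω ∈ L) (h0 : ∀ i, ω i ≠ 0)
    (u : Fin (n + 1) → ℂ) :
    u ∈ Nsp L (fun i => (ω i)⁻¹) ↔ ∃ v ∈ ann L, u = fun i => v i * ω i ^ 2 := by
  constructor
  · rintro ⟨F, hF, rfl⟩
    refine ⟨_, grad_torus hF hω h0, ?_⟩
    funext i
    rw [gradL_apply, mul_assoc, inv_mul_cancel₀ (pow_ne_zero 2 (h0 i)), mul_one]
  · rintro ⟨v, hv, rfl⟩
    obtain ⟨F, hF, h⟩ := grad_exists hv hω h0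
    exact ⟨F, hF, funext h⟩

theorem finrank_Nsp_torus {ω : Fin (n + 1) → ℂ} (hω : ω ∈ L) (h0 : ∀ i, ω i ≠ 0) :
    finrank ℂ (Nsp L (fun i => (ω i)⁻¹)) = finrank ℂ (ann L) := by
  let T : (Fin (n + 1) → ℂ) →ₗ[ℂ] (Fin (n + 1) → ℂ) :=
    LinearMap.pi fun i => (ω i ^ 2) • LinearMap.proj i
  have hT : Function.Injective T := by
    rw [injective_iff_map_eq_zero]
    intro v hv
    funext i
    have h1 := congrFun hv i
    simp only [T, LinearMap.pi_apply, LinearMap.smul_apply, LinearMap.proj_apply, smul_eq_mul,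
      Pi.zero_apply] at h1
    exact (mul_eq_zero.1 h1).resolve_left (pow_ne_zero 2 (h0 i))
  have h1 : Nsp L (fun i => (ω i)⁻¹) = (ann L).map T := by
    ext u
    rw [mem_Nsp_torus hω h0]
    constructor
    · rintro ⟨v, hv, rfl⟩
      refine ⟨v, hv, ?_⟩
      funext i
      simp [T, mul_comm]
    · rintro ⟨v, hv, rfl⟩
      refine ⟨v, hv, ?_⟩
      funext i
      simp [T, mul_comm]
  rw [h1]
  exact ((Submodule.equivMapOfInjective T hT (ann L)).finrank_eq).symm

theorem finrank_Nsp_le {y : PP n} (hy : y ∈ XL L) :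
    finrank ℂ (Nsp L y.rep) ≤ finrank ℂ (ann L) := by
  classical
  let b := Module.finBasis ℂ (Nsp L y.rep)
  have hF : ∀ j, ∃ F ∈ van0 L, gradL y.rep F = b j := fun j => (b j).2
  choose F hF1 hF2 using hF
  have hli : LinearIndependent ℂ (fun j => (b j : Fin (n + 1) → ℂ)) :=
    b.linearIndependent.map' (Nsp L y.rep).subtype (Submodule.ker_subtype _)
  obtain ⟨P, hP⟩ := LinearMap.exists_leftInverse_of_injective
    (Fintype.linearCombination ℂ (fun j => (b j : Fin (n + 1) → ℂ)))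
    (LinearMap.ker_eq_bot.2 (linearIndependent_iff_injective_fintypeLinearCombination.1 hli))
  have hP1 : ∀ j, P (b j) = Pi.single j 1 := by
    intro j
    have := LinearMap.congr_fun hP (Pi.single j 1)
    simpa [Fintype.linearCombination_apply_single] using this
  let M : Matrix (Fin (finrank ℂ (Nsp L y.rep))) (Fin (finrank ℂ (Nsp L y.rep)))
      (MvPolynomial (Fin (n + 1)) ℂ) :=
    fun j l => ∑ i, C (P (Pi.single i 1) l) * pderiv i (F j)
  have hM : ∀ z : Fin (n + 1) → ℂ, eval z M.det = Matrix.det (fun j l => P (gradL z (F j)) l) := by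
    intro z
    rw [RingHom.map_det]
    congr 1
    funext j l
    change eval z (M j l) = _
    simp only [M, map_sum, map_mul, eval_C]
    have h1 : gradL z (F j) = ∑ i, gradL z (F j) i • (Pi.single i (1 : ℂ) : Fin (n + 1) → ℂ) := by
      funext i
      simp [Finset.sum_apply, Pi.single_apply]
    conv_rhs => rw [h1, map_sum, Finset.sum_apply]
    refine Finset.sum_congr rfl fun i _ => ?_
    rw [map_smul, Pi.smul_apply, smul_eq_mul, gradL_apply, mul_comm]
  have h1 : M.det ∉ van0 L := by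
    intro h
    have h2 := eval_XL hy h
    rw [hM] at h2
    have h3 : (fun j l => P (gradL y.rep (F j)) l) =
        (1 : Matrix (Fin (finrank ℂ (Nsp L y.rep))) (Fin (finrank ℂ (Nsp L y.rep))) ℂ) := by
      funext j l
      rw [hF2, hP1, Matrix.one_apply, Pi.single_apply]
      simp only [eq_comm]
    rw [h3, Matrix.det_one] at h2
    exact one_ne_zero h2
  rw [mem_van0] at h1
  push Not at h1
  obtain ⟨ω, hω, h0, h2⟩ := h1
  rw [hM] at h2
  have h3 := Matrix.linearIndependent_rows_of_det_ne_zero h2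
  let z : Fin (n + 1) → ℂ := fun i => (ω i)⁻¹
  have h4 : LinearIndependent ℂ (fun j => gradL z (F j)) := by
    apply LinearIndependent.of_comp P
    exact h3
  have h5 : LinearIndependent ℂ (fun j => (⟨gradL z (F j), F j, hF1 j, rfl⟩ : Nsp L z)) := by
    apply LinearIndependent.of_comp (Nsp L z).subtype
    exact h4
  have h6 := h5.fintype_card_le_finrank
  rw [Fintype.card_fin, finrank_Nsp_torus hω h0] at h6
  exact h6

theorem smooth_tor {x : PP n} (hx : x ∈ tor L) : IsSmoothPoint (XL L) x := by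
  refine ⟨subset_closure _ hx, fun y hy => ?_⟩
  obtain ⟨ω, hω, h0, hxω⟩ := hx
  rw [tangentSpace_XL, tangentSpace_XL]
  have h1 := finrank_ann (Nsp L x.rep)
  have h2 := finrank_ann (Nsp L y.rep)
  have h3 := finrank_Nsp_le hy
  have h4 : finrank ℂ (Nsp L x.rep) = finrank ℂ (ann L) := by
    rw [hxω]
    exact finrank_Nsp_torus hω h0
  omega

theorem eval_kernel {p : MvPolynomial (Fin (n + 1)) ℂ} (hp : aeval (uA L 0) p = 0)
    {ω v : Fin (n + 1) → ℂ} (hω : ω ∈ L) (h1 : ω 0 = 1) (hv : v ∈ ann L) :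
    eval (fun i => v i * ω i ^ 2) p = 0 := by
  have h2 := congrArg (liftA (isPt_k hω h1 hv)) hp
  rw [map_zero, MvPolynomial.comp_aeval_apply (R := ℂ) (f := uA L 0)] at h2
  have h3 : (fun i => (liftA (isPt_k hω h1 hv)) (uA L 0 i)) = fun i => v i * ω i ^ 2 := by
    funext i
    rw [uA, map_mul, map_pow, liftA_t, liftA_v]
  rw [h3] at h2
  exact h2

theorem eval_kernel' {p : MvPolynomial (Fin (n + 1)) ℂ}
    (hp : aeval (uA L 0) p = 0)
    {ω v : Fin (n + 1) → ℂ} (hω : ω ∈ L) (h0 : ω 0 ≠ 0) (hv : v ∈ ann L) :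
    eval (fun i => v i * ω i ^ 2) p = 0 := by
  have h1 := eval_kernel hp (L.smul_mem (ω 0)⁻¹ hω) (by simp [inv_mul_cancel₀ h0])
    ((ann L).smul_mem (ω 0 ^ 2) hv)
  have h2 : (fun i => v i * ω i ^ 2) =
      fun i => (ω 0 ^ 2 • v) i * ((ω 0)⁻¹ • ω) i ^ 2 := by
    funext i
    simp only [Pi.smul_apply, smul_eq_mul]
    field_simp
  rw [h2]
  exact h1

theorem kernel_of_eval (h0 : ∃ ω ∈ L, ω 0 ≠ 0) (ht : ∀ i, tA L 0 i ≠ 0)
    {p : MvPolynomial (Fin (n + 1)) ℂ}
    (h : ∀ ω ∈ L, ω 0 = 1 → (∀ i, ω i ≠ 0) → ∀ v ∈ ann L, eval (fun i => v i * ω i ^ 2) p = 0) :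
    aeval (uA L 0) p = 0 := by
  have hdom : IsDomain (A L 0) := isDomainA L 0 h0
  obtain ⟨φ, ψ, hψ⟩ := exists_retract L 0 h0
  have hφ : Function.Injective φ := by
    intro a b hab
    have := congrArg ψ hab
    rw [← AlgHom.comp_apply, ← AlgHom.comp_apply, hψ] at this
    exact this
  have key : φ (aeval (uA L 0) p * ∏ i, tA L 0 i) = 0 := by
    apply MvPolynomial.funext
    intro z
    rw [map_zero]
    -- the point of `A L 0`
    let e : A L 0 →ₐ[ℂ] ℂ := (aeval z).comp φ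
    have he : ∀ a, eval z (φ a) = e a := fun a => rfl
    have hpt := (isPtA L 0).map e
    have hωL' : (fun i => e (tA L 0 i)) ∈ ann (ann L) := by
      intro c hc
      rw [← hpt.ht c hc]
      exact Finset.sum_congr rfl fun i _ => by rw [smul_eq_mul, mul_comm]
    have hωL : (fun i => e (tA L 0 i)) ∈ L := by rwa [ann_ann] at hωL'
    have hv : (fun i => e (vA L 0 i)) ∈ ann L := by
      intro c hc
      rw [← hpt.hv c hc]
      exact Finset.sum_congr rfl fun i _ => by rw [smul_eq_mul, mul_comm]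
    rw [he, map_mul, map_prod]
    by_cases hz : ∀ i, e (tA L 0 i) ≠ 0
    · have h1 := h _ hωL hpt.he hz _ hv
      have h2 : e (aeval (uA L 0) p) = 0 := by
        rw [MvPolynomial.comp_aeval_apply (R := ℂ) (f := uA L 0)]
        have h3 : (fun i => e (uA L 0 i)) = fun i => e (vA L 0 i) * e (tA L 0 i) ^ 2 := by
          funext i
          rw [uA, map_mul, map_pow]
        rw [h3]
        exact h1
      rw [h2, zero_mul]
    · push Not at hz
      obtain ⟨i, hi⟩ := hz
      rw [Finset.prod_eq_zero (Finset.mem_univ i) hi, mul_zero]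
  rw [map_eq_zero_iff φ hφ] at key
  exact (mul_eq_zero.1 key).resolve_right (Finset.prod_ne_zero_iff.2 fun i _ => ht i)

/-- Every conormal vector at a point of the closure is in the closure of the conormal vectors at
the torus points. -/
theorem eval_conormal {p : MvPolynomial (Fin (n + 1)) ℂ}
    (h : ∀ ω ∈ L, (∀ i, ω i ≠ 0) → ∀ v ∈ ann L, eval (fun i => v i * ω i ^ 2) p = 0)
    {x : PP n} (hx : x ∈ XL L) {u : Fin (n + 1) → ℂ} (hu : u ∈ Nsp L x.rep) :
    eval u p = 0 := by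
  obtain ⟨F, hF, rfl⟩ := hu
  let H : MvPolynomial (Fin (n + 1)) ℂ := aeval (fun i => pderiv i F) p
  have hH : ∀ z : Fin (n + 1) → ℂ, eval z H = eval (gradL z F) p := by
    intro z
    have h1 := MvPolynomial.comp_aeval_apply (R := ℂ) (f := fun i => pderiv i F)
      (aeval (R := ℂ) z) p
    exact h1
  rw [← hH]
  apply eval_XL hx
  intro ω hω h0
  rw [hH]
  obtain ⟨v, hv, h2⟩ := (mem_Nsp_torus hω h0 _).1 ⟨F, hF, rfl⟩
  rw [h2]
  exact h ω hω h0 v hv

theorem dual_eq (h0 : ∃ ω ∈ L, ω 0 ≠ 0) (ht : ∀ i, tA L 0 i ≠ 0)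
    {G : MvPolynomial (Fin (n + 1)) ℂ} {N : ℕ} (hG : G.IsHomogeneous N)
    (hker : ∀ p : MvPolynomial (Fin (n + 1)) ℂ, aeval (uA L 0) p = 0 ↔ G ∣ p) :
    dualVariety (XL L) = {x | eval x.rep G = 0} := by
  have hGt : ∀ ω ∈ L, (∀ i, ω i ≠ 0) → ∀ v ∈ ann L, eval (fun i => v i * ω i ^ 2) G = 0 :=
    fun ω hω h0 v hv => eval_kernel' ((hker G).2 dvd_rfl) hω (h0 0) hv
  ext u
  constructor
  · intro hu
    refine hu N G hG ?_
    rintro w ⟨x, hx, hw⟩
    exact eval_conormal hGt hx.1 ((conormal_iff x w.rep).1 hw)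
  · intro hu m p hp hv
    -- `p` vanishes on all the nonzero torus conormals
    have h1 : ∀ ω ∈ L, (∀ i, ω i ≠ 0) → ∀ v ∈ ann L, (fun i => v i * ω i ^ 2) ≠ 0 →
        eval (fun i => v i * ω i ^ 2) p = 0 := by
      intro ω hω hω0 v hv' hne
      obtain ⟨w, a, ha, hwa⟩ := exists_mk _ hne
      obtain ⟨x, hx, -⟩ := exists_tor hω hω0
      obtain ⟨x, hx, b, hb, hxb⟩ := exists_tor hω hω0
      have h2 : w.rep ∈ Nsp L x.rep := by
        have hxb' : x.rep = fun i => ((b⁻¹ • ω) i)⁻¹ := by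
          rw [hxb]
          funext i
          simp only [Pi.smul_apply, smul_eq_mul, mul_inv, inv_inv]
        rw [hxb', mem_Nsp_torus (L.smul_mem _ hω)
          (fun i => by
            rw [Pi.smul_apply, smul_eq_mul]
            exact mul_ne_zero (inv_ne_zero hb) (hω0 i))]
        refine ⟨(a * b ^ 2) • v, (ann L).smul_mem _ hv', ?_⟩
        rw [hwa]
        funext i
        simp only [Pi.smul_apply, smul_eq_mul]
        field_simp
      have h3 := hv w ⟨x, smooth_tor hx, (conormal_iff x w.rep).2 h2⟩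
      rw [hwa, eval_smul_hom hp] at h3
      exact (mul_eq_zero.1 h3).resolve_left (pow_ne_zero _ ha)
    have h2 : ∀ j, G ∣ X j * p := by
      intro j
      rw [← hker]
      apply kernel_of_eval h0 ht
      intro ω hω _ hω0 v hv'
      rw [map_mul, eval_X]
      by_cases hne : (fun i => v i * ω i ^ 2) = 0
      · have h3 := congrFun hne j
        simp only [Pi.zero_apply] at h3
        rw [h3, zero_mul]
      · rw [h1 ω hω hω0 v hv' hne, mul_zero]
    by_contra hne
    apply u.rep_nonzero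
    funext j
    obtain ⟨q, hq⟩ := h2 j
    have h3 := congrArg (eval u.rep) hq
    rw [map_mul, map_mul, eval_X] at h3
    have hu' : eval u.rep G = 0 := hu
    rw [hu', zero_mul] at h3
    exact (mul_eq_zero.1 h3).resolve_right hne

end Pool.Agent.N140.Rec
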