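import Pool.Agent.N140.Rec.Degree

/-!
# The equation of the hypersurface
-/

set_option autoImplicit false

namespace Pool.Agent.N140.Rec

open MvPolynomial

variable {k : Type} [Field k] {n : ℕ}

theorem aeval_scale {σ B : Type} [Fintype σ] [CommRing B] [Algebra k B] (u : σ → B) {d : ℕ}
    {p : MvPolynomial σ k} (hp : p.IsHomogeneous d) :
    aeval (fun i => (Polynomial.X * Polynomial.C (u i) : Polynomial B)) p =
      Polynomial.X ^ d * Polynomial.C (aeval u p) := by
  rw [aeval_def, aeval_def, eval₂_eq', eval₂_eq', map_sum, Finset.mul_sum]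
  refine Finset.sum_congr rfl fun s hs => ?_
  have h1 : ∏ i, (Polynomial.X * Polynomial.C (u i) : Polynomial B) ^ s i =
      Polynomial.X ^ d * Polynomial.C (∏ i, u i ^ s i) := by
    simp only [mul_pow]
    rw [Finset.prod_mul_distrib, Finset.prod_pow_eq_pow_sum, map_prod]
    have h2 : ∑ i, s i = d := by
      rw [← Finsupp.degree_eq_sum]
      by_contra hne
      exact (mem_support_iff.1 hs) (hp.coeff_eq_zero hne)
    rw [h2]
    simp only [map_pow]
  rw [h1, map_mul]
  have h3 : (algebraMap k (Polynomial B)) (coeff s p) =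
      Polynomial.C (algebraMap k B (coeff s p)) := rfl
  rw [h3]
  ring

theorem kernel_homogeneous (L : Submodule k (Fin (n + 1) → k))
    {p : MvPolynomial (Fin (n + 1)) k} (hp : aeval (uA L 0) p = 0) (d : ℕ) :
    aeval (uA L 0) (homogeneousComponent d p) = 0 := by
  have hpt : IsPt L 0 (fun i => (Polynomial.C (tA L 0 i) : Polynomial (A L 0)))
      (fun i => Polynomial.X * Polynomial.C (vA L 0 i)) := by
    refine ⟨?_, ?_, ?_⟩
    · intro c hc
      have h1 := congrArg (Polynomial.C (R := A L 0)) ((isPtA L 0).ht c hc)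
      rw [map_sum, map_zero] at h1
      rw [← h1]
      refine Finset.sum_congr rfl fun i _ => ?_
      rw [Polynomial.smul_C]
    · rw [(isPtA L 0).he, map_one]
    · intro c hc
      have h1 := congrArg (Polynomial.C (R := A L 0)) ((isPtA L 0).hv c hc)
      rw [map_sum, map_zero] at h1
      rw [← mul_zero Polynomial.X, ← h1, Finset.mul_sum]
      refine Finset.sum_congr rfl fun i _ => ?_
      rw [← Polynomial.smul_C, mul_smul_comm]
  let σ : A L 0 →ₐ[k] Polynomial (A L 0) := liftA hpt
  have hσ : ∀ i, σ (uA L 0 i) = Polynomial.X * Polynomial.C (uA L 0 i) := by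
    intro i
    simp only [uA, σ, map_mul, map_pow]
    rw [liftA_t, liftA_v]
    ring
  have h1 : aeval (fun i => (Polynomial.X * Polynomial.C (uA L 0 i) : Polynomial (A L 0))) p
      = 0 := by
    have h2 := congrArg σ hp
    rw [map_zero] at h2
    rw [← h2, MvPolynomial.comp_aeval_apply (R := k) (f := uA L 0) σ p]
    simp only [hσ]
  conv at h1 => lhs; rw [← sum_homogeneousComponent p, map_sum]
  have h3 := congrArg (fun q => Polynomial.coeff q d) h1
  simp only [Polynomial.finsetSum_coeff, Polynomial.coeff_zero] at h3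
  have h4 : ∀ i, Polynomial.coeff (aeval (fun i => (Polynomial.X * Polynomial.C (uA L 0 i) :
      Polynomial (A L 0))) (homogeneousComponent i p)) d =
      if d = i then aeval (uA L 0) (homogeneousComponent i p) else 0 := by
    intro i
    rw [aeval_scale (uA L 0) (homogeneousComponent_isHomogeneous i p), mul_comm,
      Polynomial.coeff_C_mul, Polynomial.coeff_X_pow, mul_ite, mul_one, mul_zero]
  simp only [h4] at h3
  rw [Finset.sum_ite_eq] at h3
  split_ifs at h3 with h5
  · exact h3
  · rw [homogeneousComponent_eq_zero, map_zero]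
    rw [Finset.mem_range] at h5
    omega

theorem homogeneousComponent_top_ne {σ : Type} {p : MvPolynomial σ k} (hp : p ≠ 0) :
    homogeneousComponent p.totalDegree p ≠ 0 := by
  intro h
  have hs : p.support.Nonempty := by
    rwa [Finset.nonempty_iff_ne_empty, Ne, support_eq_empty]
  obtain ⟨s, hs1, hs2⟩ := Finset.exists_mem_eq_sup p.support hs (fun s => s.sum fun _ e => e)
  have h1 := congrArg (coeff s) h
  rw [coeff_homogeneousComponent, coeff_zero, if_pos] at h1
  · exact (mem_support_iff.1 hs1) h1
  · exact hs2.symm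

theorem aeval_uA (L : Submodule k (Fin (n + 1) → k)) (p : MvPolynomial (Fin (n + 1)) k) :
    aeval (uA L 0) p = Polynomial.aeval (uA L 0 0) (finSuccEquiv k n p) := by
  have h : aeval (uA L 0) = ((Polynomial.aeval (R := MvPolynomial (Fin n) k)
      (uA L 0 0)).restrictScalars k).comp (finSuccEquiv k n).toAlgHom := by
    apply MvPolynomial.algHom_ext
    intro i
    rw [aeval_X]
    refine Fin.cases ?_ (fun j => ?_) i
    · change _ = Polynomial.aeval (uA L 0 0) (finSuccEquiv k n (X 0))
      rw [finSuccEquiv_X_zero, Polynomial.aeval_X]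
    · change _ = Polynomial.aeval (uA L 0 0) (finSuccEquiv k n (X j.succ))
      rw [finSuccEquiv_X_succ, Polynomial.aeval_C, algebraMap_P, phi_X]
  rw [h]
  rfl

/-- The kernel of the map given by the `u i` is generated by a homogeneous irreducible polynomial
of the right degree. -/
theorem exists_eq [CharZero k] {L : Submodule k (Fin (n + 1) → k)}
    (hinj : Function.Injective (phi L)) {N : ℕ}
    (hN : Module.rank (MvPolynomial (Fin n) k) (A L 0) = N) :
    ∃ G : MvPolynomial (Fin (n + 1)) k, Irreducible G ∧ G.IsHomogeneous N ∧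
      ∀ p : MvPolynomial (Fin (n + 1)) k, aeval (uA L 0) p = 0 ↔ G ∣ p := by
  have := nontrivial_of_inj hinj
  have : IsDomain (A L 0) := isDomainA L 0 exists_zero
  let P := MvPolynomial (Fin n) k
  have : FaithfulSMul P (A L 0) := (faithfulSMul_iff_algebraMap_injective P (A L 0)).2 hinj
  have hint := isIntegral_u0 hinj
  let m := minpoly P (uA L 0 0)
  have hm : m.natDegree = N := natDegree_minpoly hinj hN
  have hmonic : m.Monic := minpoly.monic hint
  let G := (finSuccEquiv k n).symm m
  have hGm : finSuccEquiv k n G = m := (finSuccEquiv k n).apply_symm_apply m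
  have hdvd : ∀ p : MvPolynomial (Fin (n + 1)) k, aeval (uA L 0) p = 0 ↔ G ∣ p := by
    intro p
    rw [aeval_uA, minpoly.isIntegrallyClosed_dvd_iff hint, ← map_dvd_iff (finSuccEquiv k n), hGm]
  have hG0 : G ≠ 0 := by
    intro h
    rw [h, map_zero] at hGm
    exact hmonic.ne_zero hGm.symm
  have hker : RingHom.ker (aeval (R := k) (uA L 0)) = Ideal.span {G} := by
    ext p
    rw [RingHom.mem_ker, hdvd, Ideal.mem_span_singleton]
  have hprime : Prime G := by
    rw [← Ideal.span_singleton_prime hG0, ← hker]
    exact RingHom.ker_isPrime _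
  refine ⟨G, hprime.irreducible, ?_, hdvd⟩
  -- homogeneous of its total degree
  have h1 : G.IsHomogeneous G.totalDegree := by
    have h2 : aeval (uA L 0) (homogeneousComponent G.totalDegree G) = 0 :=
      kernel_homogeneous L ((hdvd G).2 dvd_rfl) _
    rw [hdvd] at h2
    obtain ⟨q, hq⟩ := h2
    have h3 := homogeneousComponent_top_ne hG0
    have hq0 : q ≠ 0 := by
      rintro rfl
      rw [mul_zero] at hq
      exact h3 hq
    have h4 := (homogeneousComponent_isHomogeneous G.totalDegree G).totalDegree h3
    rw [hq, totalDegree_mul_of_isDomain hG0 hq0] at h4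
    have h5 : q.totalDegree = 0 := by omega
    obtain ⟨c, hc⟩ : ∃ c, q = C c := ⟨_, totalDegree_eq_zero_iff_eq_C.1 h5⟩
    have hc0 : c ≠ 0 := by
      rintro rfl
      exact hq0 (by rw [hc, C_0])
    have h6 : G = homogeneousComponent G.totalDegree G * C c⁻¹ := by
      rw [hq, hc, mul_assoc, ← C_mul, mul_inv_cancel₀ hc0, C_1, mul_one]
    have h7 := (homogeneousComponent_isHomogeneous G.totalDegree G).mul
      (isHomogeneous_C (Fin (n + 1)) c⁻¹)
    rw [← h6, add_zero] at h7
    exact h7
  have h2 : coeff (Finsupp.cons N (0 : Fin n →₀ ℕ)) G = 1 := by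
    rw [← finSuccEquiv_coeff_coeff, hGm, ← hm, hmonic.coeff_natDegree, coeff_zero_one]
  have h3 : (Finsupp.cons N (0 : Fin n →₀ ℕ)).degree = G.totalDegree := by
    by_contra hne
    rw [h1.coeff_eq_zero hne] at h2
    exact zero_ne_one h2
  rw [Finsupp.degree_eq_sum, Fin.sum_univ_succ] at h3
  simp only [Finsupp.cons_zero, Finsupp.cons_succ, Finsupp.coe_zero, Pi.zero_apply,
    Finset.sum_const_zero, add_zero] at h3
  rw [h3]
  exact h1

end Pool.Agent.N140.Rec
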