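import Pool.Agent.N140.Rec.Basic

/-!
# The level argument

At a valuation ring, the coordinates `t i` with the same value give a point of a linear space over
the residue field, so that the residues of the `v i * t i ^ 2` are algebraically dependent.
-/

set_option autoImplicit false

namespace Pool.Agent.N140.Rec

open MvPolynomial

variable {k : Type} [Field k] {ι : Type} [Fintype ι] {F : Type} [Field F] [Algebra k F]

theorem residue_eq_zero_iff' (V : ValuationSubring F) (x : V) :
    IsLocalRing.residue V x = 0 ↔ V.valuation x < 1 := by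
  rw [IsLocalRing.residue_eq_zero_iff, ValuationSubring.valuation_lt_one_iff]

theorem sum_supp {M : Type} [AddCommMonoid M] [DecidableEq ι] (S : Finset ι) (f : ι → M)
    (hf : ∀ i ∉ S, f i = 0) : ∑ i, f i = ∑ i : S, f i := by
  rw [Finset.sum_coe_sort S f]
  exact (Finset.sum_subset (Finset.subset_univ S) (fun i _ hi => hf i hi)).symm

theorem level {L : Submodule k (ι → k)} {e : ι} {t v : ι → F} (hp : IsPt L e t v)
    (ht0 : ∀ i, t i ≠ 0) (V : ValuationSubring F) (hk : ∀ a : k, algebraMap k F a ∈ V)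
    (hu : ∀ i, v i * t i ^ 2 ∈ V) (S : Finset ι) (j : ι) (hj : j ∈ S)
    (hS1 : ∀ i ∈ S, V.valuation (t i) = V.valuation (t j))
    (hS2 : ∀ i ∉ S, V.valuation (t i) = V.valuation (t j) → V.valuation (v i * t i ^ 2) < 1) :
    ∃ G : MvPolynomial S k, G ≠ 0 ∧
      V.valuation (aeval (fun i : S => v i * t i ^ 2) G) < 1 := by
  classical
  let algV : Algebra k V := ((algebraMap k F).codRestrict V.toSubring hk).toAlgebra
  have algV_coe : ∀ a : k, ((algebraMap k V a : V) : F) = algebraMap k F a := fun a => rfl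
  have hsmul : ∀ (a : k) (x : V), ((a • x : V) : F) = a • (x : F) := by
    intro a x
    rw [Algebra.smul_def, Algebra.smul_def]
    rfl
  have vk : ∀ a : k, a ≠ 0 → V.valuation (algebraMap k F a) = 1 := by
    intro a ha
    have h1 := (V.valuation_le_one_iff _).2 (hk a)
    have h2 := (V.valuation_le_one_iff _).2 (hk a⁻¹)
    rw [map_inv₀, map_inv₀] at h2
    have h0 : algebraMap k F a ≠ 0 := by
      rw [Ne, map_eq_zero]; exact ha
    apply le_antisymm h1
    have hpos : 0 < V.valuation (algebraMap k F a) :=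
      zero_lt_iff.2 ((V.valuation).ne_zero_iff.2 h0)
    rwa [inv_le_one₀ hpos] at h2
  have vk_le : ∀ a : k, V.valuation (algebraMap k F a) ≤ 1 :=
    fun a => (V.valuation_le_one_iff _).2 (hk a)
  set w := V.valuation with hw
  have wt0 : ∀ i, w (t i) ≠ 0 := fun i => (w.ne_zero_iff).2 (ht0 i)
  have wtpos : ∀ i, 0 < w (t i) := fun i => zero_lt_iff.2 (wt0 i)
  have hle : ∀ i, w (v i * t i ^ 2) ≤ 1 := fun i => (V.valuation_le_one_iff _).2 (hu i)
  -- quotients
  have q1 : ∀ i : S, t i / t j ∈ V := by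
    intro i
    rw [← V.valuation_le_one_iff, map_div₀, ← hw, hS1 i i.2, div_self (wt0 j)]
  have q2 : ∀ i : S, t j / t i ∈ V := by
    intro i
    rw [← V.valuation_le_one_iff, map_div₀, ← hw, hS1 i i.2, div_self (wt0 j)]
  let κ := IsLocalRing.ResidueField V
  let r : V →+* κ := IsLocalRing.residue V
  let cb : S → κ := fun i => r ⟨t i / t j, q1 i⟩
  let yb : S → κ := fun i => r ⟨v i * t i ^ 2, hu i⟩ * r ⟨t j / t i, q2 i⟩ ^ 2
  have hr : ∀ (a : k) (x : V), r (a • x) = a • r x := fun a x => rfl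
  let W : Submodule k (S → k) :=
    { carrier := {x | ∃ ω ∈ L, (∀ i, w (t i) < w (t j) → ω i = 0) ∧ ∀ i : S, x i = ω i}
      zero_mem' := ⟨0, L.zero_mem, fun _ _ => rfl, fun _ => rfl⟩
      add_mem' := by
        rintro a b ⟨ω, h1, h2, h3⟩ ⟨ω', h1', h2', h3'⟩
        refine ⟨ω + ω', L.add_mem h1 h1', fun i hi => ?_, fun i => ?_⟩
        · rw [Pi.add_apply, h2 i hi, h2' i hi, add_zero]
        · rw [Pi.add_apply, Pi.add_apply, h3, h3']
      smul_mem' := by
        rintro a b ⟨ω, h1, h2, h3⟩
        refine ⟨a • ω, L.smul_mem a h1, fun i hi => ?_, fun i => ?_⟩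
        · rw [Pi.smul_apply, h2 i hi, smul_zero]
        · rw [Pi.smul_apply, Pi.smul_apply, h3] }
  have hpt : IsPt W ⟨j, hj⟩ cb yb := by
    refine ⟨?_, ?_, ?_⟩
    · intro c hc
      let φ : ι → k := fun i => if h : i ∈ S then c ⟨i, h⟩ else 0
      have hφ0 : ∀ i ∉ S, φ i = 0 := fun i hi => by simp [φ, hi]
      have hφ1 : ∀ i : S, φ i = c i := fun i => by simp [φ]
      obtain ⟨h, hh, hφ⟩ := dual_H L {i | w (t i) < w (t j)} φ (by
        intro ω hω hω0
        have := hc (fun i : S => ω i) ⟨ω, hω, fun i hi => hω0 i hi, fun i => rfl⟩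
        rw [← this, sum_supp S _ (fun i hi => by rw [hφ0 i hi, zero_mul])]
        exact Finset.sum_congr rfl fun i _ => by rw [hφ1])
      have h1 := hp.ht _ hφ
      simp only [Pi.sub_apply, sub_smul, Finset.sum_sub_distrib, sub_eq_zero] at h1
      have h2 : ∑ i : S, c i • (t i / t j) = ∑ i, h i • (t i / t j) := by
        have e1 : ∑ i : S, c i • (t i / t j) = ∑ i, φ i • (t i / t j) := by
          rw [sum_supp S _ (fun i hi => by rw [hφ0 i hi, zero_smul])]
          exact Finset.sum_congr rfl fun i _ => by rw [hφ1]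
        rw [e1]
        have e2 : ∀ g : ι → k, ∑ i, g i • (t i / t j) = (∑ i, g i • t i) / t j := by
          intro g
          rw [Finset.sum_div]
          exact Finset.sum_congr rfl fun i _ => by rw [smul_div_assoc]
        rw [e2, e2, h1]
      have h3 : ∑ i, c i • cb i = r (∑ i : S, c i • ⟨t i / t j, q1 i⟩) := by
        rw [map_sum]
        exact Finset.sum_congr rfl fun i _ => by rw [hr]
      rw [h3]
      refine (residue_eq_zero_iff' V _).2 ?_
      have h4 : ((∑ i : S, c i • (⟨t i / t j, q1 i⟩ : V) : V) : F) = ∑ i : S, c i • (t i / t j) := by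
        rw [AddSubmonoidClass.coe_finsetSum]
        exact Finset.sum_congr rfl fun i _ => by rw [hsmul]
      rw [h4, h2]
      apply Valuation.map_sum_lt _ one_ne_zero
      intro i _
      by_cases hi : w (t i) < w (t j)
      · rw [Algebra.smul_def, map_mul, map_div₀]
        exact mul_lt_one_of_nonneg_of_lt_one_right (vk_le _) zero_le
          ((div_lt_one₀ (wtpos j)).2 hi)
      · rw [hh i hi, zero_smul, map_zero]
        exact zero_lt_one
    · have : (⟨t j / t j, q1 ⟨j, hj⟩⟩ : V) = 1 := Subtype.ext (div_self (ht0 j))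
      show r _ = 1
      rw [this, map_one]
    · rintro x ⟨ω, hω, hω0, hx⟩
      have h3 : ∑ i, x i • yb i =
          r (∑ i : S, x i • (⟨v i * t i ^ 2, hu i⟩ * ⟨t j / t i, q2 i⟩ ^ 2)) := by
        rw [map_sum]
        exact Finset.sum_congr rfl fun i _ => by rw [hr, map_mul, map_pow]
      rw [h3]
      refine (residue_eq_zero_iff' V _).2 ?_
      have h4 : ((∑ i : S, x i • ((⟨v i * t i ^ 2, hu i⟩ : V) * ⟨t j / t i, q2 i⟩ ^ 2) : V) : F) =
          ∑ i ∈ S, ω i • (v i * t i ^ 2 * (t j / t i) ^ 2) := by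
        rw [AddSubmonoidClass.coe_finsetSum, ← Finset.sum_coe_sort S]
        exact Finset.sum_congr rfl fun i _ => by rw [hsmul, hx]; rfl
      have h5 : ∑ i, ω i • (v i * t i ^ 2 * (t j / t i) ^ 2) = 0 := by
        have e1 : ∀ i, ω i • (v i * t i ^ 2 * (t j / t i) ^ 2) = (ω i • v i) * t j ^ 2 := by
          intro i
          have := ht0 i
          rw [smul_mul_assoc]
          congr 1
          field_simp
        simp only [e1, ← Finset.sum_mul, hp.hv ω hω, zero_mul]
      have h6 : ∑ i ∈ S, ω i • (v i * t i ^ 2 * (t j / t i) ^ 2) =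
          - ∑ i ∈ Sᶜ, ω i • (v i * t i ^ 2 * (t j / t i) ^ 2) := by
        rw [← Finset.sum_add_sum_compl S] at h5
        exact eq_neg_of_add_eq_zero_left h5
      rw [h4, h6, Valuation.map_neg]
      apply Valuation.map_sum_lt _ one_ne_zero
      intro i hi
      rw [Finset.mem_compl] at hi
      rcases lt_trichotomy (w (t i)) (w (t j)) with h | h | h
      · rw [hω0 i h, zero_smul, map_zero]
        exact zero_lt_one
      · rw [Algebra.smul_def, map_mul, map_mul, map_pow, map_div₀]
        have h7 : w (t j) / w (t i) = 1 := by rw [h]; exact div_self (wt0 j)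
        rw [← hw, h7, one_pow, mul_one]
        exact mul_lt_one_of_nonneg_of_lt_one_right (vk_le _) zero_le (hS2 i hi h)
      · rw [Algebra.smul_def, map_mul, map_mul, map_pow, map_div₀]
        have h7 : w (t j) / w (t i) < 1 := (div_lt_one₀ (wtpos i)).2 h
        have h8 : (w (t j) / w (t i)) ^ 2 < 1 := pow_lt_one₀ zero_le h7 two_ne_zero
        refine mul_lt_one_of_nonneg_of_lt_one_right (vk_le _) zero_le ?_
        exact mul_lt_one_of_nonneg_of_lt_one_right (hle _) zero_le h8
  obtain ⟨G, hG0, hG⟩ := lemX W ⟨j, hj⟩ cb yb hpt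
  refine ⟨G, hG0, ?_⟩
  have e1 : (fun i : S => yb i * cb i ^ 2) = fun i : S => r ⟨v i * t i ^ 2, hu i⟩ := by
    funext i
    show r _ * r _ ^ 2 * r _ ^ 2 = _
    rw [← map_pow, ← map_pow, ← map_mul, ← map_mul]
    congr 1
    apply Subtype.ext
    show v i * t i ^ 2 * (t j / t i) ^ 2 * (t i / t j) ^ 2 = v i * t i ^ 2
    have := ht0 i
    have := ht0 j
    field_simp
  rw [e1] at hG
  let r' : V →ₐ[k] κ := { r with commutes' := fun a => rfl }
  let s' : V →ₐ[k] F := { V.subtype with commutes' := fun a => rfl }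
  have e2 : aeval (fun i : S => r ⟨v i * t i ^ 2, hu i⟩) G =
      r' (aeval (fun i : S => (⟨v i * t i ^ 2, hu i⟩ : V)) G) :=
    (MvPolynomial.comp_aeval_apply (f := fun i : S => (⟨v i * t i ^ 2, hu i⟩ : V)) r' G).symm
  have e3 : aeval (fun i : S => v i * t i ^ 2) G =
      s' (aeval (fun i : S => (⟨v i * t i ^ 2, hu i⟩ : V)) G) :=
    (MvPolynomial.comp_aeval_apply (f := fun i : S => (⟨v i * t i ^ 2, hu i⟩ : V)) s' G).symm
  rw [e2] at hG
  rw [e3]
  exact (residue_eq_zero_iff' V _).1 hG

end Pool.Agent.N140.Rec
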