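import Pool.Agent.N140.Rec.Geom2

/-!
# The main theorem
-/

set_option autoImplicit false

namespace Pool.Agent.N140.Rec

open MvPolynomial Module

variable {n d : ℕ}

noncomputable def rankOf (ℓ : Fin (n + 1) → Module.Dual ℂ (Fin (d + 1) → ℂ))
    (S : Finset (Fin (n + 1))) : ℕ :=
  finrank ℂ (Submodule.span ℂ (ℓ '' (S : Set (Fin (n + 1)))))

noncomputable def betaInv (ℓ : Fin (n + 1) → Module.Dual ℂ (Fin (d + 1) → ℂ)) : ℤ :=
  (-1) ^ rankOf ℓ Finset.univ * ∑ S : Finset (Fin (n + 1)), (-1) ^ S.card * (rankOf ℓ S : ℤ)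

def IsConn (ℓ : Fin (n + 1) → Module.Dual ℂ (Fin (d + 1) → ℂ)) : Prop :=
  ∀ S : Finset (Fin (n + 1)), S.Nonempty → Sᶜ.Nonempty →
    rankOf ℓ Finset.univ < rankOf ℓ S + rankOf ℓ Sᶜ

def linearSpace (ℓ : Fin (n + 1) → Module.Dual ℂ (Fin (d + 1) → ℂ)) : Set (PP n) :=
  {x | ∃ t : Fin (d + 1) → ℂ, ∀ i, x.rep i = ℓ i t}

def reciprocal (ℓ : Fin (n + 1) → Module.Dual ℂ (Fin (d + 1) → ℂ)) : Set (PP n) :=
  zariskiClosure {y | ∃ x ∈ linearSpace ℓ, (∀ i, x.rep i ≠ 0) ∧
    ∃ c : ℂ, ∀ i, y.rep i = c * (x.rep i)⁻¹}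

variable (ℓ : Fin (n + 1) → Module.Dual ℂ (Fin (d + 1) → ℂ))

noncomputable def LL : Submodule ℂ (Fin (n + 1) → ℂ) := LinearMap.range (LinearMap.pi ℓ)

variable {ℓ}

theorem mem_LL {ω : Fin (n + 1) → ℂ} : ω ∈ LL ℓ ↔ ∃ t, ∀ i, ω i = ℓ i t := by
  constructor
  · rintro ⟨t, rfl⟩
    exact ⟨t, fun i => rfl⟩
  · rintro ⟨t, h⟩
    exact ⟨t, funext fun i => (h i).symm⟩

theorem pi_injective (hspan : Submodule.span ℂ (Set.range ℓ) = ⊤) :
    Function.Injective (LinearMap.pi ℓ) := by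
  rw [injective_iff_map_eq_zero]
  intro t ht
  have h1 : ∀ i, ℓ i t = 0 := fun i => congrFun ht i
  have h2 : ∀ φ : Module.Dual ℂ (Fin (d + 1) → ℂ), φ t = 0 := by
    intro φ
    have hφ : φ ∈ Submodule.span ℂ (Set.range ℓ) := by rw [hspan]; trivial
    induction hφ using Submodule.span_induction with
    | mem x hx =>
      obtain ⟨i, rfl⟩ := hx
      exact h1 i
    | zero => rfl
    | add x y _ _ hx hy => rw [LinearMap.add_apply, hx, hy, add_zero]
    | smul a x _ hx => rw [LinearMap.smul_apply, hx, smul_zero]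
  exact (Module.forall_dual_apply_eq_zero_iff ℂ t).1 h2

theorem finrank_LL (hspan : Submodule.span ℂ (Set.range ℓ) = ⊤) : finrank ℂ (LL ℓ) = d + 1 := by
  rw [LL, LinearMap.finrank_range_of_inj (pi_injective hspan), finrank_pi, Fintype.card_fin]

theorem rk_LL (hspan : Submodule.span ℂ (Set.range ℓ) = ⊤) (S : Finset (Fin (n + 1))) :
    rk (LL ℓ) S = rankOf ℓ S := by
  let W := Submodule.span ℂ (ℓ '' (S : Set (Fin (n + 1))))
  have h1 := Subspace.finrank_add_finrank_dualCoannihilator_eq W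
  rw [finrank_pi, Fintype.card_fin] at h1
  have h2 : van (LL ℓ) S = W.dualCoannihilator.map (LinearMap.pi ℓ) := by
    ext ω
    rw [mem_van, Submodule.mem_map]
    constructor
    · rintro ⟨⟨t, rfl⟩, h⟩
      refine ⟨t, ?_, rfl⟩
      rw [Submodule.mem_dualCoannihilator]
      intro φ hφ
      induction hφ using Submodule.span_induction with
      | mem x hx =>
        obtain ⟨i, hi, rfl⟩ := hx
        exact h i hi
      | zero => rfl
      | add x y _ _ hx hy => rw [LinearMap.add_apply, hx, hy, add_zero]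
      | smul a x _ hx => rw [LinearMap.smul_apply, hx, smul_zero]
    · rintro ⟨t, ht, rfl⟩
      refine ⟨⟨t, rfl⟩, fun i hi => ?_⟩
      rw [Submodule.mem_dualCoannihilator] at ht
      exact ht _ (Submodule.subset_span ⟨i, hi, rfl⟩)
  have h3 : finrank ℂ (van (LL ℓ) S) = finrank ℂ W.dualCoannihilator := by
    rw [h2]
    exact ((Submodule.equivMapOfInjective _ (pi_injective hspan) _).finrank_eq).symm
  have h4 := rk_add (LL ℓ) S
  rw [finrank_LL hspan, h3] at h4
  have h5 : rankOf ℓ S = finrank ℂ W := rfl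
  omega

theorem beta_LL (hspan : Submodule.span ℂ (Set.range ℓ) = ⊤) : beta (LL ℓ) = betaInv ℓ := by
  rw [beta, betaInv, ← rk_LL hspan, rk_univ]
  congr 1
  exact Finset.sum_congr rfl fun S _ => by rw [rk_LL hspan]

theorem conn_LL (hspan : Submodule.span ℂ (Set.range ℓ) = ⊤) (h : IsConn ℓ) : Conn (LL ℓ) := by
  intro S h1 h2
  rw [rk_LL hspan, rk_LL hspan, rk_LL hspan]
  exact h S h1 h2

theorem reciprocal_eq : reciprocal ℓ = XL (LL ℓ) := by
  rw [reciprocal, XL]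
  congr 1
  ext y
  constructor
  · rintro ⟨x, ⟨t, ht⟩, h0, c, hc⟩
    have hc0 : c ≠ 0 := by
      rintro rfl
      apply y.rep_nonzero
      funext i
      rw [hc, zero_mul]
      rfl
    refine ⟨c⁻¹ • x.rep, (LL ℓ).smul_mem _ (mem_LL.2 ⟨t, ht⟩), fun i => ?_, ?_⟩
    · rw [Pi.smul_apply, smul_eq_mul]
      exact mul_ne_zero (inv_ne_zero hc0) (h0 i)
    · funext i
      rw [hc, Pi.smul_apply, smul_eq_mul, mul_inv, inv_inv]
  · rintro ⟨ω, hω, h0, hy⟩
    have hne : ω ≠ 0 := fun h => h0 0 (congrFun h 0)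
    obtain ⟨x, a, ha, hx⟩ := exists_mk ω hne
    refine ⟨x, ?_, fun i => ?_, a, fun i => ?_⟩
    · obtain ⟨t, ht⟩ := mem_LL.1 hω
      refine ⟨a • t, fun i => ?_⟩
      rw [hx, Pi.smul_apply, ht, map_smul]
    · rw [hx, Pi.smul_apply, smul_eq_mul]
      exact mul_ne_zero ha (h0 i)
    · rw [hx, hy, Pi.smul_apply, smul_eq_mul, mul_inv, ← mul_assoc, mul_inv_cancel₀ ha, one_mul]

/-- The main theorem. -/
theorem main (hspan : Submodule.span ℂ (Set.range ℓ) = ⊤) (hconn : IsConn ℓ) :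
    ∃ D : ℕ, (D : ℤ) = 2 ^ d * betaInv ℓ ∧
      IsHypersurfaceOfDegree (dualVariety (reciprocal ℓ)) D := by
  have hC := conn_LL hspan hconn
  have h0 : ∃ ω ∈ LL ℓ, ω 0 ≠ 0 := by
    by_contra hcon
    rcases Nat.eq_zero_or_pos n with rfl | hn
    · push Not at hcon
      have h1 : LL ℓ = ⊥ := by
        rw [eq_bot_iff]
        intro ω hω
        rw [Submodule.mem_bot]
        funext i
        rw [Fin.fin_one_eq_zero i]
        exact hcon ω hω
      have h2 := finrank_LL hspan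
      rw [h1, finrank_bot] at h2
      omega
    · have h5 : ({0}ᶜ : Finset (Fin (n + 1))).Nonempty := by
        refine ⟨Fin.last n, ?_⟩
        rw [Finset.mem_compl, Finset.mem_singleton]
        intro h
        have := congrArg Fin.val h
        simp at this
        omega
      exact hcon (nonloop_of_conn hC h5)
  have hinj := inj_of_conn hC h0
  obtain ⟨N, hN, hN'⟩ := rank_beta n (LL ℓ)
  obtain ⟨G, hG1, hG2, hG3⟩ := exists_eq hinj hN
  refine ⟨N, ?_, G, hG1, hG2, ?_⟩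
  · rw [finrank_LL hspan, beta_LL hspan, pow_succ] at hN'
    linarith
  · rw [reciprocal_eq]
    exact dual_eq h0 (tA_ne_zero_of_inj hinj) hG2 hG3

end Pool.Agent.N140.Rec
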