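import Pool.Agent.N140.Rec.Level

/-!
# The coordinates are integral

At a valuation ring over which the `u i = v i * t i ^ 2` are regular and sufficiently independent,
all `t i` and `v i` are regular.
-/

set_option autoImplicit false

namespace Pool.Agent.N140.Rec

open MvPolynomial

variable {k : Type} [Field k] {ι : Type} [Fintype ι] {F : Type} [Field F] [Algebra k F]

theorem smul_mem_V (V : ValuationSubring F) (hk : ∀ a : k, algebraMap k F a ∈ V) (a : k) {x : F}
    (hx : x ∈ V) : a • x ∈ V := by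
  rw [Algebra.smul_def]
  exact V.mul_mem _ _ (hk a) hx

theorem step0 {L : Submodule k (ι → k)} {e : ι} {t v : ι → F} (hp : IsPt L e t v)
    (V : ValuationSubring F) (hk : ∀ a : k, algebraMap k F a ∈ V)
    (hu : ∀ i, i ≠ e → v i * t i ^ 2 ∈ V) : v e ∈ V := by
  classical
  have vk_le : ∀ a : k, V.valuation (algebraMap k F a) ≤ 1 :=
    fun a => (V.valuation_le_one_iff _).2 (hk a)
  have hω : ∃ ω ∈ L, ω e ≠ 0 ∧ ∀ i, V.valuation (t i) < 1 → ω i = 0 := by
    by_contra hcon
    push Not at hcon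
    obtain ⟨h, hh, hφ⟩ := dual_H L {i | V.valuation (t i) < 1} (Pi.single e 1) (by
      intro ω hω hω0
      simp only [Pi.single_apply, ite_mul, one_mul, zero_mul, Finset.sum_ite_eq',
        Finset.mem_univ, if_true]
      by_contra hne
      obtain ⟨i, hi, hi'⟩ := hcon ω hω hne
      exact hi' (hω0 i hi))
    have h1 := hp.ht _ hφ
    simp only [Pi.sub_apply, sub_smul, Finset.sum_sub_distrib, sub_eq_zero, Pi.single_apply,
      ite_smul, one_smul, zero_smul, Finset.sum_ite_eq', Finset.mem_univ, if_true, hp.he] at h1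
    have h2 : V.valuation (∑ i, h i • t i) < 1 := by
      apply Valuation.map_sum_lt _ one_ne_zero
      intro i _
      by_cases hi : V.valuation (t i) < 1
      · rw [Algebra.smul_def, map_mul]
        exact mul_lt_one_of_nonneg_of_lt_one_right (vk_le _) zero_le hi
      · rw [hh i hi, zero_smul, map_zero]
        exact zero_lt_one
    rw [← h1, map_one] at h2
    exact lt_irrefl _ h2
  obtain ⟨ω, hωL, hωe, hω0⟩ := hω
  have h1 := hp.hv ω hωL
  rw [← Finset.add_sum_erase _ _ (Finset.mem_univ e)] at h1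
  have h2 : ω e • v e ∈ V := by
    rw [eq_neg_of_add_eq_zero_left h1]
    apply V.neg_mem
    apply sum_mem
    intro i hi
    by_cases hi' : V.valuation (t i) < 1
    · rw [hω0 i hi', zero_smul]
      exact V.zero_mem
    · push Not at hi'
      apply smul_mem_V V hk
      have h3 := hu i (Finset.ne_of_mem_erase hi)
      rw [← V.valuation_le_one_iff, map_mul, map_pow] at h3
      rw [← V.valuation_le_one_iff]
      refine le_trans ?_ h3
      exact le_mul_of_one_le_right zero_le (one_le_pow₀ hi')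
  have h3 : v e = (ω e)⁻¹ • (ω e • v e) := by
    rw [smul_smul, inv_mul_cancel₀ hωe, one_smul]
  rw [h3]
  exact smul_mem_V V hk _ h2

theorem allOne {L : Submodule k (ι → k)} {e : ι} {t v : ι → F} (hp : IsPt L e t v)
    (ht0 : ∀ i, t i ≠ 0) (V : ValuationSubring F) (hk : ∀ a : k, algebraMap k F a ∈ V)
    (hu : ∀ i, i ≠ e → v i * t i ^ 2 ∈ V) (Z : Set ι)
    (hZ : ∀ i ∈ Z, V.valuation (v i * t i ^ 2) < 1)
    (hind : ∀ S : Finset ι, (∀ i ∈ S, i ≠ e ∧ i ∉ Z) → ∀ G : MvPolynomial S k, G ≠ 0 →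
      V.valuation (aeval (fun i : S => v i * t i ^ 2) G) = 1) (j : ι) (hj : j ∉ Z) :
    V.valuation (t j) = 1 := by
  classical
  by_contra hne
  have he : v e * t e ^ 2 ∈ V := by
    rw [hp.he, one_pow, mul_one]
    exact step0 hp V hk hu
  let S : Finset ι := Finset.univ.filter fun i => V.valuation (t i) = V.valuation (t j) ∧ i ∉ Z
  have hS : ∀ i, i ∈ S ↔ V.valuation (t i) = V.valuation (t j) ∧ i ∉ Z := by
    intro i
    simp [S]
  obtain ⟨G, hG0, hG⟩ := level hp ht0 V hk (fun i => by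
    by_cases hi : i = e
    · rw [hi]; exact he
    · exact hu i hi) S j ((hS j).2 ⟨rfl, hj⟩) (fun i hi => ((hS i).1 hi).1) (fun i hi hi' => by
      apply hZ
      by_contra hiZ
      exact hi ((hS i).2 ⟨hi', hiZ⟩))
  have h1 := hind S (fun i hi => by
    refine ⟨?_, ((hS i).1 hi).2⟩
    rintro rfl
    have := ((hS i).1 hi).1
    rw [hp.he, map_one] at this
    exact hne this.symm) G hG0
  rw [h1] at hG
  exact lt_irrefl _ hG

theorem tv_mem {L : Submodule k (ι → k)} {e : ι} {t v : ι → F} (hp : IsPt L e t v)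
    (ht0 : ∀ i, t i ≠ 0) (V : ValuationSubring F) (hk : ∀ a : k, algebraMap k F a ∈ V)
    (hu : ∀ i, i ≠ e → v i * t i ^ 2 ∈ V) (g : ι) (hge : g ≠ e)
    (hgc : ∃ c ∈ ann L, c g ≠ 0) (hgl : ∃ ω ∈ L, ω g ≠ 0)
    (hind1 : ∀ S : Finset ι, (∀ i ∈ S, i ≠ e ∧ i ≠ g) → ∀ G : MvPolynomial S k, G ≠ 0 →
      V.valuation (aeval (fun i : S => v i * t i ^ 2) G) = 1)
    (hind2 : V.valuation (v g * t g ^ 2) = 1 →
      ∀ S : Finset ι, (∀ i ∈ S, i ≠ e) → ∀ G : MvPolynomial S k, G ≠ 0 →
      V.valuation (aeval (fun i : S => v i * t i ^ 2) G) = 1) :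
    (∀ i, t i ∈ V) ∧ ∀ i, v i ∈ V := by
  classical
  have h1 : ∀ j, j ≠ g → V.valuation (t j) = 1 := by
    by_cases hg : V.valuation (v g * t g ^ 2) < 1
    · intro j hj
      exact allOne hp ht0 V hk hu {g} (by rintro i rfl; exact hg)
        (fun S hS => hind1 S (fun i hi => ⟨(hS i hi).1, (hS i hi).2⟩)) j hj
    · have hg1 : V.valuation (v g * t g ^ 2) = 1 :=
        le_antisymm ((V.valuation_le_one_iff _).2 (hu g hge)) (not_lt.1 hg)
      intro j _
      exact allOne hp ht0 V hk hu ∅ (by intro i hi; exact absurd hi (Set.notMem_empty i))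
        (fun S hS => hind2 hg1 S (fun i hi => (hS i hi).1)) j (Set.notMem_empty j)
  have h2 : ∀ j, j ≠ g → t j ∈ V := fun j hj => by
    rw [← V.valuation_le_one_iff, h1 j hj]
  have he : v e * t e ^ 2 ∈ V := by
    rw [hp.he, one_pow, mul_one]
    exact step0 hp V hk hu
  have h3 : ∀ j, j ≠ g → v j ∈ V := by
    intro j hj
    have h4 : v j * t j ^ 2 ∈ V := by
      by_cases hje : j = e
      · rw [hje]; exact he
      · exact hu j hje
    rw [← V.valuation_le_one_iff, map_mul, map_pow, h1 j hj, one_pow, mul_one] at h4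
    rwa [← V.valuation_le_one_iff]
  have h5 : t g ∈ V := by
    obtain ⟨c, hc, hcg⟩ := hgc
    have h6 := hp.ht c hc
    rw [← Finset.add_sum_erase _ _ (Finset.mem_univ g)] at h6
    have h7 : c g • t g ∈ V := by
      rw [eq_neg_of_add_eq_zero_left h6]
      apply V.neg_mem
      apply sum_mem
      intro i hi
      exact smul_mem_V V hk _ (h2 i (Finset.ne_of_mem_erase hi))
    have h8 : t g = (c g)⁻¹ • (c g • t g) := by
      rw [smul_smul, inv_mul_cancel₀ hcg, one_smul]
    rw [h8]
    exact smul_mem_V V hk _ h7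
  have h9 : v g ∈ V := by
    obtain ⟨c, hc, hcg⟩ := hgl
    have h6 := hp.hv c hc
    rw [← Finset.add_sum_erase _ _ (Finset.mem_univ g)] at h6
    have h7 : c g • v g ∈ V := by
      rw [eq_neg_of_add_eq_zero_left h6]
      apply V.neg_mem
      apply sum_mem
      intro i hi
      exact smul_mem_V V hk _ (h3 i (Finset.ne_of_mem_erase hi))
    have h8 : v g = (c g)⁻¹ • (c g • v g) := by
      rw [smul_smul, inv_mul_cancel₀ hcg, one_smul]
    rw [h8]
    exact smul_mem_V V hk _ h7
  refine ⟨fun i => ?_, fun i => ?_⟩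
  · by_cases hi : i = g
    · rw [hi]; exact h5
    · exact h2 i hi
  · by_cases hi : i = g
    · rw [hi]; exact h9
    · exact h3 i hi

end Pool.Agent.N140.Rec
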