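import Pool.Agent.N140.Rec.RingA

/-!
# Deletion and contraction of the last element
-/

set_option autoImplicit false

namespace Pool.Agent.N140.Rec

open MvPolynomial

variable {k : Type} [Field k] {n : ℕ}

/-- forget the last coordinate -/
def restr (k : Type) [Field k] (n : ℕ) : (Fin (n + 1) → k) →ₗ[k] (Fin n → k) :=
  LinearMap.funLeft k k Fin.castSucc

@[simp] theorem restr_apply (x : Fin (n + 1) → k) (i : Fin n) : restr k n x i = x i.castSucc := rfl

/-- deletion -/
def del (L : Submodule k (Fin (n + 1) → k)) : Submodule k (Fin n → k) := L.map (restr k n)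

/-- contraction -/
def con (L : Submodule k (Fin (n + 1) → k)) : Submodule k (Fin n → k) :=
  (L ⊓ LinearMap.ker (LinearMap.proj (R := k) (φ := fun _ : Fin (n + 1) => k)
    (Fin.last n))).map (restr k n)

theorem mem_del {L : Submodule k (Fin (n + 1) → k)} {x : Fin n → k} :
    x ∈ del L ↔ ∃ ω ∈ L, ∀ i : Fin n, ω i.castSucc = x i := by
  constructor
  · rintro ⟨ω, hω, rfl⟩
    exact ⟨ω, hω, fun i => rfl⟩
  · rintro ⟨ω, hω, h⟩
    exact ⟨ω, hω, funext h⟩

theorem mem_con {L : Submodule k (Fin (n + 1) → k)} {x : Fin n → k} :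
    x ∈ con L ↔ ∃ ω ∈ L, ω (Fin.last n) = 0 ∧ ∀ i : Fin n, ω i.castSucc = x i := by
  constructor
  · rintro ⟨ω, hω, rfl⟩
    exact ⟨ω, hω.1, hω.2, fun i => rfl⟩
  · rintro ⟨ω, hω, h0, h⟩
    exact ⟨ω, ⟨hω, h0⟩, funext h⟩

theorem snoc_mem_ann_del {L : Submodule k (Fin (n + 1) → k)} {c : Fin n → k} (hc : c ∈ ann (del L)) :
    (Fin.snoc c 0 : Fin (n + 1) → k) ∈ ann L := by
  intro ω hω
  rw [Fin.sum_univ_castSucc]
  simp only [Fin.snoc_castSucc, Fin.snoc_last, zero_mul, add_zero]
  exact hc (fun i => ω i.castSucc) (mem_del.2 ⟨ω, hω, fun i => rfl⟩)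

theorem mem_ann_del {L : Submodule k (Fin (n + 1) → k)} {c : Fin (n + 1) → k} (hc : c ∈ ann L)
    (h0 : c (Fin.last n) = 0) : (fun i : Fin n => c i.castSucc) ∈ ann (del L) := by
  intro x hx
  obtain ⟨ω, hω, h⟩ := mem_del.1 hx
  have := hc ω hω
  rw [Fin.sum_univ_castSucc, h0, zero_mul, add_zero] at this
  rw [← this]
  exact Finset.sum_congr rfl fun i _ => by rw [h]

theorem exists_ann_con {L : Submodule k (Fin (n + 1) → k)} {c : Fin n → k} (hc : c ∈ ann (con L)) :
    ∃ c' ∈ ann L, ∀ i : Fin n, c' i.castSucc = c i := by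
  obtain ⟨h, hh, hφ⟩ := dual_H L {Fin.last n} (Fin.snoc c 0 : Fin (n + 1) → k) (by
    intro ω hω hω0
    rw [Fin.sum_univ_castSucc]
    simp only [Fin.snoc_castSucc, Fin.snoc_last, zero_mul, add_zero]
    exact hc (fun i => ω i.castSucc) (mem_con.2 ⟨ω, hω, hω0 _ rfl, fun i => rfl⟩))
  refine ⟨_, hφ, fun i => ?_⟩
  have : h i.castSucc = 0 := hh _ (by
    rw [Set.mem_singleton_iff]
    exact Fin.castSucc_ne_last i)
  simp [this]

theorem mem_ann_con {L : Submodule k (Fin (n + 1) → k)} {c : Fin (n + 1) → k} (hc : c ∈ ann L) :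
    (fun i : Fin n => c i.castSucc) ∈ ann (con L) := by
  intro x hx
  obtain ⟨ω, hω, h0, h⟩ := mem_con.1 hx
  have := hc ω hω
  rw [Fin.sum_univ_castSucc, h0, mul_zero, add_zero] at this
  rw [← this]
  exact Finset.sum_congr rfl fun i _ => by rw [h]

variable {L : Submodule k (Fin (n + 2) → k)}

/-- The points of the deletion give points of `L`. -/
theorem isPt_of_del {c : Fin (n + 2) → k} (hc : c ∈ ann L) (hcg : c (Fin.last (n + 1)) ≠ 0)
    {R : Type} [CommRing R] [Algebra k R] {t v : Fin (n + 1) → R} (h : IsPt (del L) 0 t v) :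
    IsPt L 0 (Fin.snoc t (-∑ i : Fin (n + 1), (c i.castSucc / c (Fin.last (n + 1))) • t i) :
      Fin (n + 2) → R) (Fin.snoc v 0 : Fin (n + 2) → R) where
  ht c' hc' := by
    rw [Fin.sum_univ_castSucc]
    simp only [Fin.snoc_castSucc, Fin.snoc_last]
    have h1 : c' - (c' (Fin.last (n + 1)) / c (Fin.last (n + 1))) • c ∈ ann L :=
      (ann L).sub_mem hc' ((ann L).smul_mem _ hc)
    have h2 := h.ht _ (mem_ann_del h1 (by simp [div_mul_cancel₀ _ hcg]))
    simp only [Pi.sub_apply, Pi.smul_apply, sub_smul, Finset.sum_sub_distrib, sub_eq_zero] at h2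
    rw [h2, smul_neg, Finset.smul_sum, add_neg_eq_zero]
    apply Finset.sum_congr rfl
    intro i _
    rw [smul_smul]
    congr 1
    rw [smul_eq_mul]
    ring
  he := by
    have : (0 : Fin (n + 2)) = Fin.castSucc 0 := rfl
    rw [this, Fin.snoc_castSucc]
    exact h.he
  hv ω hω := by
    rw [Fin.sum_univ_castSucc]
    simp only [Fin.snoc_castSucc, Fin.snoc_last, smul_zero, add_zero]
    exact h.hv (fun i => ω i.castSucc) (mem_del.2 ⟨ω, hω, fun i => rfl⟩)

/-- The points of `L` with `v = 0` at the last element give points of the deletion. -/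
theorem isPt_del {R : Type} [CommRing R] [Algebra k R] {t v : Fin (n + 2) → R} (h : IsPt L 0 t v)
    (hv : v (Fin.last (n + 1)) = 0) :
    IsPt (del L) 0 (fun i => t i.castSucc) (fun i => v i.castSucc) where
  ht c hc := by
    have := h.ht _ (snoc_mem_ann_del hc)
    rw [Fin.sum_univ_castSucc] at this
    simpa using this
  he := h.he
  hv x hx := by
    obtain ⟨ω, hω, hx'⟩ := mem_del.1 hx
    have := h.hv _ hω
    rw [Fin.sum_univ_castSucc, hv, smul_zero, add_zero] at this
    rw [← this]
    exact Finset.sum_congr rfl fun i _ => by rw [hx']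

/-- The points of the contraction give points of `L`. -/
theorem isPt_of_con {ω : Fin (n + 2) → k} (hω : ω ∈ L) (hωg : ω (Fin.last (n + 1)) ≠ 0)
    {R : Type} [CommRing R] [Algebra k R] {t v : Fin (n + 1) → R} (h : IsPt (con L) 0 t v) :
    IsPt L 0 (Fin.snoc t 0 : Fin (n + 2) → R)
      (Fin.snoc v (-∑ i : Fin (n + 1), (ω i.castSucc / ω (Fin.last (n + 1))) • v i) :
        Fin (n + 2) → R) where
  ht c hc := by
    rw [Fin.sum_univ_castSucc]
    simp only [Fin.snoc_castSucc, Fin.snoc_last, smul_zero, add_zero]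
    exact h.ht _ (mem_ann_con hc)
  he := by
    have : (0 : Fin (n + 2)) = Fin.castSucc 0 := rfl
    rw [this, Fin.snoc_castSucc]
    exact h.he
  hv ω' hω' := by
    rw [Fin.sum_univ_castSucc]
    simp only [Fin.snoc_castSucc, Fin.snoc_last]
    have h1 : ω' - (ω' (Fin.last (n + 1)) / ω (Fin.last (n + 1))) • ω ∈ L :=
      L.sub_mem hω' (L.smul_mem _ hω)
    have h2 := h.hv (fun i => (ω' - (ω' (Fin.last (n + 1)) / ω (Fin.last (n + 1))) • ω) i.castSucc)
      (mem_con.2 ⟨_, h1, by simp [div_mul_cancel₀ _ hωg], fun i => rfl⟩)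
    simp only [Pi.sub_apply, Pi.smul_apply, sub_smul, Finset.sum_sub_distrib, sub_eq_zero] at h2
    rw [h2, smul_neg, Finset.smul_sum, add_neg_eq_zero]
    apply Finset.sum_congr rfl
    intro i _
    rw [smul_smul]
    congr 1
    rw [smul_eq_mul]
    ring

/-- The points of `L` with `t = 0` at the last element give points of the contraction. -/
theorem isPt_con {R : Type} [CommRing R] [Algebra k R] {t v : Fin (n + 2) → R} (h : IsPt L 0 t v)
    (ht : t (Fin.last (n + 1)) = 0) :
    IsPt (con L) 0 (fun i => t i.castSucc) (fun i => v i.castSucc) where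
  ht c hc := by
    obtain ⟨c', hc', hcc⟩ := exists_ann_con hc
    have := h.ht _ hc'
    rw [Fin.sum_univ_castSucc, ht, smul_zero, add_zero] at this
    rw [← this]
    exact Finset.sum_congr rfl fun i _ => by rw [hcc]
  he := h.he
  hv x hx := by
    obtain ⟨ω, hω, h0, hx'⟩ := mem_con.1 hx
    have := h.hv _ hω
    rw [Fin.sum_univ_castSucc, h0, zero_smul, add_zero] at this
    rw [← this]
    exact Finset.sum_congr rfl fun i _ => by rw [hx']

/-- The coordinate ring of the deletion is the quotient by `v`. -/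
theorem exists_del (hc : ∃ c ∈ ann L, c (Fin.last (n + 1)) ≠ 0) :
    ∃ α : A L 0 →ₐ[k] A (del L) 0, Function.Surjective α ∧
      (∀ x, α x = 0 ↔ x ∈ Ideal.span {vA L 0 (Fin.last (n + 1))}) ∧
      (∀ i : Fin (n + 1), α (tA L 0 i.castSucc) = tA (del L) 0 i) ∧
      (∀ i : Fin (n + 1), α (vA L 0 i.castSucc) = vA (del L) 0 i) := by
  obtain ⟨c, hc, hcg⟩ := hc
  let α : A L 0 →ₐ[k] A (del L) 0 := liftA (isPt_of_del hc hcg (isPtA (del L) 0))
  have ht : ∀ i : Fin (n + 1), α (tA L 0 i.castSucc) = tA (del L) 0 i := fun i => by simp [α]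
  have hv : ∀ i : Fin (n + 1), α (vA L 0 i.castSucc) = vA (del L) 0 i := fun i => by simp [α]
  have hvg : α (vA L 0 (Fin.last (n + 1))) = 0 := by simp [α]
  have htg : α (tA L 0 (Fin.last (n + 1))) =
      -∑ i : Fin (n + 1), (c i.castSucc / c (Fin.last (n + 1))) • tA (del L) 0 i := by simp [α]
  refine ⟨α, ?_, ?_, ht, hv⟩
  · rw [← AlgHom.range_eq_top, eq_top_iff, ← adjoin_A, Algebra.adjoin_le_iff]
    rintro x (⟨i, rfl⟩ | ⟨i, rfl⟩)
    · exact ⟨_, ht i⟩
    · exact ⟨_, hv i⟩
  · intro x
    constructor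
    · intro hx
      let mk : A L 0 →ₐ[k] (A L 0 ⧸ Ideal.span {vA L 0 (Fin.last (n + 1))}) :=
        Ideal.Quotient.mkₐ k _
      have hmk0 : mk (vA L 0 (Fin.last (n + 1))) = 0 :=
        Ideal.Quotient.eq_zero_iff_mem.2 (Ideal.mem_span_singleton_self _)
      have hpt := isPt_del ((isPtA L 0).map mk) hmk0
      let β : A (del L) 0 →ₐ[k] _ := liftA hpt
      have hβ : β.comp α = mk := by
        apply hom_ext
        · intro i
          refine Fin.lastCases ?_ (fun i => ?_) i
          · rw [AlgHom.comp_apply, htg]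
            simp only [β, map_neg, map_sum, map_smul, liftA_t]
            have h1 := ((isPtA L 0).map mk).ht c hc
            rw [Fin.sum_univ_castSucc] at h1
            have h2 : mk (tA L 0 (Fin.last (n + 1))) = (c (Fin.last (n + 1)))⁻¹ •
                (c (Fin.last (n + 1)) • mk (tA L 0 (Fin.last (n + 1)))) := by
              rw [smul_smul, inv_mul_cancel₀ hcg, one_smul]
            rw [h2, eq_neg_of_add_eq_zero_right h1, smul_neg, Finset.smul_sum]
            congr 1
            apply Finset.sum_congr rfl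
            intro i _
            rw [smul_smul]
            congr 1
            ring
          · rw [AlgHom.comp_apply, ht]
            simp [β]
        · intro i
          refine Fin.lastCases ?_ (fun i => ?_) i
          · rw [AlgHom.comp_apply, hvg, map_zero, hmk0]
          · rw [AlgHom.comp_apply, hv]
            simp [β]
      have h1 : mk x = 0 := by rw [← hβ, AlgHom.comp_apply, hx, map_zero]
      exact Ideal.Quotient.eq_zero_iff_mem.1 h1
    · intro hx
      obtain ⟨y, rfl⟩ := Ideal.mem_span_singleton'.1 hx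
      rw [map_mul, hvg, mul_zero]

/-- The coordinate ring of the contraction is the quotient by `t`. -/
theorem exists_con (hω : ∃ ω ∈ L, ω (Fin.last (n + 1)) ≠ 0) :
    ∃ α : A L 0 →ₐ[k] A (con L) 0, Function.Surjective α ∧
      (∀ x, α x = 0 ↔ x ∈ Ideal.span {tA L 0 (Fin.last (n + 1))}) ∧
      (∀ i : Fin (n + 1), α (tA L 0 i.castSucc) = tA (con L) 0 i) ∧
      (∀ i : Fin (n + 1), α (vA L 0 i.castSucc) = vA (con L) 0 i) := by
  obtain ⟨c, hc, hcg⟩ := hω
  let α : A L 0 →ₐ[k] A (con L) 0 := liftA (isPt_of_con hc hcg (isPtA (con L) 0))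
  have ht : ∀ i : Fin (n + 1), α (tA L 0 i.castSucc) = tA (con L) 0 i := fun i => by simp [α]
  have hv : ∀ i : Fin (n + 1), α (vA L 0 i.castSucc) = vA (con L) 0 i := fun i => by simp [α]
  have htg : α (tA L 0 (Fin.last (n + 1))) = 0 := by simp [α]
  have hvg : α (vA L 0 (Fin.last (n + 1))) =
      -∑ i : Fin (n + 1), (c i.castSucc / c (Fin.last (n + 1))) • vA (con L) 0 i := by simp [α]
  refine ⟨α, ?_, ?_, ht, hv⟩
  · rw [← AlgHom.range_eq_top, eq_top_iff, ← adjoin_A, Algebra.adjoin_le_iff]
    rintro x (⟨i, rfl⟩ | ⟨i, rfl⟩)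
    · exact ⟨_, ht i⟩
    · exact ⟨_, hv i⟩
  · intro x
    constructor
    · intro hx
      let mk : A L 0 →ₐ[k] (A L 0 ⧸ Ideal.span {tA L 0 (Fin.last (n + 1))}) :=
        Ideal.Quotient.mkₐ k _
      have hmk0 : mk (tA L 0 (Fin.last (n + 1))) = 0 :=
        Ideal.Quotient.eq_zero_iff_mem.2 (Ideal.mem_span_singleton_self _)
      have hpt := isPt_con ((isPtA L 0).map mk) hmk0
      let β : A (con L) 0 →ₐ[k] _ := liftA hpt
      have hβ : β.comp α = mk := by
        apply hom_ext
        · intro i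
          refine Fin.lastCases ?_ (fun i => ?_) i
          · rw [AlgHom.comp_apply, htg, map_zero, hmk0]
          · rw [AlgHom.comp_apply, ht]
            simp [β]
        · intro i
          refine Fin.lastCases ?_ (fun i => ?_) i
          · rw [AlgHom.comp_apply, hvg]
            simp only [β, map_neg, map_sum, map_smul, liftA_v]
            have h1 := ((isPtA L 0).map mk).hv c hc
            rw [Fin.sum_univ_castSucc] at h1
            have h2 : mk (vA L 0 (Fin.last (n + 1))) = (c (Fin.last (n + 1)))⁻¹ •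
                (c (Fin.last (n + 1)) • mk (vA L 0 (Fin.last (n + 1)))) := by
              rw [smul_smul, inv_mul_cancel₀ hcg, one_smul]
            rw [h2, eq_neg_of_add_eq_zero_right h1, smul_neg, Finset.smul_sum]
            congr 1
            apply Finset.sum_congr rfl
            intro i _
            rw [smul_smul]
            congr 1
            ring
          · rw [AlgHom.comp_apply, hv]
            simp [β]
      have h1 : mk x = 0 := by rw [← hβ, AlgHom.comp_apply, hx, map_zero]
      exact Ideal.Quotient.eq_zero_iff_mem.1 h1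
    · intro hx
      obtain ⟨y, rfl⟩ := Ideal.mem_span_singleton'.1 hx
      rw [map_mul, htg, mul_zero]

end Pool.Agent.N140.Rec
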