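import Mathlib

/-!
# Ranks of modules over domains
-/

set_option autoImplicit false

namespace Pool.Agent.N140.Rec

theorem rank_eq_zero_of_torsion {P M : Type} [CommRing P] [IsDomain P] [AddCommGroup M]
    [Module P M] (ht : ∀ x : M, ∃ s : P, s ≠ 0 ∧ s • x = 0) : Module.rank P M = 0 := by
  rw [rank_eq_zero_iff]
  exact ht

theorem rank_eq_of_torsion {P M : Type} [CommRing P] [IsDomain P] [AddCommGroup M]
    [Module P M] {N : ℕ} (a : Fin N → M) (hli : LinearIndependent P a)
    (ht : ∀ x : M, ∃ s : P, s ≠ 0 ∧ s • x ∈ Submodule.span P (Set.range a)) :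
    Module.rank P M = N := by
  rw [← Submodule.rank_quotient_add_rank (Submodule.span P (Set.range a))]
  have h1 : Module.rank P (M ⧸ Submodule.span P (Set.range a)) = 0 := by
    apply rank_eq_zero_of_torsion
    intro x
    obtain ⟨y, rfl⟩ := Submodule.Quotient.mk_surjective _ x
    obtain ⟨s, hs, hsy⟩ := ht y
    exact ⟨s, hs, by rwa [← Submodule.Quotient.mk_smul, Submodule.Quotient.mk_eq_zero]⟩
  rw [h1, rank_span hli, zero_add, Cardinal.mk_range_eq _ hli.injective, Cardinal.mk_fin]

/-- additivity of the rank for quotients of domains by products -/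
theorem rank_quot_mul {P R : Type} [CommRing P] [IsDomain P] [CommRing R] [IsDomain R]
    [Algebra P R] (a b : R) (ha : a ≠ 0) :
    Module.rank P (R ⧸ Ideal.span {a * b}) =
      Module.rank P (R ⧸ Ideal.span {a}) + Module.rank P (R ⧸ Ideal.span {b}) := by
  have hle : Ideal.span {a * b} ≤ Ideal.span {a} := by
    rw [Ideal.span_singleton_le_span_singleton]
    exact dvd_mul_right a b
  let f : (R ⧸ Ideal.span {a * b}) →ₗ[P] (R ⧸ Ideal.span {a}) :=
    (Ideal.Quotient.factorₐ P hle).toLinearMap
  have hf : Function.Surjective f := Ideal.Quotient.factor_surjective hle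
  let mulA : R →ₗ[P] R := LinearMap.mulLeft P a
  let g : (R ⧸ Ideal.span {b}) →ₗ[P] (R ⧸ Ideal.span {a * b}) :=
    Submodule.liftQ (Submodule.restrictScalars P (Ideal.span {b}))
      ((Ideal.Quotient.mkₐ P (Ideal.span {a * b})).toLinearMap.comp mulA) (by
        intro x hx
        obtain ⟨y, rfl⟩ := Ideal.mem_span_singleton'.1 hx
        rw [LinearMap.mem_ker]
        show Ideal.Quotient.mk _ (a * (y * b)) = 0
        rw [Ideal.Quotient.eq_zero_iff_mem, Ideal.mem_span_singleton]
        exact ⟨y, by ring⟩)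
  have hg : ∀ x : R, g (Ideal.Quotient.mk _ x) = Ideal.Quotient.mk _ (a * x) := fun x => rfl
  have hginj : Function.Injective g := by
    rw [injective_iff_map_eq_zero]
    intro x hx
    obtain ⟨y, rfl⟩ := Ideal.Quotient.mk_surjective x
    rw [hg, Ideal.Quotient.eq_zero_iff_mem, Ideal.mem_span_singleton] at hx
    rw [Ideal.Quotient.eq_zero_iff_mem, Ideal.mem_span_singleton]
    obtain ⟨z, hz⟩ := hx
    refine ⟨z, mul_left_cancel₀ ha ?_⟩
    rw [hz]; ring
  have hker : LinearMap.ker f = LinearMap.range g := by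
    ext x
    obtain ⟨y, rfl⟩ := Ideal.Quotient.mk_surjective x
    rw [LinearMap.mem_ker, LinearMap.mem_range]
    constructor
    · intro hx
      have hx' : Ideal.Quotient.mk (Ideal.span {a}) y = 0 := hx
      rw [Ideal.Quotient.eq_zero_iff_mem, Ideal.mem_span_singleton] at hx'
      obtain ⟨z, rfl⟩ := hx'
      exact ⟨Ideal.Quotient.mk _ z, rfl⟩
    · rintro ⟨z, hz⟩
      obtain ⟨z', rfl⟩ := Ideal.Quotient.mk_surjective z
      rw [hg] at hz
      rw [← hz]
      show Ideal.Quotient.mk (Ideal.span {a}) (a * z') = 0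
      rw [Ideal.Quotient.eq_zero_iff_mem, Ideal.mem_span_singleton]
      exact dvd_mul_right a z'
  have h1 := LinearMap.rank_range_add_rank_ker f
  rw [hker, LinearMap.range_eq_top.2 hf, rank_top] at h1
  rw [← h1]
  congr 1
  exact (LinearEquiv.ofInjective g hginj).rank_eq.symm

end Pool.Agent.N140.Rec
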