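import Pool.Agent.N140.Rec.Basic

/-!
# The coordinate ring of the points `(t, v)`, `t ∈ L`, `t e = 1`, `v ∈ ann L`
-/

set_option autoImplicit false

namespace Pool.Agent.N140.Rec

open MvPolynomial

variable {k : Type} [Field k] {ι : Type} [Fintype ι]

/-- the ideal of the relations -/
noncomputable def relIdeal (L : Submodule k (ι → k)) (e : ι) : Ideal (MvPolynomial (ι ⊕ ι) k) :=
  Ideal.span ({p | ∃ c ∈ ann L, p = ∑ i, c i • X (Sum.inl i)} ∪ {X (Sum.inl e) - 1} ∪
    {p | ∃ ω ∈ L, p = ∑ i, ω i • X (Sum.inr i)})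

/-- the coordinate ring -/
def A (L : Submodule k (ι → k)) (e : ι) : Type := MvPolynomial (ι ⊕ ι) k ⧸ relIdeal L e

noncomputable instance (L : Submodule k (ι → k)) (e : ι) : CommRing (A L e) :=
  inferInstanceAs (CommRing (MvPolynomial (ι ⊕ ι) k ⧸ relIdeal L e))

noncomputable instance (L : Submodule k (ι → k)) (e : ι) : Algebra k (A L e) :=
  inferInstanceAs (Algebra k (MvPolynomial (ι ⊕ ι) k ⧸ relIdeal L e))

/-- the quotient map -/
noncomputable def mkA (L : Submodule k (ι → k)) (e : ι) : MvPolynomial (ι ⊕ ι) k →ₐ[k] A L e :=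
  Ideal.Quotient.mkₐ k (relIdeal L e)

theorem mkA_surjective (L : Submodule k (ι → k)) (e : ι) : Function.Surjective (mkA L e) :=
  Ideal.Quotient.mkₐ_surjective k (relIdeal L e)

theorem mkA_eq_zero {L : Submodule k (ι → k)} {e : ι} {p : MvPolynomial (ι ⊕ ι) k}
    (h : p ∈ relIdeal L e) : mkA L e p = 0 := Ideal.Quotient.eq_zero_iff_mem.2 h

noncomputable def tA (L : Submodule k (ι → k)) (e : ι) (i : ι) : A L e := mkA L e (X (Sum.inl i))

noncomputable def vA (L : Submodule k (ι → k)) (e : ι) (i : ι) : A L e := mkA L e (X (Sum.inr i))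

theorem isPtA (L : Submodule k (ι → k)) (e : ι) : IsPt L e (tA L e) (vA L e) where
  ht c hc := by
    have : mkA L e (∑ i, c i • X (Sum.inl i)) = 0 :=
      mkA_eq_zero (Ideal.subset_span (Or.inl (Or.inl ⟨c, hc, rfl⟩)))
    simpa [tA] using this
  he := by
    have : mkA L e (X (Sum.inl e) - 1) = 0 :=
      mkA_eq_zero (Ideal.subset_span (Or.inl (Or.inr rfl)))
    rw [map_sub, map_one, sub_eq_zero] at this
    exact this
  hv c hc := by
    have : mkA L e (∑ i, c i • X (Sum.inr i)) = 0 :=
      mkA_eq_zero (Ideal.subset_span (Or.inr ⟨c, hc, rfl⟩))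
    simpa [vA] using this

/-- the universal property -/
noncomputable def liftA {L : Submodule k (ι → k)} {e : ι} {R : Type} [CommRing R] [Algebra k R]
    {t v : ι → R} (h : IsPt L e t v) : A L e →ₐ[k] R :=
  Ideal.Quotient.liftₐ (relIdeal L e) (aeval (Sum.elim t v)) (by
    intro a ha
    have : relIdeal L e ≤ RingHom.ker (aeval (Sum.elim t v) : MvPolynomial (ι ⊕ ι) k →ₐ[k] R) := by
      rw [relIdeal, Ideal.span_le]
      rintro p ((⟨c, hc, rfl⟩ | hp) | ⟨c, hc, rfl⟩)
      · show aeval (Sum.elim t v) _ = 0
        simpa using h.ht c hc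
      · rw [Set.mem_singleton_iff] at hp
        subst hp
        show aeval (Sum.elim t v) _ = 0
        simp [h.he]
      · show aeval (Sum.elim t v) _ = 0
        simpa using h.hv c hc
    exact this ha)

theorem liftA_mk {L : Submodule k (ι → k)} {e : ι} {R : Type} [CommRing R] [Algebra k R]
    {t v : ι → R} (h : IsPt L e t v) (p : MvPolynomial (ι ⊕ ι) k) :
    liftA h (mkA L e p) = aeval (Sum.elim t v) p := rfl

@[simp] theorem liftA_t {L : Submodule k (ι → k)} {e : ι} {R : Type} [CommRing R] [Algebra k R]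
    {t v : ι → R} (h : IsPt L e t v) (i : ι) : liftA h (tA L e i) = t i := by
  rw [tA, liftA_mk, aeval_X, Sum.elim_inl]

@[simp] theorem liftA_v {L : Submodule k (ι → k)} {e : ι} {R : Type} [CommRing R] [Algebra k R]
    {t v : ι → R} (h : IsPt L e t v) (i : ι) : liftA h (vA L e i) = v i := by
  rw [vA, liftA_mk, aeval_X, Sum.elim_inr]

theorem hom_ext {L : Submodule k (ι → k)} {e : ι} {R : Type} [CommRing R] [Algebra k R]
    {f g : A L e →ₐ[k] R} (ht : ∀ i, f (tA L e i) = g (tA L e i))
    (hv : ∀ i, f (vA L e i) = g (vA L e i)) : f = g := by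
  have : f.comp (mkA L e) = g.comp (mkA L e) := by
    apply MvPolynomial.algHom_ext
    rintro (i | i)
    · exact ht i
    · exact hv i
  ext x
  obtain ⟨p, rfl⟩ := mkA_surjective L e x
  exact DFunLike.congr_fun this p

theorem adjoin_A (L : Submodule k (ι → k)) (e : ι) :
    Algebra.adjoin k (Set.range (tA L e) ∪ Set.range (vA L e)) = ⊤ := by
  rw [eq_top_iff]
  intro x _
  obtain ⟨p, rfl⟩ := mkA_surjective L e x
  induction p using MvPolynomial.induction_on with
  | C a =>
    have : mkA L e (C a) = algebraMap k _ a := (mkA L e).commutes a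
    rw [this]
    exact Subalgebra.algebraMap_mem _ a
  | add p q hp hq =>
    rw [map_add]
    exact Subalgebra.add_mem _ (hp trivial) (hq trivial)
  | mul_X p i hp =>
    rw [map_mul]
    refine Subalgebra.mul_mem _ (hp trivial) (Algebra.subset_adjoin ?_)
    rcases i with i | i
    · exact Or.inl ⟨i, rfl⟩
    · exact Or.inr ⟨i, rfl⟩

theorem sum_single_smul [DecidableEq ι] {M : Type} [AddCommGroup M] [Module k M] (x : ι → M)
    (i : ι) : ∑ j, (Pi.single i (1 : k) : ι → k) j • x j = x i := by
  simp [Pi.single_apply, ite_smul]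

theorem linmap_apply [DecidableEq ι] {M : Type} [AddCommGroup M] [Module k M]
    (g : (ι → k) →ₗ[k] M) (x : ι → k) : g x = ∑ i, x i • g (Pi.single i 1) := by
  rw [LinearMap.pi_apply_eq_sum_univ g x]
  apply Finset.sum_congr rfl
  intro i _
  congr 2
  ext j
  simp [Pi.single_apply, eq_comm]

/-- The coordinate ring is a retract of a polynomial ring. -/
theorem exists_retract (L : Submodule k (ι → k)) (e : ι) (h : ∃ ω ∈ L, ω e ≠ 0) :
    ∃ (φ : A L e →ₐ[k] MvPolynomial (ι ⊕ ι) k) (ψ : MvPolynomial (ι ⊕ ι) k →ₐ[k] A L e),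
      ψ.comp φ = AlgHom.id k _ := by
  classical
  obtain ⟨ω, hω, hωe⟩ := h
  set q : ι → k := (ω e)⁻¹ • ω with hq
  have hqL : q ∈ L := L.smul_mem _ hω
  have hqe : q e = 1 := by simp [hq, inv_mul_cancel₀ hωe]
  set L0 : Submodule k (ι → k) := L ⊓ LinearMap.ker (LinearMap.proj (R := k)
    (φ := fun _ : ι => k) e) with hL0
  obtain ⟨g, hg⟩ := LinearMap.exists_leftInverse_of_injective L0.subtype
    (LinearMap.ker_eq_bot_of_injective L0.injective_subtype)
  obtain ⟨g', hg'⟩ := LinearMap.exists_leftInverse_of_injective (ann L).subtype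
    (LinearMap.ker_eq_bot_of_injective (ann L).injective_subtype)
  have hg1 : ∀ x ∈ L0, (g x : ι → k) = x := fun x hx => by
    have := LinearMap.congr_fun hg ⟨x, hx⟩
    exact congrArg Subtype.val this
  have hg1' : ∀ x ∈ ann L, (g' x : ι → k) = x := fun x hx => by
    have := LinearMap.congr_fun hg' ⟨x, hx⟩
    exact congrArg Subtype.val this
  let t : ι → MvPolynomial (ι ⊕ ι) k :=
    fun i => C (q i) + ∑ j, (g (Pi.single j 1) : ι → k) i • X (Sum.inl j)
  let v : ι → MvPolynomial (ι ⊕ ι) k :=
    fun i => ∑ j, (g' (Pi.single j 1) : ι → k) i • X (Sum.inr j)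
  have hpt : IsPt L e t v := by
    refine ⟨?_, ?_, ?_⟩
    · intro c hc
      simp only [t, smul_add, Finset.sum_add_distrib, Finset.smul_sum, smul_smul]
      rw [Finset.sum_comm]
      simp only [← Finset.sum_smul]
      have e1 : ∑ i, c i • C (σ := ι ⊕ ι) (q i) = C (∑ i, c i * q i) := by
        rw [map_sum]
        exact Finset.sum_congr rfl fun i _ => by rw [C_mul, smul_eq_C_mul]
      rw [e1, hc q hqL, C_0, zero_add]
      apply Finset.sum_eq_zero
      intro j _
      rw [hc _ (g (Pi.single j 1)).2.1, zero_smul]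
    · simp only [t, hqe, C_1]
      rw [add_eq_left]
      apply Finset.sum_eq_zero
      intro j _
      have : (g (Pi.single j 1) : ι → k) e = 0 := (g (Pi.single j 1)).2.2
      rw [this, zero_smul]
    · intro c hc
      simp only [v, Finset.smul_sum, smul_smul]
      rw [Finset.sum_comm]
      simp only [← Finset.sum_smul]
      apply Finset.sum_eq_zero
      intro j _
      have := (g' (Pi.single j 1)).2 c hc
      have e2 : ∑ i, c i * (g' (Pi.single j 1) : ι → k) i = 0 := by
        rw [← this]
        exact Finset.sum_congr rfl fun i _ => mul_comm _ _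
      rw [e2, zero_smul]
  refine ⟨liftA hpt, aeval (Sum.elim (fun i => tA L e i - algebraMap k _ (q i)) (vA L e)), ?_⟩
  apply hom_ext
  · intro i
    simp only [AlgHom.comp_apply, liftA_t, AlgHom.id_apply, t, map_add, map_sum, map_smul,
      aeval_X, Sum.elim_inl, algHom_C]
    -- the row vector
    set r : ι → k := fun j => (g (Pi.single j 1) : ι → k) i - Pi.single (M := fun _ => k) i 1 j
      with hr
    have h1 : (r - (∑ j, r j * q j) • Pi.single e (1 : k)) ∈ ann L := by
      rw [mem_ann]
      intro ω hω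
      have h2 : ω - ω e • q ∈ L0 := by
        refine ⟨L.sub_mem hω (L.smul_mem _ hqL), ?_⟩
        show ω e - ω e * q e = 0
        rw [hqe, mul_one, sub_self]
      have h3 : ∑ j, r j * (ω - ω e • q) j = 0 := by
        have h4 := hg1 _ h2
        rw [linmap_apply g] at h4
        have h5 := congrFun h4 i
        simp only [Submodule.coe_sum, Finset.sum_apply, Submodule.coe_smul, Pi.smul_apply,
          smul_eq_mul] at h5
        simp only [hr, sub_mul, Finset.sum_sub_distrib]
        rw [sub_eq_zero]
        have e3 : ∑ j, (g (Pi.single j 1) : ι → k) i * (ω - ω e • q) j = (ω - ω e • q) i := by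
          rw [← h5]
          exact Finset.sum_congr rfl fun j _ => mul_comm _ _
        rw [e3]
        have := sum_single_smul (k := k) (fun j => (ω - ω e • q) j) i
        simpa using this.symm
      simp only [Pi.sub_apply, Pi.smul_apply, smul_eq_mul, mul_sub, Finset.sum_sub_distrib,
        sub_eq_zero] at h3
      simp only [Pi.sub_apply, Pi.smul_apply, smul_eq_mul, sub_mul, Finset.sum_sub_distrib, h3]
      have e4 : ∑ j, (∑ j, r j * q j) * (Pi.single e (1 : k) : ι → k) j * ω j =
          (∑ j, r j * q j) * ω e := by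
        have := sum_single_smul (k := k) ω e
        simp only [mul_assoc, ← Finset.mul_sum]
        congr 1
      rw [e4, sub_eq_zero, Finset.sum_mul]
      exact Finset.sum_congr rfl fun j _ => by ring
    have h6 := (isPtA L e).ht _ h1
    simp only [Pi.sub_apply, Pi.smul_apply, sub_smul, Finset.sum_sub_distrib, smul_eq_mul,
      mul_smul, ← Finset.smul_sum, sum_single_smul, (isPtA L e).he, sub_eq_zero] at h6
    have h7 : ∑ j, (g (Pi.single j 1) : ι → k) i • tA L e j =
        tA L e i + (∑ j, r j * q j) • 1 := by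
      have : ∑ j, r j • tA L e j =
          ∑ j, (g (Pi.single j 1) : ι → k) i • tA L e j - tA L e i := by
        simp only [hr, sub_smul, Finset.sum_sub_distrib, sum_single_smul]
      rw [this] at h6
      rw [← h6]; ring
    have h8 : ∑ j, r j * q j = ∑ j, (g (Pi.single j 1) : ι → k) i * q j - q i := by
      simp only [hr, sub_mul, Finset.sum_sub_distrib]
      congr 1
      have := sum_single_smul (k := k) q i
      simpa using this
    simp only [smul_sub, Finset.sum_sub_distrib, h7, h8]
    rw [Algebra.smul_def, mul_one, map_sub, map_sum]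
    simp only [map_mul, Algebra.smul_def]
    ring
  · intro i
    simp only [AlgHom.comp_apply, liftA_v, AlgHom.id_apply, v, map_sum, map_smul,
      aeval_X, Sum.elim_inr]
    set r : ι → k := fun j => (g' (Pi.single j 1) : ι → k) i - Pi.single (M := fun _ => k) i 1 j
      with hr
    have h1 : r ∈ L := by
      rw [← ann_ann L, mem_ann]
      intro c hc
      have h4 := hg1' c hc
      rw [linmap_apply g'] at h4
      have h5 := congrFun h4 i
      simp only [Submodule.coe_sum, Finset.sum_apply, Submodule.coe_smul, Pi.smul_apply,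
        smul_eq_mul] at h5
      simp only [hr, sub_mul, Finset.sum_sub_distrib]
      rw [sub_eq_zero]
      have e3 : ∑ j, (g' (Pi.single j 1) : ι → k) i * c j = c i := by
        rw [← h5]
        exact Finset.sum_congr rfl fun j _ => mul_comm _ _
      rw [e3]
      have := sum_single_smul (k := k) c i
      simpa using this.symm
    have h6 := (isPtA L e).hv _ h1
    simp only [hr, sub_smul, Finset.sum_sub_distrib, sum_single_smul, sub_eq_zero] at h6
    exact h6

theorem isDomainA (L : Submodule k (ι → k)) (e : ι) (h : ∃ ω ∈ L, ω e ≠ 0) :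
    IsDomain (A L e) := by
  obtain ⟨φ, ψ, hφ⟩ := exists_retract L e h
  have hinj : Function.Injective φ := by
    intro a b hab
    have := congrArg ψ hab
    rw [← AlgHom.comp_apply, ← AlgHom.comp_apply, hφ] at this
    exact this
  exact hinj.isDomain φ.toRingHom

end Pool.Agent.N140.Rec
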