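import Pool.Agent.N140.Rec.Rank

/-!
# Bases over a localization at a principal prime ideal
-/

set_option autoImplicit false

namespace Pool.Agent.N140.Rec

theorem isPrincipalIdealRing_atPrime {P R : Type} [CommRing P] [IsDomain P] [IsNoetherianRing P]
    (π : P) (hπ : (Ideal.span {π}).IsPrime) [CommRing R] [IsDomain R] [Algebra P R]
    [IsLocalization.AtPrime R (Ideal.span {π})] : IsPrincipalIdealRing R := by
  have : IsLocalRing R := IsLocalization.AtPrime.isLocalRing R (Ideal.span {π})
  have : IsNoetherianRing R := IsLocalization.isNoetherianRing (Ideal.span {π}).primeCompl R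
    inferInstance
  have h1 : (IsLocalRing.maximalIdeal R).IsPrincipal := by
    rw [← IsLocalization.AtPrime.map_eq_maximalIdeal (Ideal.span {π}) R, Ideal.map_span,
      Set.image_singleton]
    exact ⟨⟨_, rfl⟩⟩
  exact ((tfae_of_isNoetherianRing_of_isLocalRing_of_isDomain R).out 4 0).1 h1

theorem exists_basis {P A F R : Type} [CommRing P] [IsDomain P] [IsNoetherianRing P]
    [CommRing A] [IsDomain A] [Field F] [CommRing R] [IsDomain R]
    [Algebra P A] [Algebra A F] [Algebra P F] [IsScalarTower P A F]
    [Algebra P R] [Algebra R F] [IsScalarTower P R F]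
    (hAF : Function.Injective (algebraMap A F)) (hRF : Function.Injective (algebraMap R F))
    (π : P) (hπ : (Ideal.span {π}).IsPrime) [IsLocalization.AtPrime R (Ideal.span {π})]
    (G : Set A) (hGfin : G.Finite) (hG : Algebra.adjoin P G = ⊤)
    (hint : ∀ x ∈ G, IsIntegral R (algebraMap A F x)) :
    ∃ (N : ℕ) (a : Fin N → A), LinearIndependent P a ∧
      ∀ x : A, ∃ s : P, s ∉ Ideal.span {π} ∧ s • x ∈ Submodule.span P (Set.range a) := by
  classical
  have hPR : Function.Injective (algebraMap P R) :=
    IsLocalization.injective R (Ideal.primeCompl_le_nonZeroDivisors (Ideal.span {π}))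
  have : IsPrincipalIdealRing R := isPrincipalIdealRing_atPrime π hπ
  let B : Subalgebra R F := Algebra.adjoin R (algebraMap A F '' G)
  have : Module.Finite R B := by
    apply Algebra.finite_adjoin_of_finite_of_isIntegral (hGfin.image _)
    rintro _ ⟨x, hx, rfl⟩
    exact hint x hx
  have : FaithfulSMul R F := (faithfulSMul_iff_algebraMap_injective R F).2 hRF
  have : Module.IsTorsionFree R F := inferInstance
  have : Module.IsTorsionFree R B := inferInstance
  have : Module.Free R B := inferInstance
  let b := Module.finBasis R B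
  -- elements of `B` as fractions
  have hB1 : ∀ x ∈ B, ∃ s : P, s ∉ Ideal.span {π} ∧ ∃ a : A,
      algebraMap P F s * x = algebraMap A F a := by
    intro x hx
    induction hx using Algebra.adjoin_induction with
    | mem x hx =>
      obtain ⟨a, _, rfl⟩ := hx
      exact ⟨1, fun h => hπ.ne_top ((Ideal.eq_top_iff_one _).2 h), a, by rw [map_one, one_mul]⟩
    | algebraMap r =>
      obtain ⟨⟨p, s⟩, h⟩ := IsLocalization.surj (Ideal.span {π}).primeCompl r
      refine ⟨s, s.2, algebraMap P A p, ?_⟩
      rw [← IsScalarTower.algebraMap_apply P A F, IsScalarTower.algebraMap_apply P R F p,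
        IsScalarTower.algebraMap_apply P R F s, ← h, map_mul, mul_comm]
    | add x y _ _ hx hy =>
      obtain ⟨s, hs, a, ha⟩ := hx
      obtain ⟨s', hs', a', ha'⟩ := hy
      refine ⟨s * s', fun h => (hπ.mem_or_mem h).elim hs hs', s' • a + s • a', ?_⟩
      rw [map_add, Algebra.smul_def, Algebra.smul_def, map_mul, map_mul, map_mul, ← ha, ← ha',
        ← IsScalarTower.algebraMap_apply P A F, ← IsScalarTower.algebraMap_apply P A F]
      ring
    | mul x y _ _ hx hy =>
      obtain ⟨s, hs, a, ha⟩ := hx
      obtain ⟨s', hs', a', ha'⟩ := hy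
      refine ⟨s * s', fun h => (hπ.mem_or_mem h).elim hs hs', a * a', ?_⟩
      rw [map_mul, map_mul, ← ha, ← ha']
      ring
  -- elements of `A` are in `B`
  have hB2 : ∀ x : A, algebraMap A F x ∈ B := by
    intro x
    have hx : x ∈ Algebra.adjoin P G := by rw [hG]; trivial
    induction hx using Algebra.adjoin_induction with
    | mem x hx => exact Algebra.subset_adjoin ⟨x, hx, rfl⟩
    | algebraMap r =>
      rw [← IsScalarTower.algebraMap_apply P A F, IsScalarTower.algebraMap_apply P R F]
      exact B.algebraMap_mem _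
    | add x y _ _ hx hy => rw [map_add]; exact B.add_mem hx hy
    | mul x y _ _ hx hy => rw [map_mul]; exact B.mul_mem hx hy
  choose s hs a ha using fun i => hB1 (b i : F) (b i).2
  have hs0 : ∀ i, s i ≠ 0 := fun i h => hs i (h ▸ (Ideal.span {π}).zero_mem)
  refine ⟨_, a, ?_, ?_⟩
  · rw [Fintype.linearIndependent_iff]
    intro p hp i
    have h1 : ∑ i, algebraMap P R (p i * s i) • b i = 0 := by
      apply Subtype.ext
      rw [AddSubmonoidClass.coe_finsetSum]
      have h2 := congrArg (algebraMap A F) hp
      rw [map_sum, map_zero] at h2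
      rw [ZeroMemClass.coe_zero, ← h2]
      apply Finset.sum_congr rfl
      intro i _
      rw [Subalgebra.coe_smul, Algebra.smul_def, Algebra.smul_def, map_mul, map_mul, map_mul,
        ← ha, ← IsScalarTower.algebraMap_apply P A F, ← IsScalarTower.algebraMap_apply P R F,
        ← IsScalarTower.algebraMap_apply P R F]
      ring
    have h3 := Fintype.linearIndependent_iff.1 b.linearIndependent _ h1 i
    have h4 : p i * s i = 0 := hPR (by rw [h3, map_zero])
    exact (mul_eq_zero.1 h4).resolve_right (hs0 i)
  · intro x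
    let r := fun i => b.repr ⟨_, hB2 x⟩ i
    obtain ⟨c, hc⟩ := IsLocalization.exist_integer_multiples_of_finite
      (Ideal.span {π}).primeCompl r
    choose p hp using hc
    refine ⟨c * ∏ j, s j, ?_, ?_⟩
    · intro h
      rcases hπ.mem_or_mem h with h | h
      · exact c.2 h
      · obtain ⟨j, _, hj⟩ := (hπ.prod_mem_iff).1 h
        exact hs j hj
    · have h1 : ((c : P) * ∏ j, s j) • x = ∑ i, (p i * ∏ j ∈ Finset.univ.erase i, s j) • a i := by
        apply hAF
        rw [map_sum, Algebra.smul_def, map_mul, ← IsScalarTower.algebraMap_apply P A F]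
        have h2 : algebraMap A F x = ∑ i, algebraMap R F (r i) * (b i : F) := by
          have h3 := congrArg Subtype.val (b.sum_repr ⟨_, hB2 x⟩)
          rw [AddSubmonoidClass.coe_finsetSum] at h3
          refine h3.symm.trans (Finset.sum_congr rfl fun i _ => ?_)
          rw [Subalgebra.coe_smul, Algebra.smul_def]
        rw [h2, Finset.mul_sum]
        apply Finset.sum_congr rfl
        intro i _
        have h5 : algebraMap A F ((p i * ∏ j ∈ Finset.univ.erase i, s j) • a i) =
            algebraMap P F (p i) * algebraMap P F (∏ j ∈ Finset.univ.erase i, s j) *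
              (algebraMap P F (s i) * (b i : F)) := by
          rw [Algebra.smul_def, map_mul (algebraMap A F), ← ha,
            ← IsScalarTower.algebraMap_apply P A F, map_mul]
        rw [h5, ← Finset.mul_prod_erase Finset.univ s (Finset.mem_univ i), map_mul, map_mul]
        have h4 : algebraMap P F (c : P) * algebraMap R F (r i) = algebraMap P F (p i) := by
          rw [IsScalarTower.algebraMap_apply P R F, IsScalarTower.algebraMap_apply P R F,
            ← map_mul, hp i, Algebra.smul_def]
        rw [← h4]
        ring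
      rw [h1]
      apply Submodule.sum_mem
      intro i _
      exact Submodule.smul_mem _ _ (Submodule.subset_span ⟨i, rfl⟩)

/-- Specialization of the rank. -/
theorem rank_specialize {P P' A Y : Type} [CommRing P] [IsDomain P] [CommRing P'] [IsDomain P']
    [CommRing A] [Algebra P A] [AddCommGroup Y] [Module P' Y]
    (π : P) (hπ : (Ideal.span {π}).IsPrime) 
    (σ : P →+* P') (hσ : Function.Surjective σ) (hσk : ∀ p, σ p = 0 ↔ p ∈ Ideal.span {π})
    (q : A →+ Y) (hq : Function.Surjective q) (hqs : ∀ (p : P) (x : A), q (p • x) = σ p • q x)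
    (hqk : ∀ x, q x = 0 → ∃ y, x = π • y)
    {N : ℕ} (a : Fin N → A) (hli : LinearIndependent P a)
    (ht : ∀ x : A, ∃ s : P, s ∉ Ideal.span {π} ∧ s • x ∈ Submodule.span P (Set.range a)) :
    Module.rank P A = N ∧ Module.rank P' Y = N := by
  classical
  refine ⟨rank_eq_of_torsion a hli (fun x => ?_), rank_eq_of_torsion (fun i => q (a i)) ?_ ?_⟩
  · obtain ⟨s, hs, hx⟩ := ht x
    exact ⟨s, fun h => hs (h ▸ (Ideal.span {π}).zero_mem), hx⟩
  · rw [Fintype.linearIndependent_iff]
    intro g hg i
    choose p hp using fun i => hσ (g i)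
    have h1 : q (∑ i, p i • a i) = 0 := by
      rw [map_sum, ← hg]
      exact Finset.sum_congr rfl fun i _ => by rw [hqs, hp]
    obtain ⟨y, hy⟩ := hqk _ h1
    obtain ⟨s, hs, hx⟩ := ht y
    rw [Submodule.mem_span_range_iff_exists_fun] at hx
    obtain ⟨c, hc⟩ := hx
    have h2 : ∑ i, (s * p i - π * c i) • a i = 0 := by
      simp only [sub_smul, mul_smul, Finset.sum_sub_distrib, ← Finset.smul_sum]
      rw [hy, hc, smul_comm, sub_self]
    have h3 := Fintype.linearIndependent_iff.1 hli _ h2 i
    have h4 : s * p i ∈ Ideal.span {π} := by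
      rw [Ideal.mem_span_singleton]
      exact ⟨c i, sub_eq_zero.1 h3⟩
    rw [← hp, hσk]
    exact (hπ.mem_or_mem h4).resolve_left hs
  · intro y
    obtain ⟨x, rfl⟩ := hq y
    obtain ⟨s, hs, hx⟩ := ht x
    refine ⟨σ s, fun h => hs ((hσk s).1 h), ?_⟩
    rw [← hqs]
    rw [Submodule.mem_span_range_iff_exists_fun] at hx ⊢
    obtain ⟨c, hc⟩ := hx
    refine ⟨fun i => σ (c i), ?_⟩
    rw [← hc, map_sum]
    exact Finset.sum_congr rfl fun i _ => by rw [hqs]

end Pool.Agent.N140.Rec
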