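import Pool.Agent.N140.Rec.Mem
import Pool.Agent.N140.Rec.Minor
import Pool.Agent.N140.Rec.Spec

/-!
# The rank of the coordinate ring over the ring of the `u i`, deletion and contraction
-/

set_option autoImplicit false

namespace Pool.Agent.N140.Rec

open MvPolynomial

theorem isIntegral_of_forall_valuationSubring {R F : Type} [CommRing R] [Field F] [Algebra R F]
    (x : F) (h : ∀ V : ValuationSubring F, (∀ r : R, algebraMap R F r ∈ V) → x ∈ V) :
    IsIntegral R x := by
  have h1 : x ∈ (⨅ V : {V : ValuationSubring F // Set.range (algebraMap R F) ⊆ V.toSubring},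
      V.1.toSubring) := by
    rw [Subring.mem_iInf]
    intro V
    exact h V.1 (fun r => V.2 ⟨r, rfl⟩)
  rw [iInf_valuationSubring_superset] at h1
  obtain ⟨p, hp, hpx⟩ : IsIntegral (Subring.closure (Set.range (algebraMap R F))) x := h1
  have hle : Subring.closure (Set.range (algebraMap R F)) ≤ (algebraMap R F).range := by
    rw [Subring.closure_le]
    exact fun y hy => hy
  have h2 : p.map (algebraMap (Subring.closure (Set.range (algebraMap R F))) F) ∈
      Polynomial.lifts (algebraMap R F) := by
    rw [Polynomial.lifts_iff_coeff_lifts]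
    intro n
    rw [Polynomial.coeff_map]
    exact hle (p.coeff n).2
  obtain ⟨q, hq, -, hqm⟩ := Polynomial.lifts_and_natDegree_eq_and_monic h2 (hp.map _)
  refine ⟨q, hqm, ?_⟩
  rw [← Polynomial.aeval_def, ← Polynomial.aeval_map_algebraMap F, hq,
    Polynomial.aeval_map_algebraMap]
  exact hpx

variable {k : Type} [Field k] {n : ℕ}

/-- `u i = v i * t i ^ 2` -/
noncomputable def uA {ι : Type} [Fintype ι] (L : Submodule k (ι → k)) (e : ι) (i : ι) : A L e :=
  vA L e i * tA L e i ^ 2

/-- the map from the polynomial ring -/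
noncomputable def phi (L : Submodule k (Fin (n + 1) → k)) :
    MvPolynomial (Fin n) k →ₐ[k] A L 0 := aeval fun j => uA L 0 j.succ

noncomputable instance algP (L : Submodule k (Fin (n + 1) → k)) :
    Algebra (MvPolynomial (Fin n) k) (A L 0) := (phi L).toRingHom.toAlgebra

theorem algebraMap_P (L : Submodule k (Fin (n + 1) → k)) (p : MvPolynomial (Fin n) k) :
    algebraMap (MvPolynomial (Fin n) k) (A L 0) p = phi L p := rfl

instance (L : Submodule k (Fin (n + 1) → k)) :
    IsScalarTower k (MvPolynomial (Fin n) k) (A L 0) :=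
  IsScalarTower.of_algebraMap_eq' (phi L).comp_algebraMap.symm

/-- the specialization of the last variable to zero -/
noncomputable def spec0 (k : Type) [Field k] (n : ℕ) :
    MvPolynomial (Fin (n + 1)) k →ₐ[k] MvPolynomial (Fin n) k :=
  aeval (Fin.snoc X 0 : Fin (n + 1) → MvPolynomial (Fin n) k)

theorem spec0_rename (p : MvPolynomial (Fin n) k) : spec0 k n (rename Fin.castSucc p) = p := by
  rw [spec0, aeval_rename]
  have : ((Fin.snoc X 0 : Fin (n + 1) → MvPolynomial (Fin n) k) ∘ Fin.castSucc) = X := by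
    funext i
    simp
  rw [this, aeval_X_left, AlgHom.id_apply]

theorem spec0_surjective : Function.Surjective (spec0 k n) :=
  fun p => ⟨_, spec0_rename p⟩

theorem sub_rename_mem (p : MvPolynomial (Fin (n + 1)) k) :
    p - rename Fin.castSucc (spec0 k n p) ∈
      Ideal.span {(X (Fin.last n) : MvPolynomial (Fin (n + 1)) k)} := by
  have h : (Ideal.Quotient.mkₐ k (Ideal.span {(X (Fin.last n) :
      MvPolynomial (Fin (n + 1)) k)})).comp ((rename Fin.castSucc).comp (spec0 k n)) =
      Ideal.Quotient.mkₐ k (Ideal.span {(X (Fin.last n) : MvPolynomial (Fin (n + 1)) k)}) := by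
    apply MvPolynomial.algHom_ext
    intro i
    refine Fin.lastCases ?_ (fun i => ?_) i
    · have h1 : spec0 k n (X (Fin.last n)) = 0 := by simp [spec0]
      rw [AlgHom.comp_apply, AlgHom.comp_apply, h1, map_zero, map_zero]
      exact (Ideal.Quotient.eq_zero_iff_mem.2 (Ideal.mem_span_singleton_self _)).symm
    · have h1 : spec0 k n (X i.castSucc) = X i := by simp [spec0]
      rw [AlgHom.comp_apply, AlgHom.comp_apply, h1, rename_X]
  rw [← Ideal.Quotient.eq_zero_iff_mem, map_sub, sub_eq_zero]
  exact (DFunLike.congr_fun h p).symm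

theorem spec0_eq_zero_iff (p : MvPolynomial (Fin (n + 1)) k) :
    spec0 k n p = 0 ↔ p ∈ Ideal.span {(X (Fin.last n) : MvPolynomial (Fin (n + 1)) k)} := by
  constructor
  · intro h
    have := sub_rename_mem p
    rwa [h, map_zero, sub_zero] at this
  · intro h
    obtain ⟨q, rfl⟩ := Ideal.mem_span_singleton'.1 h
    have h1 : spec0 k n (X (Fin.last n)) = 0 := by simp [spec0]
    rw [map_mul, h1, mul_zero]

theorem isPrime_span_X :
    (Ideal.span {(X (Fin.last n) : MvPolynomial (Fin (n + 1)) k)}).IsPrime := by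
  have : Ideal.span {(X (Fin.last n) : MvPolynomial (Fin (n + 1)) k)} =
      RingHom.ker (spec0 k n) := by
    ext p
    rw [RingHom.mem_ker, spec0_eq_zero_iff]
  rw [this]
  exact RingHom.ker_isPrime _

/-- A polynomial which does not involve the last variable is not divisible by it. -/
theorem rename_notMem {p : MvPolynomial (Fin n) k} (hp : p ≠ 0) :
    rename Fin.castSucc p ∉ Ideal.span {(X (Fin.last n) : MvPolynomial (Fin (n + 1)) k)} := by
  rw [← spec0_eq_zero_iff, spec0_rename]
  exact hp

theorem exists_eq_X_pow_mul {p : MvPolynomial (Fin (n + 1)) k} (hp : p ≠ 0) :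
    ∃ (a : ℕ) (q : MvPolynomial (Fin (n + 1)) k), p = X (Fin.last n) ^ a * q ∧
      q ∉ Ideal.span {(X (Fin.last n) : MvPolynomial (Fin (n + 1)) k)} := by
  have h1 : FiniteMultiplicity (X (Fin.last n) : MvPolynomial (Fin (n + 1)) k) p := by
    apply FiniteMultiplicity.of_not_isUnit _ hp
    intro h
    exact isPrime_span_X.ne_top (Ideal.eq_top_of_isUnit_mem _ (Ideal.mem_span_singleton_self _) h)
  obtain ⟨q, hq, hq'⟩ := h1.exists_eq_pow_mul_and_not_dvd
  exact ⟨_, q, hq, by rwa [Ideal.mem_span_singleton]⟩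

theorem tA_eq_zero {ι : Type} [Fintype ι] {L : Submodule k (ι → k)} {e i : ι}
    (h : ∀ ω ∈ L, ω i = 0) : tA L e i = 0 := by
  classical
  have h1 : (Pi.single i (1 : k) : ι → k) ∈ ann L := by
    intro ω hω
    have := sum_single_smul (k := k) ω i
    simp only [smul_eq_mul] at this
    rw [this]
    exact h ω hω
  have h2 := (isPtA L e).ht _ h1
  rwa [sum_single_smul] at h2

theorem vA_eq_zero {ι : Type} [Fintype ι] {L : Submodule k (ι → k)} {e i : ι}
    (h : ∀ c ∈ ann L, c i = 0) : vA L e i = 0 := by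
  classical
  have h1 : (Pi.single i (1 : k) : ι → k) ∈ L := by
    rw [← ann_ann L]
    intro c hc
    have := sum_single_smul (k := k) c i
    simp only [smul_eq_mul] at this
    rw [this]
    exact h c hc
  have h2 := (isPtA L e).hv _ h1
  rwa [sum_single_smul] at h2

theorem exists_L_of_tA_ne {ι : Type} [Fintype ι] {L : Submodule k (ι → k)} {e i : ι}
    (h : tA L e i ≠ 0) : ∃ ω ∈ L, ω i ≠ 0 := by
  by_contra hcon
  push Not at hcon
  exact h (tA_eq_zero hcon)

theorem exists_ann_of_vA_ne {ι : Type} [Fintype ι] {L : Submodule k (ι → k)} {e i : ι}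
    (h : vA L e i ≠ 0) : ∃ c ∈ ann L, c i ≠ 0 := by
  by_contra hcon
  push Not at hcon
  exact h (vA_eq_zero hcon)

theorem phi_X (L : Submodule k (Fin (n + 1) → k)) (j : Fin n) : phi L (X j) = uA L 0 j.succ := by
  rw [phi, aeval_X]

theorem uA_ne_zero {L : Submodule k (Fin (n + 1) → k)} (h : Function.Injective (phi L))
    (j : Fin n) : uA L 0 j.succ ≠ 0 := by
  rw [← phi_X, Ne, map_eq_zero_iff _ h]
  exact X_ne_zero j

theorem nontrivial_of_inj {L : Submodule k (Fin (n + 1) → k)} (h : Function.Injective (phi L)) :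
    Nontrivial (A L 0) := h.nontrivial

theorem exists_zero {L : Submodule k (Fin (n + 1) → k)} [Nontrivial (A L 0)] :
    ∃ ω ∈ L, ω 0 ≠ 0 := by
  apply exists_L_of_tA_ne (e := 0)
  rw [(isPtA L 0).he]
  exact one_ne_zero

/-- If the map is injective for a quotient then it is injective. -/
theorem inj_of_quot {L : Submodule k (Fin (n + 2) → k)} {L' : Submodule k (Fin (n + 1) → k)}
    (hdom : IsDomain (A L 0)) (hne : uA L 0 (Fin.last (n + 1)) ≠ 0) (α : A L 0 →ₐ[k] A L' 0)
    (hα0 : α (uA L 0 (Fin.last (n + 1))) = 0)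
    (hα : ∀ j : Fin (n + 1), α (uA L 0 j.castSucc) = uA L' 0 j)
    (h : Function.Injective (phi L')) : Function.Injective (phi L) := by
  have hcomp : ∀ p, α (phi L p) = phi L' (spec0 k n p) := by
    intro p
    have : α.comp (phi L) = (phi L').comp (spec0 k n) := by
      apply MvPolynomial.algHom_ext
      intro i
      rw [AlgHom.comp_apply, AlgHom.comp_apply, phi_X]
      refine Fin.lastCases ?_ (fun i => ?_) i
      · rw [Fin.succ_last, hα0]
        simp [spec0]
      · rw [Fin.succ_castSucc, hα]
        simp [spec0, phi_X]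
    exact DFunLike.congr_fun this p
  rw [injective_iff_map_eq_zero]
  intro p hp
  by_contra hne'
  obtain ⟨a, q, rfl, hq⟩ := exists_eq_X_pow_mul hne'
  rw [map_mul, map_pow, phi_X, Fin.succ_last] at hp
  have h1 : phi L q = 0 := (mul_eq_zero.1 hp).resolve_left (pow_ne_zero _ hne)
  have h2 := hcomp q
  rw [h1, map_zero] at h2
  have h3 : spec0 k n q = 0 := h (by rw [← h2, map_zero])
  exact hq ((spec0_eq_zero_iff q).1 h3)

/-- The rank of the ring over `P` is zero if `P` does not inject. -/
theorem rank_eq_zero_of_not_inj {L : Submodule k (Fin (n + 1) → k)}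
    (h : ¬ Function.Injective (phi L)) : Module.rank (MvPolynomial (Fin n) k) (A L 0) = 0 := by
  apply rank_eq_zero_of_torsion
  rw [injective_iff_map_eq_zero] at h
  push Not at h
  obtain ⟨p, hp, hp0⟩ := h
  intro x
  refine ⟨p, hp0, ?_⟩
  rw [Algebra.smul_def, algebraMap_P, hp, zero_mul]

end Pool.Agent.N140.Rec
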