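import Pool.Agent.N140.Rec.Step

/-!
# The rank of the coordinate ring at `u = 0`
-/

set_option autoImplicit false

namespace Pool.Agent.N140.Rec

open MvPolynomial

variable {k : Type} [Field k] {n : ℕ}

theorem aeval_X_comp {σ τ : Type} (g : σ → τ) (G : MvPolynomial σ k) :
    aeval (fun i => (X (g i) : MvPolynomial τ k)) G = rename g G := by
  have : aeval (fun i => (X (g i) : MvPolynomial τ k)) = (rename g : _ →ₐ[k] _) := by
    apply MvPolynomial.algHom_ext
    intro i
    rw [aeval_X, rename_X]
  rw [this]

theorem adjoinP (L : Submodule k (Fin (n + 1) → k)) :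
    Algebra.adjoin (MvPolynomial (Fin n) k) (Set.range (tA L 0) ∪ Set.range (vA L 0)) = ⊤ := by
  rw [eq_top_iff]
  intro x _
  have h1 : x ∈ Algebra.adjoin k (Set.range (tA L 0) ∪ Set.range (vA L 0)) := by
    rw [adjoin_A]; trivial
  have h2 : Algebra.adjoin k (Set.range (tA L 0) ∪ Set.range (vA L 0)) ≤
      (Algebra.adjoin (MvPolynomial (Fin n) k)
        (Set.range (tA L 0) ∪ Set.range (vA L 0))).restrictScalars k := by
    rw [Algebra.adjoin_le_iff]
    exact Algebra.subset_adjoin
  exact h2 h1

/-- All coordinates are in every valuation ring of the function field which contains the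
localization of the ring of the `u i`. -/
theorem mem_of_valuation {L : Submodule k (Fin (n + 2) → k)} (hinj : Function.Injective (phi L))
    {F : Type} [Field F] [Algebra k F] (f : A L 0 →ₐ[k] F) (hf : Function.Injective f)
    (V : ValuationSubring F)
    (hV : ∀ p : MvPolynomial (Fin (n + 1)) k, f (phi L p) ∈ V)
    (hV' : ∀ p : MvPolynomial (Fin (n + 1)) k,
      p ∉ Ideal.span {(X (Fin.last n) : MvPolynomial (Fin (n + 1)) k)} → (f (phi L p))⁻¹ ∈ V) :
    (∀ i, f (tA L 0 i) ∈ V) ∧ ∀ i, f (vA L 0 i) ∈ V := by
  classical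
  have := nontrivial_of_inj hinj
  have hval : ∀ p : MvPolynomial (Fin (n + 1)) k,
      p ∉ Ideal.span {(X (Fin.last n) : MvPolynomial (Fin (n + 1)) k)} →
      V.valuation (f (phi L p)) = 1 := by
    intro p hp
    have h1 := (V.valuation_le_one_iff _).2 (hV p)
    have h2 := (V.valuation_le_one_iff _).2 (hV' p hp)
    have h0 : f (phi L p) ≠ 0 := by
      rw [Ne, map_eq_zero_iff _ hf, map_eq_zero_iff _ hinj]
      rintro rfl
      exact hp (Ideal.zero_mem _)
    rw [map_inv₀] at h2
    have hpos : 0 < V.valuation (f (phi L p)) :=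
      zero_lt_iff.2 ((V.valuation).ne_zero_iff.2 h0)
    apply le_antisymm h1
    rwa [inv_le_one₀ hpos] at h2
  have hu : ∀ j : Fin (n + 1), f (vA L 0 j.succ) * f (tA L 0 j.succ) ^ 2 = f (phi L (X j)) := by
    intro j
    rw [phi_X, uA, map_mul, map_pow]
  have ht0 : ∀ i, f (tA L 0 i) ≠ 0 := by
    intro i
    rw [Ne, map_eq_zero_iff _ hf]
    refine Fin.cases ?_ (fun j => ?_) i
    · rw [(isPtA L 0).he]
      exact one_ne_zero
    · intro h
      exact uA_ne_zero hinj j (by rw [uA, h]; ring)
  have hlast : (Fin.last (n + 1)) = (Fin.last n).succ := (Fin.succ_last n).symm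
  refine tv_mem ((isPtA L 0).map f) ht0 V ?_ ?_ (Fin.last (n + 1)) (Fin.last_pos).ne' ?_ ?_ ?_ ?_
  · intro a
    have := hV (C a)
    rwa [phi, algHom_C, AlgHom.commutes] at this
  · intro i hi
    obtain ⟨j, rfl⟩ := Fin.exists_succ_eq.2 hi
    rw [hu]
    exact hV _
  · apply exists_ann_of_vA_ne (e := 0)
    intro h
    exact uA_ne_zero hinj (Fin.last n) (by rw [uA, ← hlast, h]; ring)
  · apply exists_L_of_tA_ne (e := 0)
    intro h
    exact uA_ne_zero hinj (Fin.last n) (by rw [uA, ← hlast, h]; ring)
  · intro S hS G hG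
    have h1 : ∀ i : S, ∃ j : Fin n, (j.castSucc).succ = (i : Fin (n + 2)) := by
      intro i
      obtain ⟨h2, h3⟩ := hS i i.2
      obtain ⟨j, hj⟩ := Fin.exists_succ_eq.2 h2
      have h4 : j ≠ Fin.last n := by
        rintro rfl
        exact h3 (by rw [← hj, Fin.succ_last])
      obtain ⟨j', hj'⟩ := Fin.exists_castSucc_eq.2 h4
      exact ⟨j', by rw [hj', hj]⟩
    choose g hg using h1
    have hginj : Function.Injective g := by
      intro a b hab
      apply Subtype.ext
      rw [← hg a, ← hg b, hab]
    have h5 : rename g G ≠ 0 := by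
      rw [Ne, map_eq_zero_iff _ (rename_injective g hginj)]
      exact hG
    have h6 : aeval (fun i : S => f (vA L 0 i) * f (tA L 0 i) ^ 2) G =
        f (phi L (rename Fin.castSucc (rename g G))) := by
      have : (fun i : S => f (vA L 0 i) * f (tA L 0 i) ^ 2) =
          fun i : S => f (phi L (X (g i).castSucc)) := by
        funext i
        rw [← hu, hg]
      rw [this, rename_rename]
      have h7 := MvPolynomial.comp_aeval_apply (R := k)
        (f := fun i : S => (X (g i).castSucc : MvPolynomial (Fin (n + 1)) k))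
        (f.comp (phi L)) G
      have h8 : (fun i : S => (f.comp (phi L)) (X (g i).castSucc)) =
          fun i : S => f (phi L (X (g i).castSucc)) := rfl
      rw [h8] at h7
      rw [← h7, AlgHom.comp_apply, aeval_X_comp (fun i : S => (g i).castSucc)]
      rfl
    rw [h6]
    exact hval _ (rename_notMem h5)
  · intro hlast1 S hS G hG
    have h1 : ∀ i : S, ∃ j : Fin (n + 1), j.succ = (i : Fin (n + 2)) := fun i =>
      Fin.exists_succ_eq.2 (hS i i.2)
    choose g hg using h1
    have hginj : Function.Injective g := by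
      intro a b hab
      apply Subtype.ext
      rw [← hg a, ← hg b, hab]
    have h5 : rename g G ≠ 0 := by
      rw [Ne, map_eq_zero_iff _ (rename_injective g hginj)]
      exact hG
    have h6 : aeval (fun i : S => f (vA L 0 i) * f (tA L 0 i) ^ 2) G =
        f (phi L (rename g G)) := by
      have : (fun i : S => f (vA L 0 i) * f (tA L 0 i) ^ 2) =
          fun i : S => f (phi L (X (g i))) := by
        funext i
        rw [← hu, hg]
      rw [this]
      have h7 := MvPolynomial.comp_aeval_apply (R := k)
        (f := fun i : S => (X (g i) : MvPolynomial (Fin (n + 1)) k))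
        (f.comp (phi L)) G
      have h8 : (fun i : S => (f.comp (phi L)) (X (g i))) =
          fun i : S => f (phi L (X (g i))) := rfl
      rw [h8] at h7
      rw [← h7, AlgHom.comp_apply, aeval_X_comp g]
    obtain ⟨a, q, hq, hq'⟩ := exists_eq_X_pow_mul h5
    rw [h6, hq, map_mul, map_mul, map_mul, hval q hq', mul_one, map_pow, map_pow, map_pow, ← hu,
      ← hlast, hlast1, one_pow]

/-- The basis of a localization. -/
theorem exists_basis_A {L : Submodule k (Fin (n + 2) → k)} (hinj : Function.Injective (phi L)) :
    ∃ (N : ℕ) (a : Fin N → A L 0), LinearIndependent (MvPolynomial (Fin (n + 1)) k) a ∧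
      ∀ x : A L 0, ∃ s : MvPolynomial (Fin (n + 1)) k,
        s ∉ Ideal.span {(X (Fin.last n) : MvPolynomial (Fin (n + 1)) k)} ∧
        s • x ∈ Submodule.span (MvPolynomial (Fin (n + 1)) k) (Set.range a) := by
  classical
  have := nontrivial_of_inj hinj
  have : IsDomain (A L 0) := isDomainA L 0 exists_zero
  have hpr := isPrime_span_X (k := k) (n := n)
  let P := MvPolynomial (Fin (n + 1)) k
  let F := FractionRing (A L 0)
  let I : Ideal P := Ideal.span {(X (Fin.last n) : MvPolynomial (Fin (n + 1)) k)}
  let R := Localization.AtPrime I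
  have hAF : Function.Injective (algebraMap (A L 0) F) := IsFractionRing.injective _ _
  have : IsScalarTower P (A L 0) F := inferInstance
  have hPF : Function.Injective (algebraMap P F) := by
    rw [IsScalarTower.algebraMap_eq P (A L 0) F]
    exact hAF.comp hinj
  have hunit : ∀ y : I.primeCompl, IsUnit (algebraMap P F y) := by
    intro y
    rw [isUnit_iff_ne_zero, Ne, map_eq_zero_iff _ hPF]
    intro h
    exact y.2 (h ▸ I.zero_mem)
  let algRF : Algebra R F := (IsLocalization.lift hunit).toAlgebra
  have hRF' : ∀ p : P, algebraMap R F (algebraMap P R p) = algebraMap P F p := fun p =>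
    IsLocalization.lift_eq hunit p
  have : IsScalarTower P R F := IsScalarTower.of_algebraMap_eq fun p => (hRF' p).symm
  have : IsDomain R := IsLocalization.isDomain_localization I.primeCompl_le_nonZeroDivisors
  have hRF : Function.Injective (algebraMap R F) := by
    rw [injective_iff_map_eq_zero]
    intro r hr
    obtain ⟨p, s, rfl⟩ := IsLocalization.exists_mk'_eq I.primeCompl r
    have h1 := IsLocalization.mk'_spec R p s
    have h2 := congrArg (algebraMap R F) h1
    rw [map_mul, hr, zero_mul, hRF'] at h2
    have h3 : p = 0 := hPF (by rw [← h2, map_zero])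
    rw [h3, IsLocalization.mk'_zero]
  refine exists_basis (P := P) (A := A L 0) (F := F) (R := R) hAF hRF _ hpr
    (Set.range (tA L 0) ∪ Set.range (vA L 0)) ?_ (adjoinP L) ?_
  · exact (Set.finite_range _).union (Set.finite_range _)
  · have key : ∀ V : ValuationSubring F, (∀ r : R, algebraMap R F r ∈ V) →
        (∀ i, algebraMap (A L 0) F (tA L 0 i) ∈ V) ∧ ∀ i, algebraMap (A L 0) F (vA L 0 i) ∈ V := by
      intro V hV
      refine mem_of_valuation hinj (IsScalarTower.toAlgHom k (A L 0) F) hAF V ?_ ?_
      · intro p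
        have := hV (algebraMap P R p)
        rwa [hRF'] at this
      · intro p hp
        obtain ⟨r, hr⟩ := (IsLocalization.map_units R (⟨p, hp⟩ : I.primeCompl)).exists_right_inv
        have h1 := congrArg (algebraMap R F) hr
        rw [map_mul, map_one, hRF'] at h1
        have h2 := hV r
        rwa [eq_inv_of_mul_eq_one_right h1] at h2
    rintro x (⟨i, rfl⟩ | ⟨i, rfl⟩)
    · exact isIntegral_of_forall_valuationSubring _ fun V hV => (key V hV).1 i
    · exact isIntegral_of_forall_valuationSubring _ fun V hV => (key V hV).2 i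

end Pool.Agent.N140.Rec
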