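import Pool.Agent.N140.Rec.Step2

/-!
# The rank satisfies the deletion-contraction rule
-/

set_option autoImplicit false

namespace Pool.Agent.N140.Rec

open MvPolynomial

variable {k : Type} [Field k] {n : ℕ}

theorem spec0_X_last : spec0 k n (X (Fin.last n)) = 0 := by simp [spec0]

theorem spec0_X_castSucc (i : Fin n) : spec0 k n (X i.castSucc) = X i := by simp [spec0]

/-- compatibility of quotients with the maps from the polynomial rings -/
theorem comp_phi {L : Submodule k (Fin (n + 2) → k)} {L' : Submodule k (Fin (n + 1) → k)}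
    (α : A L 0 →ₐ[k] A L' 0)
    (hα0 : α (uA L 0 (Fin.last (n + 1))) = 0)
    (hα : ∀ j : Fin (n + 1), α (uA L 0 j.castSucc) = uA L' 0 j) (p) :
    α (phi L p) = phi L' (spec0 k n p) := by
  have : α.comp (phi L) = (phi L').comp (spec0 k n) := by
    apply MvPolynomial.algHom_ext
    intro i
    rw [AlgHom.comp_apply, AlgHom.comp_apply, phi_X]
    refine Fin.lastCases ?_ (fun i => ?_) i
    · rw [Fin.succ_last, hα0]
      simp [spec0]
    · rw [Fin.succ_castSucc, hα]
      simp [spec0, phi_X]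
  exact DFunLike.congr_fun this p

/-- the coordinate ring as an algebra over the polynomial ring without the last variable -/
@[reducible] noncomputable def algP' (L : Submodule k (Fin (n + 2) → k)) :
    Algebra (MvPolynomial (Fin n) k) (A L 0) :=
  ((phi L).comp (rename Fin.castSucc)).toRingHom.toAlgebra

theorem rank_quot_eq {L : Submodule k (Fin (n + 2) → k)} {L' : Submodule k (Fin (n + 1) → k)}
    (α : A L 0 →ₐ[k] A L' 0) (hsurj : Function.Surjective α)
    (hα0 : α (uA L 0 (Fin.last (n + 1))) = 0)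
    (hα : ∀ j : Fin (n + 1), α (uA L 0 j.castSucc) = uA L' 0 j)
    (x : A L 0) (hx : ∀ y, α y = 0 ↔ y ∈ Ideal.span {x}) :
    letI := algP' L
    Module.rank (MvPolynomial (Fin n) k) (A L 0 ⧸ Ideal.span {x}) =
      Module.rank (MvPolynomial (Fin n) k) (A L' 0) := by
  let _ := algP' L
  let αP : A L 0 →ₐ[MvPolynomial (Fin n) k] A L' 0 :=
    { α.toRingHom with
      commutes' := by
        intro p
        show α (phi L (rename Fin.castSucc p)) = phi L' p
        rw [comp_phi α hα0 hα, spec0_rename] }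
  have hker : Ideal.span {x} = RingHom.ker αP := by
    ext y
    rw [← hx]
    rfl
  exact ((Ideal.quotientEquivAlgOfEq (MvPolynomial (Fin n) k) hker).trans
    (Ideal.quotientKerAlgEquivOfSurjective (f := αP) hsurj)).toLinearEquiv.rank_eq

theorem rank_step_inj {L : Submodule k (Fin (n + 2) → k)} (hinj : Function.Injective (phi L)) :
    ∃ N : ℕ, Module.rank (MvPolynomial (Fin (n + 1)) k) (A L 0) = N ∧
      Module.rank (MvPolynomial (Fin n) k) (A (del L) 0) +
        2 * Module.rank (MvPolynomial (Fin n) k) (A (con L) 0) = N := by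
  have := nontrivial_of_inj hinj
  have : IsDomain (A L 0) := isDomainA L 0 exists_zero
  have hlast : (Fin.last (n + 1)) = (Fin.last n).succ := (Fin.succ_last n).symm
  have hu0 : uA L 0 (Fin.last (n + 1)) ≠ 0 := by
    rw [hlast]
    exact uA_ne_zero hinj _
  have ht0 : tA L 0 (Fin.last (n + 1)) ≠ 0 := by
    intro h
    exact hu0 (by rw [uA, h]; ring)
  have hv0 : vA L 0 (Fin.last (n + 1)) ≠ 0 := by
    intro h
    exact hu0 (by rw [uA, h]; ring)
  obtain ⟨N, a, hli, ht⟩ := exists_basis_A hinj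
  let _ := algP' L
  have hspec := rank_specialize (P := MvPolynomial (Fin (n + 1)) k)
    (P' := MvPolynomial (Fin n) k) (A := A L 0)
    (Y := A L 0 ⧸ Ideal.span {uA L 0 (Fin.last (n + 1))})
    (X (Fin.last n)) isPrime_span_X (spec0 k n).toRingHom spec0_surjective
    (fun p => spec0_eq_zero_iff p)
    (Ideal.Quotient.mk (Ideal.span {uA L 0 (Fin.last (n + 1))})).toAddMonoidHom
    Ideal.Quotient.mk_surjective (by
      intro p x
      have h1 : p • x = phi L p * x := Algebra.smul_def _ _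
      obtain ⟨q, hq⟩ := Ideal.mem_span_singleton'.1 (sub_rename_mem p)
      have h2 : phi L p = phi L (rename Fin.castSucc (spec0 k n p)) +
          phi L q * uA L 0 (Fin.last (n + 1)) := by
        rw [hlast, ← phi_X, ← map_mul, hq, ← map_add]
        congr 1
        ring
      show Ideal.Quotient.mk _ (p • x) = spec0 k n p • Ideal.Quotient.mk _ x
      rw [h1, h2, add_mul, map_add]
      have h3 : Ideal.Quotient.mk (Ideal.span {uA L 0 (Fin.last (n + 1))})
          (phi L q * uA L 0 (Fin.last (n + 1)) * x) = 0 := by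
        rw [Ideal.Quotient.eq_zero_iff_mem, Ideal.mem_span_singleton']
        exact ⟨phi L q * x, by ring⟩
      rw [h3, add_zero, map_mul, Algebra.smul_def]
      rfl) (by
      intro x hx
      have hx' : Ideal.Quotient.mk (Ideal.span {uA L 0 (Fin.last (n + 1))}) x = 0 := hx
      rw [Ideal.Quotient.eq_zero_iff_mem, Ideal.mem_span_singleton'] at hx'
      obtain ⟨y, hy⟩ := hx'
      refine ⟨y, ?_⟩
      rw [Algebra.smul_def, algebraMap_P, phi_X, ← hlast, ← hy, mul_comm]) a hli ht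
  refine ⟨N, hspec.1, ?_⟩
  rw [← hspec.2]
  obtain ⟨α, hα1, hα2, hα3, hα4⟩ := exists_del (L := L) (exists_ann_of_vA_ne hv0)
  obtain ⟨β, hβ1, hβ2, hβ3, hβ4⟩ := exists_con (L := L) (exists_L_of_tA_ne ht0)
  have hα0 : α (uA L 0 (Fin.last (n + 1))) = 0 := by
    have h1 : α (vA L 0 (Fin.last (n + 1))) = 0 := (hα2 _).2 (Ideal.mem_span_singleton_self _)
    rw [uA, map_mul, h1, zero_mul]
  have hβ0 : β (uA L 0 (Fin.last (n + 1))) = 0 := by
    have h1 : β (tA L 0 (Fin.last (n + 1))) = 0 := (hβ2 _).2 (Ideal.mem_span_singleton_self _)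
    rw [uA, map_mul, map_pow, h1]
    ring
  have e1 := rank_quot_eq α hα1 hα0 (fun j => by rw [uA, map_mul, map_pow, hα3, hα4, uA]) _ hα2
  have e2 := rank_quot_eq β hβ1 hβ0 (fun j => by rw [uA, map_mul, map_pow, hβ3, hβ4, uA]) _ hβ2
  rw [← e1, ← e2]
  have e3 : uA L 0 (Fin.last (n + 1)) = vA L 0 (Fin.last (n + 1)) *
      (tA L 0 (Fin.last (n + 1)) * tA L 0 (Fin.last (n + 1))) := by
    rw [uA]; ring
  rw [e3, rank_quot_mul _ _ hv0, rank_quot_mul _ _ ht0, two_mul]

/-- points over `k` -/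
theorem isPt_k {ι : Type} [Fintype ι] {L : Submodule k (ι → k)} {e : ι} {ω c : ι → k}
    (hω : ω ∈ L) (h1 : ω e = 1) (hc : c ∈ ann L) : IsPt L e ω c where
  ht c' hc' := by
    simp only [smul_eq_mul]
    exact hc' ω hω
  he := h1
  hv ω' hω' := by
    simp only [smul_eq_mul]
    rw [← hc ω' hω']
    exact Finset.sum_congr rfl fun i _ => mul_comm _ _

theorem tA_ne_zero {ι : Type} [Fintype ι] {L : Submodule k (ι → k)} {e i : ι}
    (h0 : ∃ ω ∈ L, ω e ≠ 0) (hi : ∃ ω ∈ L, ω i ≠ 0) : tA L e i ≠ 0 := by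
  have key : ∃ ω ∈ L, ω e = 1 ∧ ω i ≠ 0 := by
    obtain ⟨a, ha, hae⟩ := h0
    obtain ⟨b, hb, hbi⟩ := hi
    by_cases h1 : a i = 0
    · by_cases h2 : b e = 0
      · refine ⟨(a e)⁻¹ • a + b, L.add_mem (L.smul_mem _ ha) hb, ?_, ?_⟩
        · simp [h2, inv_mul_cancel₀ hae]
        · simpa [h1] using hbi
      · refine ⟨(b e)⁻¹ • b, L.smul_mem _ hb, ?_, ?_⟩
        · simp [inv_mul_cancel₀ h2]
        · simpa using ⟨h2, hbi⟩
    · refine ⟨(a e)⁻¹ • a, L.smul_mem _ ha, ?_, ?_⟩
      · simp [inv_mul_cancel₀ hae]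
      · simpa using ⟨hae, h1⟩
  obtain ⟨ω, hω, h1, h2⟩ := key
  intro h
  have h3 := liftA_t (isPt_k hω h1 (ann L).zero_mem) i
  rw [h, map_zero] at h3
  exact h2 h3.symm

theorem vA_ne_zero {ι : Type} [Fintype ι] {L : Submodule k (ι → k)} {e i : ι}
    (h0 : ∃ ω ∈ L, ω e ≠ 0) (hi : ∃ c ∈ ann L, c i ≠ 0) : vA L e i ≠ 0 := by
  obtain ⟨a, ha, hae⟩ := h0
  obtain ⟨c, hc, hci⟩ := hi
  intro h
  have h1 : ((a e)⁻¹ • a) e = 1 := by simp [inv_mul_cancel₀ hae]
  have h3 := liftA_v (isPt_k (L.smul_mem (a e)⁻¹ ha) h1 hc) i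
  rw [h, map_zero] at h3
  exact hci h3.symm

/-- The rank satisfies the deletion-contraction rule. -/
theorem rank_step {L : Submodule k (Fin (n + 2) → k)} (h0 : ∃ ω ∈ L, ω 0 ≠ 0)
    (hω : ∃ ω ∈ L, ω (Fin.last (n + 1)) ≠ 0) (hc : ∃ c ∈ ann L, c (Fin.last (n + 1)) ≠ 0) :
    ∃ N : ℕ, Module.rank (MvPolynomial (Fin (n + 1)) k) (A L 0) = N ∧
      Module.rank (MvPolynomial (Fin n) k) (A (del L) 0) +
        2 * Module.rank (MvPolynomial (Fin n) k) (A (con L) 0) = N := by
  by_cases hinj : Function.Injective (phi L)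
  · exact rank_step_inj hinj
  · have : IsDomain (A L 0) := isDomainA L 0 h0
    refine ⟨0, ?_, ?_⟩
    · rw [rank_eq_zero_of_not_inj hinj, Nat.cast_zero]
    · obtain ⟨α, hα1, hα2, hα3, hα4⟩ := exists_del (L := L) hc
      obtain ⟨β, hβ1, hβ2, hβ3, hβ4⟩ := exists_con (L := L) hω
      have hα0 : α (uA L 0 (Fin.last (n + 1))) = 0 := by
        have h1 : α (vA L 0 (Fin.last (n + 1))) = 0 := (hα2 _).2 (Ideal.mem_span_singleton_self _)
        rw [uA, map_mul, h1, zero_mul]
      have hβ0 : β (uA L 0 (Fin.last (n + 1))) = 0 := by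
        have h1 : β (tA L 0 (Fin.last (n + 1))) = 0 := (hβ2 _).2 (Ideal.mem_span_singleton_self _)
        rw [uA, map_mul, map_pow, h1]
        ring
      have hne : uA L 0 (Fin.last (n + 1)) ≠ 0 :=
        mul_ne_zero (vA_ne_zero h0 hc) (pow_ne_zero _ (tA_ne_zero h0 hω))
      have e1 : ¬ Function.Injective (phi (del L)) := fun h => hinj
        (inj_of_quot this hne α hα0 (fun j => by rw [uA, map_mul, map_pow, hα3, hα4, uA]) h)
      have e2 : ¬ Function.Injective (phi (con L)) := fun h => hinj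
        (inj_of_quot this hne β hβ0 (fun j => by rw [uA, map_mul, map_pow, hβ3, hβ4, uA]) h)
      rw [rank_eq_zero_of_not_inj e1, rank_eq_zero_of_not_inj e2, mul_zero, add_zero,
        Nat.cast_zero]

end Pool.Agent.N140.Rec
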